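import Mathlib
import Pool.Agent.H378R2.M7t
import Pool.Agent.H318R2.Cr.Low
import Pool.Agent.H312R2.Pop

/-! TEAM PG (helper312): interfaces of the modules. -/

open Finset Filter

namespace Pool.Agent.H312R2.PG

open Pool.Agent.H378R2
open Pool.Agent.H318R2.Cr (Rgh Pz V)

/-! ### T1: frequency of irregularities -/

/-- (A1) prime number theorem with the weight `Phi` -/
def LMratio : Prop := ∀ ε : ℝ, 0 < ε → ∀ᶠ X : ℝ in atTop, |LPhi X - MPhi X| ≤ ε * X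

/-- (A2) prime number theorem for the divisors of the big modulus -/
def PNTdiv : Prop := ∀ (A Z : ℕ), ∃ X0 : ℝ, ∀ X : ℝ, X0 ≤ X →
    ∃ (ps : ℕ) (S : Finset ℕ), GoodP Z ps ∧ GoodS X S ∧
      ∀ Q : ℕ, Q ∣ WW X S ps → ∀ b : ℕ, b.Coprime Q →
        |EPhi X Q b| ≤ X / ((Nat.totient Q : ℝ) * (Real.log X) ^ A)

/-- (B) short intervals with too many integers without prime factors `≤ z` -/
def HighInt : Prop := ∀ U₀ : ℝ, ∃ δ : ℝ, 0 < δ ∧ ∃ (K : ℝ) (z₀ : ℕ), ∀ z : ℕ, z₀ ≤ z → ∀ h : ℕ, 1 ≤ h →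
    (h : ℝ) ≤ (z : ℝ) ^ U₀ → ∃ a : ℕ, (a : ℝ) ≤ (z : ℝ) ^ K ∧
      (1 + δ) * (h * V z) ≤ Pool.Agent.H318R2.Cr.cnt z a h

/-! ### T2: frequency of large gaps -/

open Classical in
/-- (E1) integers free of medium primes -/
def MediumFree : Prop := ∃ C : ℝ, 0 < C ∧ ∀ (h : ℕ) (U η : ℝ), 1 ≤ U → 0 < η → η ≤ 1 / 2 →
    U ≤ Real.log h / 2 → C ≤ η * Real.log h →
    (((Icc 1 h).filter (fun s => ∀ p : ℕ, p.Prime → (h : ℝ) ^ (1 / U) < p → (p : ℝ) ≤ (h : ℝ) ^ (1 - η) → ¬ p ∣ s)).card : ℝ)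
      ≤ C * (Real.exp (-U) + η) * h

open Classical in
/-- (E3) a positive proportion of the intervals of length `log x` contain primes -/
def PosProp : Prop := ∃ (c : ℝ) (x₀ : ℕ), 0 < c ∧ ∀ x : ℕ, x₀ ≤ x →
    c * x ≤ ((Icc 1 x).filter (fun m => ∃ q : ℕ, q.Prime ∧ m < q ∧ (q : ℝ) ≤ m + Real.log x)).card

/-! ### T3: consecutive primes in patterns of diameter `T log x` -/

/-- the admissible positions of the tuple -/
def TupOK (X T : ℝ) (z1 : ℕ) {K : ℕ} (t : Fin K → ℕ) : Prop :=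
  Function.Injective t ∧ ∀ j, (t j).Prime ∧ yy X < t j ∧ (t j : ℝ) ≤ T * Real.log X ∧ t j ≡ 1 [MOD primorial z1]

/-- (F2) covering: a class `a0` modulo the big modulus which keeps the tuple alive and kills nearly all the
other positions in the window -/
def Cov : Prop := ∀ K : ℕ, ∃ z1 : ℕ, K ≤ z1 ∧ ∀ T δ : ℝ, 1 ≤ T → 0 < δ → ∃ Z : ℕ, ∃ X0 : ℝ, ∀ X : ℝ, X0 ≤ X →
  ∀ (ps : ℕ) (S : Finset ℕ), GoodP Z ps → GoodS X S → ∀ t : Fin K → ℕ, TupOK X T z1 t →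
  ∃ a0 : ℕ, (∀ j, (a0 + t j).Coprime (WW X S ps)) ∧
    (((range (⌊T * Real.log X⌋₊ + 1)).filter (fun s => (∀ j, s ≠ t j) ∧ (a0 + s).Coprime (WW X S ps))).card : ℝ) ≤
      δ * Real.log X / Real.log (Real.log X)

/-- (F1) Maynard-Tao inside an Erdos-Rankin window with spread out tuple -/
def MTER : Prop := ∀ r : ℕ, ∃ K z1 : ℕ, r ≤ K ∧ K ≤ z1 ∧ ∀ T : ℝ, 1 ≤ T → ∃ X0 : ℝ, ∀ X : ℝ, X0 ≤ X →
  ∀ t : Fin K → ℕ, TupOK X T z1 t → ∀ bad : Finset ℕ, (bad.card : ℝ) ≤ X ^ (9 / 10 : ℝ) →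
  ∃ n : ℕ, X < n ∧ (n : ℝ) ≤ 3 * X ∧ n ∉ bad ∧ r ≤ ((univ : Finset (Fin K)).filter (fun j => (n + t j).Prime)).card ∧
    ∀ s : ℕ, (s : ℝ) ≤ T * Real.log X → (n + s).Prime → ∃ j, s = t j

end Pool.Agent.H312R2.PG
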