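import Mathlib
import Pool.Agent.H312R2.PG.Iface
import Pool.Agent.Helper923.PNT

/-! A1 : prime number theorem with the weight `Phi`. -/

open Finset Filter

namespace Pool.Agent.H312R2.PG

open Pool.Agent.H378R2

namespace A1

theorem psi_succ (n : ℕ) : Chebyshev.psi ((n + 1 : ℕ) : ℝ) =
    Chebyshev.psi (n : ℝ) + ArithmeticFunction.vonMangoldt (n + 1) := by
  unfold Chebyshev.psi
  rw [Nat.floor_natCast, Nat.floor_natCast, Finset.sum_Ioc_succ_top (Nat.zero_le n)]

/-- summation by parts -/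
theorem sbp (g D : ℕ → ℝ) (hD : D 0 = 0) (M : ℕ) :
    ∑ n ∈ range M, g (n + 1) * (D (n + 1) - D n) =
      g M * D M - ∑ n ∈ range M, (g (n + 1) - g n) * D n := by
  induction M with
  | zero => simp [hD]
  | succ M ih =>
    rw [Finset.sum_range_succ, Finset.sum_range_succ, ih]
    ring

theorem sum_Icc_range (M : ℕ) (f : ℕ → ℝ) : ∑ n ∈ Icc 1 M, f n = ∑ n ∈ range M, f (n + 1) := by
  induction M with
  | zero => simp
  | succ M ih => rw [Finset.sum_Icc_succ_top (by omega), Finset.sum_range_succ, ih]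

theorem D_bound (ε : ℝ) (hε : 0 < ε) : ∃ C : ℝ, 0 ≤ C ∧ ∀ n : ℕ,
    |Chebyshev.psi (n : ℝ) - n| ≤ ε * n + C := by
  have h := Pool.Agent.Helper923.PNT.psi_div_tendsto
  rw [Metric.tendsto_atTop] at h
  obtain ⟨N, hN⟩ := h ε hε
  obtain ⟨N1, hN1⟩ := exists_nat_ge (max N 1)
  refine ⟨∑ m ∈ range N1, |Chebyshev.psi (m : ℝ) - m|, Finset.sum_nonneg fun _ _ => abs_nonneg _,
    fun n => ?_⟩
  by_cases hn : n < N1
  · have h1 : |Chebyshev.psi (n : ℝ) - n| ≤ ∑ m ∈ range N1, |Chebyshev.psi (m : ℝ) - m| :=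
      Finset.single_le_sum (f := fun m : ℕ => |Chebyshev.psi (m : ℝ) - m|)
        (fun _ _ => abs_nonneg _) (Finset.mem_range.2 hn)
    have h2 : 0 ≤ ε * n := by positivity
    linarith
  · push Not at hn
    have h1 : (N1 : ℝ) ≤ n := by exact_mod_cast hn
    have h2 : N ≤ (n : ℝ) := (le_max_left _ _).trans (hN1.trans h1)
    have h3 : (1 : ℝ) ≤ n := (le_max_right _ _).trans (hN1.trans h1)
    have h4 := hN n h2
    rw [Real.dist_eq] at h4
    have h5 : |Chebyshev.psi (n : ℝ) - n| = |Chebyshev.psi (n : ℝ) / n - 1| * n := by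
      have h6 : (n : ℝ) ≠ 0 := by linarith
      rw [← abs_of_nonneg (show (0 : ℝ) ≤ n by linarith), ← abs_mul, abs_of_nonneg (show (0 : ℝ) ≤ n by linarith)]
      congr 1
      field_simp
    rw [h5]
    have h7 : |Chebyshev.psi (n : ℝ) / n - 1| * n ≤ ε * n :=
      mul_le_mul_of_nonneg_right h4.le (by linarith)
    have h8 : 0 ≤ ∑ m ∈ range N1, |Chebyshev.psi (m : ℝ) - m| :=
      Finset.sum_nonneg fun _ _ => abs_nonneg _
    linarith

end A1

open A1 in
theorem lmratio : LMratio := by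
  intro ε hε
  obtain ⟨C, hC, hD⟩ := D_bound (ε / 24) (by positivity)
  filter_upwards [eventually_ge_atTop (8 * C / ε), eventually_ge_atTop (1 : ℝ)] with X hX1 hX2
  have hX0 : 0 < X := by linarith
  set M := ⌊3 * X⌋₊ with hM
  have hMX : (M : ℝ) ≤ 3 * X := Nat.floor_le (by positivity)
  set D : ℕ → ℝ := fun n => Chebyshev.psi (n : ℝ) - n with hDd
  have hD0 : D 0 = 0 := by
    simp [hDd, Chebyshev.psi]
  have hstep : ∀ n : ℕ, D (n + 1) - D n = ArithmeticFunction.vonMangoldt (n + 1) - 1 := by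
    intro n
    simp only [hDd]
    rw [psi_succ n]
    push_cast
    ring
  have e : LPhi X - MPhi X = ∑ n ∈ range M, Phi (((n + 1 : ℕ) : ℝ) / X) * (D (n + 1) - D n) := by
    unfold LPhi MPhi
    rw [← Finset.sum_sub_distrib, sum_Icc_range]
    refine Finset.sum_congr rfl fun n _ => ?_
    rw [hstep n]
    ring
  rw [e, sbp (fun n : ℕ => Phi ((n : ℝ) / X)) D hD0 M]
  have h1 : |Phi ((M : ℝ) / X) * D M| ≤ ε / 24 * (3 * X) + C := by
    rw [abs_mul]
    calc |Phi ((M : ℝ) / X)| * |D M| ≤ 1 * |D M| :=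
          mul_le_mul_of_nonneg_right (abs_Phi_le _) (abs_nonneg _)
      _ = |D M| := one_mul _
      _ ≤ ε / 24 * M + C := hD M
      _ ≤ _ := by
          have : ε / 24 * M ≤ ε / 24 * (3 * X) := mul_le_mul_of_nonneg_left hMX (by positivity)
          linarith
  have h2 : |∑ n ∈ range M, (Phi (((n + 1 : ℕ) : ℝ) / X) - Phi ((n : ℝ) / X)) * D n| ≤
      3 * (ε / 24 * (3 * X) + C) := by
    refine (Finset.abs_sum_le_sum_abs _ _).trans ?_
    have h3 : ∀ n ∈ range M, |(Phi (((n + 1 : ℕ) : ℝ) / X) - Phi ((n : ℝ) / X)) * D n| ≤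
        1 / X * (ε / 24 * (3 * X) + C) := by
      intro n hn
      rw [Finset.mem_range] at hn
      rw [abs_mul]
      have h4 : |Phi (((n + 1 : ℕ) : ℝ) / X) - Phi ((n : ℝ) / X)| ≤ 1 / X := by
        refine (Phi_lip (by positivity) (by positivity)).trans ?_
        have h5 : ((n + 1 : ℕ) : ℝ) / X - (n : ℝ) / X = 1 / X := by
          push_cast
          field_simp
          ring
        rw [h5, abs_of_nonneg (by positivity)]
      have h6 : |D n| ≤ ε / 24 * (3 * X) + C := by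
        have h7 : (n : ℝ) ≤ M := by exact_mod_cast hn.le
        have h8 : ε / 24 * (n : ℝ) ≤ ε / 24 * (3 * X) :=
          mul_le_mul_of_nonneg_left (h7.trans hMX) (by positivity)
        have h9 : |D n| ≤ ε / 24 * n + C := hD n
        linarith
      exact mul_le_mul h4 h6 (abs_nonneg _) (by positivity)
    refine (Finset.sum_le_sum h3).trans ?_
    rw [Finset.sum_const, Finset.card_range, nsmul_eq_mul]
    calc (M : ℝ) * (1 / X * (ε / 24 * (3 * X) + C)) ≤ (3 * X) * (1 / X * (ε / 24 * (3 * X) + C)) := by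
          apply mul_le_mul_of_nonneg_right hMX
          positivity
      _ = _ := by field_simp
  have h3 : C ≤ ε * X / 8 := by
    rw [div_le_iff₀ hε] at hX1
    linarith
  calc |Phi ((M : ℝ) / X) * D M - ∑ n ∈ range M, (Phi (((n + 1 : ℕ) : ℝ) / X) - Phi ((n : ℝ) / X)) * D n|
      ≤ |Phi ((M : ℝ) / X) * D M| +
        |∑ n ∈ range M, (Phi (((n + 1 : ℕ) : ℝ) / X) - Phi ((n : ℝ) / X)) * D n| := abs_sub _ _
    _ ≤ (ε / 24 * (3 * X) + C) + 3 * (ε / 24 * (3 * X) + C) := add_le_add h1 h2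
    _ ≤ ε * X := by linarith

end Pool.Agent.H312R2.PG
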