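import Mathlib
import Pool.Agent.H312R2.PG.Iface

/-! A2 : prime number theorem for the divisors of the big modulus, from `BVrel`. -/

open Finset Filter

namespace Pool.Agent.H312R2.PG

open Pool.Agent.H378R2

namespace A2

/-- number of coprime lifts of a coprime class mod `Q` to a class mod `Q * R` -/
theorem card_lift (Q R b : ℕ) (hQ : 0 < Q) (hR : 0 < R) (hQR : Q.Coprime R) (hb : b.Coprime Q) :
    ((range (Q * R)).filter (fun c => c ≡ b [MOD Q] ∧ c.Coprime (Q * R))).card = R.totient := by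
  rw [Nat.totient_eq_card_coprime]
  apply Finset.card_bij (fun c _ => c % R)
  · intro c hc
    rw [Finset.mem_filter, Finset.mem_range] at hc
    rw [Finset.mem_filter, Finset.mem_range]
    refine ⟨Nat.mod_lt _ hR, ?_⟩
    have h1 : c.Coprime R := Nat.Coprime.coprime_dvd_right (Dvd.intro_left _ rfl) hc.2.2
    have h2 : Nat.gcd R (c % R) = 1 := by
      rw [Nat.gcd_comm, ← Nat.gcd_rec, Nat.gcd_comm]
      exact h1
    exact h2
  · intro c hc d hd hcd
    rw [Finset.mem_filter, Finset.mem_range] at hc hd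
    have h1 : c ≡ d [MOD Q] := hc.2.1.trans hd.2.1.symm
    have h2 : c ≡ d [MOD R] := hcd
    have h3 : c ≡ d [MOD (Q * R)] := (Nat.modEq_and_modEq_iff_modEq_mul hQR).1 ⟨h1, h2⟩
    have h4 : c % (Q * R) = d % (Q * R) := h3
    rwa [Nat.mod_eq_of_lt hc.1, Nat.mod_eq_of_lt hd.1] at h4
  · intro r hr
    rw [Finset.mem_filter, Finset.mem_range] at hr
    have hlt := Nat.chineseRemainder_lt_mul hQR b r hQ.ne' hR.ne'
    have hc := (Nat.chineseRemainder hQR b r).2
    set c : ℕ := (Nat.chineseRemainder hQR b r).1 with hcd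
    refine ⟨c, ?_, ?_⟩
    · rw [Finset.mem_filter, Finset.mem_range]
      refine ⟨hlt, hc.1, ?_⟩
      apply Nat.Coprime.mul_right
      · have h1 : Nat.gcd c Q = Nat.gcd b Q := hc.1.gcd_eq
        unfold Nat.Coprime
        rw [h1]
        exact hb
      · have h1 : Nat.gcd c R = Nat.gcd r R := hc.2.gcd_eq
        unfold Nat.Coprime
        rw [h1, Nat.gcd_comm]
        exact hr.2
    · have h1 : c % R = r % R := hc.2
      rw [h1, Nat.mod_eq_of_lt hr.1]

/-- splitting a class mod `Q` into classes mod `Q * R` -/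
theorem sum_split (Q R b N : ℕ) (hQ : 0 < Q) (hR : 0 < R) (f : ℕ → ℝ) :
    ∑ n ∈ (Icc 1 N).filter (fun n => n ≡ b [MOD Q]), f n =
      ∑ c ∈ (range (Q * R)).filter (fun c => c ≡ b [MOD Q] ∧ c.Coprime (Q * R)),
        ∑ n ∈ (Icc 1 N).filter (fun n => n ≡ c [MOD (Q * R)]), f n +
      ∑ n ∈ ((Icc 1 N).filter (fun n => n ≡ b [MOD Q])).filter (fun n => ¬ n.Coprime (Q * R)), f n := by
  have hW : 0 < Q * R := Nat.mul_pos hQ hR
  rw [← Finset.sum_filter_add_sum_filter_not ((Icc 1 N).filter (fun n => n ≡ b [MOD Q]))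
    (fun n => n.Coprime (Q * R))]
  congr 1
  have hmap : ∀ n ∈ ((Icc 1 N).filter (fun n => n ≡ b [MOD Q])).filter (fun n => n.Coprime (Q * R)),
      n % (Q * R) ∈ (range (Q * R)).filter (fun c => c ≡ b [MOD Q] ∧ c.Coprime (Q * R)) := by
    intro n hn
    rw [Finset.mem_filter, Finset.mem_filter] at hn
    rw [Finset.mem_filter, Finset.mem_range]
    refine ⟨Nat.mod_lt _ hW, ?_, ?_⟩
    · have h1 : n % (Q * R) ≡ n [MOD Q] := (Nat.mod_modEq n (Q * R)).of_mul_right R
      exact h1.trans hn.1.2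
    · have h1 : Nat.gcd (n % (Q * R)) (Q * R) = Nat.gcd n (Q * R) := (Nat.mod_modEq n (Q * R)).gcd_eq
      unfold Nat.Coprime
      rw [h1]
      exact hn.2
  rw [← Finset.sum_fiberwise_of_maps_to hmap]
  refine Finset.sum_congr rfl fun c hc => ?_
  rw [Finset.mem_filter, Finset.mem_range] at hc
  refine Finset.sum_congr (Finset.ext fun n => ?_) fun _ _ => rfl
  rw [Finset.mem_filter, Finset.mem_filter, Finset.mem_filter, Finset.mem_filter]
  constructor
  · rintro ⟨⟨⟨h1, _⟩, _⟩, h4⟩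
    refine ⟨h1, ?_⟩
    change n % (Q * R) = c % (Q * R)
    rw [h4, Nat.mod_eq_of_lt hc.1]
  · rintro ⟨h1, h2⟩
    have h3 : n % (Q * R) = c := by
      have : n % (Q * R) = c % (Q * R) := h2
      rwa [Nat.mod_eq_of_lt hc.1] at this
    refine ⟨⟨⟨h1, ?_⟩, ?_⟩, h3⟩
    · have h4 : n ≡ c [MOD Q] := Nat.ModEq.of_mul_right R h2
      exact h4.trans hc.2.1
    · have h5 : Nat.gcd n (Q * R) = Nat.gcd c (Q * R) := h2.gcd_eq
      unfold Nat.Coprime
      rw [h5]
      exact hc.2.2

/-- prime powers of primes dividing `W` -/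
theorem bad_sum (W N Y : ℕ) (hY : ∀ p : ℕ, p.Prime → p ∣ W → p ≤ Y) (s : Finset ℕ)
    (hs : ∀ n ∈ s, 1 ≤ n ∧ n ≤ N ∧ ¬ n.Coprime W) :
    ∑ n ∈ s, ArithmeticFunction.vonMangoldt n ≤ Y * (Nat.log 2 N) * Real.log N := by
  classical
  have h1 : ∑ n ∈ s, ArithmeticFunction.vonMangoldt n =
      ∑ n ∈ s.filter (fun n => IsPrimePow n), ArithmeticFunction.vonMangoldt n := by
    rw [Finset.sum_filter]
    refine Finset.sum_congr rfl fun n _ => ?_
    split_ifs with h
    · rfl
    · exact ArithmeticFunction.vonMangoldt_eq_zero_iff.2 h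
  rw [h1]
  have h2 : s.filter (fun n => IsPrimePow n) ⊆
      ((Icc 1 Y) ×ˢ (Icc 1 (Nat.log 2 N))).image (fun q => q.1 ^ q.2) := by
    intro n hn
    rw [Finset.mem_filter] at hn
    obtain ⟨hn1, p, j, hp, hj, rfl⟩ := hn
    have hp' : p.Prime := hp.nat_prime
    obtain ⟨h3, h4, h5⟩ := hs _ hn1
    rw [Finset.mem_image]
    refine ⟨(p, j), ?_, rfl⟩
    rw [Finset.mem_product, Finset.mem_Icc, Finset.mem_Icc]
    have hpW : p ∣ W := by
      by_contra hcon
      exact h5 (Nat.Coprime.pow_left j ((Nat.Prime.coprime_iff_not_dvd hp').2 hcon))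
    refine ⟨⟨hp'.one_lt.le, hY p hp' hpW⟩, hj, ?_⟩
    have h6 : 2 ^ j ≤ N := (Nat.pow_le_pow_left hp'.two_le j).trans h4
    exact Nat.le_log_of_pow_le (by norm_num) h6
  have h3 : (s.filter (fun n => IsPrimePow n)).card ≤ Y * Nat.log 2 N := by
    refine (Finset.card_le_card h2).trans (Finset.card_image_le.trans ?_)
    rw [Finset.card_product, Nat.card_Icc, Nat.card_Icc]
    simp
  have h4 : ∀ n ∈ s.filter (fun n => IsPrimePow n), ArithmeticFunction.vonMangoldt n ≤ Real.log N := by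
    intro n hn
    rw [Finset.mem_filter] at hn
    obtain ⟨h5, h6, -⟩ := hs n hn.1
    refine ArithmeticFunction.vonMangoldt_le_log.trans ?_
    apply Real.log_le_log
    · exact_mod_cast h5
    · exact_mod_cast h6
  refine (Finset.sum_le_card_nsmul _ _ _ h4).trans ?_
  rw [nsmul_eq_mul]
  apply mul_le_mul_of_nonneg_right _ (Real.log_natCast_nonneg N)
  exact_mod_cast h3

theorem polylog (A : ℕ) : ∀ᶠ X : ℝ in atTop, 32 * (Real.log X) ^ (A + 3) ≤ X ^ (9 / 10 : ℝ) := by
  have h1 : (fun x : ℝ => (Real.log x) ^ (A + 3)) =o[atTop] fun x => x ^ (9 / 10 : ℝ) := by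
    have := isLittleO_log_rpow_rpow_atTop ((A + 3 : ℕ) : ℝ) (show (0 : ℝ) < 9 / 10 by norm_num)
    simp only [Real.rpow_natCast] at this
    exact this
  have h2 := h1.def (c := 1 / 32) (by norm_num)
  filter_upwards [h2, eventually_gt_atTop (1 : ℝ)] with x hx hx1
  have hl : 0 ≤ Real.log x := Real.log_nonneg hx1.le
  rw [Real.norm_of_nonneg (by positivity), Real.norm_of_nonneg (by positivity)] at hx
  linarith

end A2

open A2 in
theorem pntdiv_of (hBV : BVrel) : PNTdiv := by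
  intro A Z
  obtain ⟨X0, h⟩ := hBV (A + 1) Z
  obtain ⟨X1, hX1⟩ := (polylog A).exists_forall_of_atTop
  refine ⟨max (max X0 X1) (Real.exp 2), fun X hX => ?_⟩
  have hXX0 : X0 ≤ X := ((le_max_left _ _).trans (le_max_left _ _)).trans hX
  have hXX1 : X1 ≤ X := ((le_max_right _ _).trans (le_max_left _ _)).trans hX
  have hXe : Real.exp 2 ≤ X := (le_max_right _ _).trans hX
  have hpl := hX1 X hXX1
  have hX0 : 0 < X := (Real.exp_pos _).trans_le hXe
  have hlX : 2 ≤ Real.log X := (Real.le_log_iff_exp_le hX0).2 hXe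
  have hX3 : 3 ≤ X := by
    have := Real.add_one_le_exp (2 : ℝ)
    linarith
  obtain ⟨ps, S, hps, hS, hbv⟩ := h X hXX0
  refine ⟨ps, S, hps, hS, fun Q hQ b hb => ?_⟩
  obtain ⟨R, hR⟩ := hQ
  have hWpos : 0 < WW X S ps := WW_pos X S ps
  have hWsq := WW_squarefree X S ps
  rw [hR] at hWsq
  have hQ0 : 0 < Q := Nat.pos_of_ne_zero (by rintro rfl; simp at hR; omega)
  have hR0 : 0 < R := Nat.pos_of_ne_zero (by rintro rfl; simp at hR; omega)
  have hQR : Q.Coprime R := Nat.coprime_of_squarefree_mul hWsq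
  set N := ⌊3 * X⌋₊ with hN
  set f : ℕ → ℝ := fun n => Phi (n / X) * ArithmeticFunction.vonMangoldt n with hf
  set T := (range (Q * R)).filter (fun c => c ≡ b [MOD Q] ∧ c.Coprime (Q * R)) with hT
  have hTc : T.card = R.totient := card_lift Q R b hQ0 hR0 hQR hb
  have hφQ : (0 : ℝ) < Q.totient := by exact_mod_cast Nat.totient_pos.2 hQ0
  have hφR : (0 : ℝ) < R.totient := by exact_mod_cast Nat.totient_pos.2 hR0
  have hφ : ((Q * R).totient : ℝ) = Q.totient * R.totient := by
    rw [Nat.totient_mul hQR]; push_cast; ring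
  have hsplit := sum_split Q R b N hQ0 hR0 f
  rw [← hT] at hsplit
  set bad := ∑ n ∈ ((Icc 1 N).filter (fun n => n ≡ b [MOD Q])).filter (fun n => ¬ n.Coprime (Q * R)), f n
    with hbad
  have hin : ∀ c ∈ T, ∑ n ∈ (Icc 1 N).filter (fun n => n ≡ c [MOD (Q * R)]), f n =
      EPhi X (Q * R) c + LPhi X * (1 / ((Q * R).totient : ℝ)) := by
    intro c _
    rw [EPhi_eq]
    ring
  have hmain : EPhi X Q b = ∑ c ∈ T, EPhi X (Q * R) c + bad := by
    rw [EPhi_eq, hsplit, Finset.sum_congr rfl hin, Finset.sum_add_distrib, Finset.sum_const, hTc,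
      nsmul_eq_mul, hφ]
    have e : (R.totient : ℝ) * (LPhi X * (1 / ((Q.totient : ℝ) * R.totient))) =
        LPhi X * (1 / (Q.totient : ℝ)) := by field_simp
    rw [e]
    ring
  -- the classes
  have hcl : ∀ c ∈ T, |EPhi X (Q * R) c| ≤
      X / (((Q * R).totient : ℝ) * (Real.log X) ^ (A + 1)) := by
    intro c hc
    rw [hT, Finset.mem_filter, Finset.mem_range] at hc
    have h1 := hbv (fun q => if q = 1 then c else 1) (by
      intro q hq
      split_ifs with hq1
      · rw [hq1, mul_one, hR]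
        exact hc.2.2
      · exact Nat.coprime_one_left _)
    rw [← hR]
    refine le_trans ?_ h1
    have hmem : 1 ∈ (Icc 1 ⌊X ^ (1 / 100 : ℝ)⌋₊).filter
          (fun q => Squarefree q ∧ q.Coprime (WW X S ps * ps)) := by
      rw [Finset.mem_filter, Finset.mem_Icc]
      refine ⟨⟨le_rfl, ?_⟩, squarefree_one, Nat.coprime_one_left _⟩
      apply Nat.le_floor
      rw [Nat.cast_one]
      exact Real.one_le_rpow (by linarith) (by norm_num)
    refine le_trans (le_of_eq ?_) (Finset.single_le_sum (f := fun q : ℕ =>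
      (q.divisors.card : ℝ) ^ (A + 1) * |EPhi X (WW X S ps * q) (if q = 1 then c else 1)|)
      (fun q _ => by positivity) hmem)
    simp
  have hsum1 : |∑ c ∈ T, EPhi X (Q * R) c| ≤ X / ((Q.totient : ℝ) * (Real.log X) ^ (A + 1)) := by
    refine (Finset.abs_sum_le_sum_abs _ _).trans ((Finset.sum_le_sum hcl).trans (le_of_eq ?_))
    rw [Finset.sum_const, hTc, nsmul_eq_mul, hφ]
    field_simp
  -- the bad part
  have hlogN : Real.log N ≤ 2 * Real.log X := by
    have h1 : (N : ℝ) ≤ X ^ 2 := by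
      have : (N : ℝ) ≤ 3 * X := Nat.floor_le (by positivity)
      nlinarith
    have hN0 : 0 < N := Nat.floor_pos.2 (by linarith)
    have h2 := Real.log_le_log (by exact_mod_cast hN0) h1
    rw [Real.log_pow] at h2
    push_cast at h2
    exact h2
  have hlogN0 : 0 ≤ Real.log N := Real.log_natCast_nonneg N
  have hlog2N : ((Nat.log 2 N : ℕ) : ℝ) ≤ 4 * Real.log X := by
    have hN0 : N ≠ 0 := (Nat.floor_pos.2 (by linarith)).ne'
    have h1 : 2 ^ (Nat.log 2 N) ≤ N := Nat.pow_log_le_self 2 hN0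
    have h2 : ((2 : ℝ) ^ (Nat.log 2 N)) ≤ N := by exact_mod_cast h1
    have h3 := Real.log_le_log (by positivity) h2
    rw [Real.log_pow] at h3
    have h4 := Real.log_two_gt_d9
    have h5 : (0 : ℝ) ≤ (Nat.log 2 N : ℕ) := Nat.cast_nonneg _
    nlinarith
  have hyy : ((yy X : ℕ) : ℝ) ≤ Real.log X := by
    have : ((yy X : ℕ) : ℝ) ≤ Real.log X / 1000 := Nat.floor_le (by positivity)
    linarith
  have hbad0 : 0 ≤ bad := Finset.sum_nonneg fun n _ =>
    mul_nonneg (Phi_nonneg _) ArithmeticFunction.vonMangoldt_nonneg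
  have hbadle : bad ≤ 8 * (Real.log X) ^ 3 := by
    have h1 : bad ≤ ∑ n ∈ ((Icc 1 N).filter (fun n => n ≡ b [MOD Q])).filter
        (fun n => ¬ n.Coprime (Q * R)), ArithmeticFunction.vonMangoldt n := by
      apply Finset.sum_le_sum
      intro n _
      exact mul_le_of_le_one_left ArithmeticFunction.vonMangoldt_nonneg (Phi_le_one _)
    have h2 := bad_sum (Q * R) N (yy X) (fun p hp hpd => by
      rw [← hR] at hpd
      exact (mem_PW.1 ((prime_dvd_WW hp).1 hpd)).1)
      (((Icc 1 N).filter (fun n => n ≡ b [MOD Q])).filter (fun n => ¬ n.Coprime (Q * R)))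
      (fun n hn => by
      rw [Finset.mem_filter, Finset.mem_filter, Finset.mem_Icc] at hn
      exact ⟨hn.1.1.1, hn.1.1.2, hn.2⟩)
    refine h1.trans (h2.trans ?_)
    calc (yy X : ℝ) * (Nat.log 2 N : ℕ) * Real.log N ≤
        Real.log X * (4 * Real.log X) * (2 * Real.log X) := by gcongr
      _ = _ := by ring
  rw [hmain]
  refine (abs_add_le _ _).trans ?_
  rw [abs_of_nonneg hbad0]
  -- final numerics
  have hφQle : (Q.totient : ℝ) ≤ X ^ (1 / 700 : ℝ) := by
    have h1 : (Q.totient : ℝ) ≤ Q := by exact_mod_cast Nat.totient_le Q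
    have h2 : (Q : ℝ) ≤ WW X S ps := by
      have : Q ≤ WW X S ps := Nat.le_of_dvd hWpos ⟨R, hR⟩
      exact_mod_cast this
    have h3 := WW_le X (by linarith) S ps
    rw [Real.rpow_def_of_pos hX0]
    calc (Q.totient : ℝ) ≤ Real.exp (Real.log X / 700) := by linarith
      _ = _ := by congr 1; ring
  have hlA : 0 < (Real.log X) ^ A := by positivity
  have hf1 : X / ((Q.totient : ℝ) * (Real.log X) ^ (A + 1)) ≤
      1 / 2 * (X / ((Q.totient : ℝ) * (Real.log X) ^ A)) := by
    have e : X / ((Q.totient : ℝ) * (Real.log X) ^ (A + 1)) =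
        1 / Real.log X * (X / ((Q.totient : ℝ) * (Real.log X) ^ A)) := by
      rw [pow_succ]
      field_simp
    rw [e]
    apply mul_le_mul_of_nonneg_right _ (by positivity)
    rw [div_le_div_iff₀ (by linarith) (by norm_num)]
    linarith
  have hf2 : 8 * (Real.log X) ^ 3 ≤ 1 / 2 * (X / ((Q.totient : ℝ) * (Real.log X) ^ A)) := by
    rw [← mul_div_assoc, le_div_iff₀ (by positivity)]
    calc 8 * (Real.log X) ^ 3 * ((Q.totient : ℝ) * (Real.log X) ^ A) =
        1 / 4 * (32 * (Real.log X) ^ (A + 3)) * Q.totient := by ring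
      _ ≤ 1 / 4 * X ^ (9 / 10 : ℝ) * X ^ (1 / 700 : ℝ) := by gcongr
      _ = 1 / 4 * X ^ (9 / 10 + 1 / 700 : ℝ) := by rw [mul_assoc, ← Real.rpow_add hX0]
      _ ≤ 1 / 4 * X ^ (1 : ℝ) := by
          apply mul_le_mul_of_nonneg_left _ (by norm_num)
          exact Real.rpow_le_rpow_of_exponent_le (by linarith) (by norm_num)
      _ ≤ 1 / 2 * X := by rw [Real.rpow_one]; linarith
  linarith

end Pool.Agent.H312R2.PG
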