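import Mathlib
import Pool.Agent.H312R2.PG.A2
import Pool.Agent.H378R2.Final

/-! A2 : final form. -/

namespace Pool.Agent.H312R2.PG

open Pool.Agent.H378R2

theorem pntdiv : PNTdiv := pntdiv_of bvrel_holds

end Pool.Agent.H312R2.PG
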