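import Mathlib
import Pool.Agent.Helper923.PNTQ
import Pool.Agent.H312R2.Pop

/-! Primes congruent to `1` modulo a fixed modulus in `(y, N]`, `y ≤ N / 500`. -/

open Finset Filter Topology ArithmeticFunction

namespace Pool.Agent.H312R2.PG

/-- sum of the von Mangoldt function over the class `1` -/
noncomputable def cls (P N : ℕ) : ℝ :=
  ∑ k ∈ Icc 1 N, vonMangoldt.residueClass (1 : ZMod P) k

theorem cls_bounds (P : ℕ) (hP : 0 < P) : ∃ N0 : ℕ, ∀ N : ℕ, N0 ≤ N →
    (9 / 10 : ℝ) * (N / (P.totient : ℝ)) ≤ cls P N ∧ cls P N ≤ (11 / 10 : ℝ) * (N / (P.totient : ℝ)) := by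
  have : NeZero P := ⟨hP.ne'⟩
  have hφ : (0 : ℝ) < (P.totient : ℝ) := by exact_mod_cast Nat.totient_pos.2 hP
  have h0 := (Pool.Agent.Helper923.H403.PNT602.pnt_residueClass (q := P) (a := 1) isUnit_one).comp
    tendsto_natCast_atTop_atTop
  have h1 := h0.eventually (Ioo_mem_nhds (show (9 / 10 : ℝ) * (P.totient : ℝ)⁻¹ < (P.totient : ℝ)⁻¹ by
      have : 0 < (P.totient : ℝ)⁻¹ := by positivity
      linarith) (show (P.totient : ℝ)⁻¹ < (11 / 10 : ℝ) * (P.totient : ℝ)⁻¹ by
      have : 0 < (P.totient : ℝ)⁻¹ := by positivity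
      linarith))
  obtain ⟨N0, hN0⟩ := eventually_atTop.1 (h1.and (eventually_ge_atTop 1))
  refine ⟨N0, fun N hN => ?_⟩
  obtain ⟨⟨h2, h3⟩, h4⟩ := hN0 N hN
  simp only [Function.comp, Nat.floor_natCast] at h2 h3
  have hNpos : (0 : ℝ) < N := by exact_mod_cast h4
  rw [lt_div_iff₀ hNpos] at h2
  rw [div_lt_iff₀ hNpos] at h3
  unfold cls
  constructor
  · calc (9 / 10 : ℝ) * (N / (P.totient : ℝ)) = 9 / 10 * (P.totient : ℝ)⁻¹ * N := by field_simp
      _ ≤ _ := h2.le
  · calc _ ≤ 11 / 10 * (P.totient : ℝ)⁻¹ * N := h3.le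
      _ = _ := by field_simp

theorem cls_le_primes (P N y : ℕ) : cls P N - cls P y ≤
    (#((Icc 1 N).filter (fun q => q.Prime ∧ y < q ∧ q ≡ 1 [MOD P])) : ℝ) * Real.log N +
      (Chebyshev.psi N - Chebyshev.theta N) := by
  classical
  have h1 : cls P N - cls P y ≤ ∑ k ∈ (Icc 1 N).filter (fun k => y < k), vonMangoldt.residueClass (1 : ZMod P) k := by
    unfold cls
    rw [sub_le_iff_le_add]
    have h2 := sum_filter_add_sum_filter_not (Icc 1 N) (fun k => y < k) (fun k => vonMangoldt.residueClass (1 : ZMod P) k)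
    rw [← h2]
    apply add_le_add le_rfl
    apply sum_le_sum_of_subset_of_nonneg
    · intro k hk
      rw [mem_filter, mem_Icc] at hk
      rw [mem_Icc]
      omega
    · intro k _ _
      exact vonMangoldt.residueClass_nonneg _ _
  refine h1.trans ?_
  have h3 : ∀ k ∈ (Icc 1 N).filter (fun k => y < k), vonMangoldt.residueClass (1 : ZMod P) k ≤
      (if k.Prime ∧ y < k ∧ k ≡ 1 [MOD P] then Real.log N else 0) + (Λ k - if k.Prime then Real.log k else 0) := by
    intro k hk
    rw [mem_filter, mem_Icc] at hk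
    have hkN : Real.log k ≤ Real.log N := Real.log_le_log (by exact_mod_cast (by omega : 0 < k)) (by exact_mod_cast hk.1.2)
    have hnn : 0 ≤ Real.log N := Real.log_nonneg (by exact_mod_cast (by omega : 1 ≤ N))
    by_cases hp : k.Prime
    · rw [if_pos hp, vonMangoldt_apply_prime hp, sub_self, add_zero]
      by_cases hc : k ≡ 1 [MOD P]
      · rw [if_pos ⟨hp, hk.2, hc⟩]
        refine (vonMangoldt.residueClass_le _ _).trans ?_
        rw [vonMangoldt_apply_prime hp]
        exact hkN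
      · rw [if_neg (fun h => hc h.2.2)]
        apply le_of_eq
        unfold vonMangoldt.residueClass
        rw [Set.indicator_of_notMem]
        intro h
        apply hc
        rw [← ZMod.natCast_eq_natCast_iff]
        simpa using h
    · rw [if_neg hp, sub_zero]
      have : 0 ≤ (if k.Prime ∧ y < k ∧ k ≡ 1 [MOD P] then Real.log N else 0) := by
        split_ifs
        · exact hnn
        · exact le_rfl
      have := vonMangoldt.residueClass_le (1 : ZMod P) k
      linarith
  refine (sum_le_sum h3).trans ?_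
  rw [sum_add_distrib]
  apply add_le_add
  · rw [← sum_filter, sum_const, nsmul_eq_mul, filter_filter]
    apply mul_le_mul_of_nonneg_right _ (Real.log_natCast_nonneg N)
    have : #((Icc 1 N).filter (fun k => y < k ∧ k.Prime ∧ y < k ∧ k ≡ 1 [MOD P])) ≤
      #((Icc 1 N).filter (fun q => q.Prime ∧ y < q ∧ q ≡ 1 [MOD P])) := by
      apply card_le_card
      intro k hk
      rw [mem_filter] at hk ⊢
      exact ⟨hk.1, hk.2.2⟩
    exact_mod_cast this
  · have h4 : Chebyshev.psi N - Chebyshev.theta N = ∑ k ∈ Icc 1 N, (Λ k - if k.Prime then Real.log k else 0) := by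
      rw [sum_sub_distrib, ← sum_filter]
      unfold Chebyshev.psi Chebyshev.theta
      rw [Nat.floor_natCast]
      rfl
    rw [h4]
    apply sum_le_sum_of_subset_of_nonneg (filter_subset _ _)
    intro k _ _
    split_ifs with hp
    · rw [vonMangoldt_apply_prime hp, sub_self]
    · rw [sub_zero]; exact vonMangoldt_nonneg

theorem class_primes (P : ℕ) (hP : 0 < P) : ∃ c : ℝ, 0 < c ∧ ∃ N0 : ℕ, ∀ N : ℕ, N0 ≤ N → ∀ y : ℕ, 500 * y ≤ N →
    c * (N / Real.log N) ≤ #((Icc 1 N).filter (fun q => q.Prime ∧ y < q ∧ q ≡ 1 [MOD P])) := by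
  obtain ⟨N1, hN1⟩ := cls_bounds P hP
  have hφ : (0 : ℝ) < (P.totient : ℝ) := by exact_mod_cast Nat.totient_pos.2 hP
  obtain ⟨C, hC⟩ := Chebyshev.psi_sub_theta_le_mul_sqrt
  refine ⟨1 / (4 * P.totient), by positivity, ?_⟩
  have e1 : ∀ᶠ N : ℕ in atTop, C * Real.sqrt N ≤ (1 / 10) * (N / (P.totient : ℝ)) := by
    have h1 : Tendsto (fun x : ℝ => C * (Real.sqrt x)⁻¹) atTop (𝓝 0) := by
      have := (tendsto_inv_atTop_zero.comp Real.tendsto_sqrt_atTop).const_mul C
      simpa [Function.comp_def] using this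
    have h2 := (h1.comp tendsto_natCast_atTop_atTop).eventually (gt_mem_nhds
      (show (0 : ℝ) < (1 / 10) * (1 / (P.totient : ℝ)) by positivity))
    filter_upwards [h2, eventually_ge_atTop 1] with N h3 h4
    simp only [Function.comp] at h3
    have hN : (0 : ℝ) < N := by exact_mod_cast h4
    have hs : 0 < Real.sqrt N := Real.sqrt_pos.2 hN
    have hs2 : Real.sqrt N * Real.sqrt N = N := Real.mul_self_sqrt hN.le
    have h5 : C * Real.sqrt N = (C * (Real.sqrt N)⁻¹) * N := by
      nth_rewrite 3 [← hs2]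
      field_simp
    rw [h5]
    calc (C * (Real.sqrt N)⁻¹) * N ≤ ((1 / 10) * (1 / (P.totient : ℝ))) * N :=
          mul_le_mul_of_nonneg_right h3.le hN.le
      _ = _ := by ring
  obtain ⟨N2, hN2⟩ := eventually_atTop.1 e1
  refine ⟨max (500 * (N1 + 1)) (max N2 3), fun N hN y hy => ?_⟩
  have hNN1 : 500 * (N1 + 1) ≤ N := (le_max_left _ _).trans hN
  have hNN2 : N2 ≤ N := (le_max_left _ _).trans ((le_max_right _ _).trans hN)
  have hN3 : 3 ≤ N := (le_max_right _ _).trans ((le_max_right _ _).trans hN)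
  have hNpos : (0 : ℝ) < N := by exact_mod_cast (by omega : 0 < N)
  have hlog : 0 < Real.log N := Real.log_pos (by exact_mod_cast (by omega : 1 < N))
  set M := N / 500 with hM
  have hM1 : N1 ≤ M := by omega
  have hyM : y ≤ M := by omega
  have h1 := (hN1 N (by omega)).1
  have h2 : cls P y ≤ cls P M := by
    unfold cls
    apply sum_le_sum_of_subset_of_nonneg (Icc_subset_Icc_right hyM)
    intro k _ _
    exact vonMangoldt.residueClass_nonneg _ _
  have h3 := (hN1 M hM1).2
  have h4 : (M : ℝ) ≤ N / 500 := by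
    have : 500 * M ≤ N := Nat.mul_div_le N 500
    have : (500 : ℝ) * M ≤ N := by exact_mod_cast this
    linarith
  have h5 : (11 / 10 : ℝ) * (M / (P.totient : ℝ)) ≤ (11 / 5000) * (N / (P.totient : ℝ)) := by
    calc (11 / 10 : ℝ) * (M / (P.totient : ℝ)) ≤ (11 / 10 : ℝ) * ((N / 500) / (P.totient : ℝ)) := by gcongr
      _ = _ := by ring
  have h6 := cls_le_primes P N y
  have h7 := hN2 N hNN2
  have h8 := hC N
  have h9 : Chebyshev.psi N - Chebyshev.theta N ≤ (1 / 10) * (N / (P.totient : ℝ)) := h8.trans h7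
  have h10 : (1 / 2 : ℝ) * (N / (P.totient : ℝ)) ≤
      (#((Icc 1 N).filter (fun q => q.Prime ∧ y < q ∧ q ≡ 1 [MOD P])) : ℝ) * Real.log N := by
    have : 0 ≤ (N : ℝ) / (P.totient : ℝ) := by positivity
    linarith
  have h11 : 1 / (4 * (P.totient : ℝ)) * (N / Real.log N) * Real.log N ≤ (1 / 2 : ℝ) * (N / (P.totient : ℝ)) := by
    have : 1 / (4 * (P.totient : ℝ)) * (N / Real.log N) * Real.log N = (1 / 4) * (N / (P.totient : ℝ)) := by
      field_simp
    rw [this]
    have : 0 ≤ (N : ℝ) / (P.totient : ℝ) := by positivity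
    linarith
  exact le_of_mul_le_mul_right (h11.trans h10) hlog

end Pool.Agent.H312R2.PG
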