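import Mathlib

/-! Averaging over `K`-subsets. -/

open Finset

namespace Pool.Agent.H312R2.PG

/-- if every `K`-subset of `V` contains a member of `R` of size `m` then `R` is large -/
theorem turan_avg {α : Type*} [DecidableEq α] (V : Finset α) (K m : ℕ) (hm : m ≤ K) (hK : K ≤ #V)
    (R : Finset (Finset α)) (hR : R ⊆ powersetCard m V)
    (h : ∀ B ∈ powersetCard K V, ∃ A ∈ R, A ⊆ B) :
    (#V).choose m ≤ #R * K.choose m := by
  have h1 : (#V).choose K ≤ #R * (#V - m).choose (K - m) := by
    have h2 : powersetCard K V ⊆ R.biUnion (fun A => (powersetCard K V).filter (fun B => A ⊆ B)) := by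
      intro B hB
      obtain ⟨A, hA, hAB⟩ := h B hB
      exact mem_biUnion.2 ⟨A, hA, mem_filter.2 ⟨hB, hAB⟩⟩
    rw [← card_powersetCard]
    refine (card_le_card h2).trans (card_biUnion_le.trans ?_)
    rw [← smul_eq_mul, ← sum_const]
    apply sum_le_sum
    intro A hA
    have hA' := mem_powersetCard.1 (hR hA)
    have h3 : #((powersetCard K V).filter (fun B => A ⊆ B)) ≤ #(powersetCard (K - m) (V \ A)) := by
      apply card_le_card_of_injOn (fun B => B \ A)
      · intro B hB
        have hB' := mem_filter.1 (mem_coe.1 hB)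
        have hB'' := mem_powersetCard.1 hB'.1
        rw [mem_coe, mem_powersetCard]
        refine ⟨sdiff_subset_sdiff hB''.1 subset_rfl, ?_⟩
        rw [card_sdiff_of_subset hB'.2, hB''.2, hA'.2]
      · intro B hB B' hB' hBB
        have h4 := (mem_filter.1 (mem_coe.1 hB)).2
        have h5 := (mem_filter.1 (mem_coe.1 hB')).2
        simp only at hBB
        rw [← sdiff_union_of_subset h4, ← sdiff_union_of_subset h5, hBB]
    refine h3.trans (le_of_eq ?_)
    rw [card_powersetCard, card_sdiff_of_subset hA'.1, hA'.2]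
  have h2 : (#V).choose K * K.choose m = (#V).choose m * (#V - m).choose (K - m) :=
    Nat.choose_mul hm
  have h3 : 0 < (#V - m).choose (K - m) := Nat.choose_pos (by omega)
  have h4 : (#V).choose m * (#V - m).choose (K - m) ≤ (#R * K.choose m) * (#V - m).choose (K - m) := by
    rw [← h2]
    calc (#V).choose K * K.choose m ≤ (#R * (#V - m).choose (K - m)) * K.choose m :=
          Nat.mul_le_mul_right _ h1
      _ = _ := by ring
  exact Nat.le_of_mul_le_mul_right h4 h3

/-- lower bound for binomial coefficients -/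
theorem choose_lower (v m : ℕ) (h : 2 * m ≤ v) : (v : ℝ) ^ m ≤ 2 ^ m * m.factorial * (v.choose m : ℝ) := by
  have h1 : ((v + 1 - m : ℕ) ^ m : ℝ) ≤ m.factorial * (v.choose m : ℝ) := by
    have := Nat.pow_sub_le_descFactorial v m
    rw [Nat.descFactorial_eq_factorial_mul_choose] at this
    exact_mod_cast this
  have h2 : (v : ℝ) ≤ 2 * ((v + 1 - m : ℕ) : ℝ) := by
    have : v ≤ 2 * (v + 1 - m) := by omega
    exact_mod_cast this
  calc (v : ℝ) ^ m ≤ (2 * ((v + 1 - m : ℕ) : ℝ)) ^ m := by gcongr
    _ = 2 ^ m * ((v + 1 - m : ℕ) : ℝ) ^ m := by rw [mul_pow]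
    _ ≤ 2 ^ m * (m.factorial * (v.choose m : ℝ)) := by gcongr
    _ = _ := by ring

end Pool.Agent.H312R2.PG
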