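import Mathlib
import Pool.Agent.H312R2.PG.Comb
import Pool.Agent.H312R2.PG.ClassPrimes
import Pool.Agent.H312R2.Pop

/-! Counting patterns. -/

open Finset Filter Topology

namespace Pool.Agent.H312R2.PG

open Pool.Agent.H312R2

/-- the least element -/
noncomputable def low (A : Finset ℕ) : ℕ := sInf (A : Set ℕ)

lemma low_mem {A : Finset ℕ} (h : A.Nonempty) : low A ∈ A := by
  have := Nat.sInf_mem (s := (A : Set ℕ)) h
  exact_mod_cast this

lemma low_le {A : Finset ℕ} {a : ℕ} (h : a ∈ A) : low A ≤ a := Nat.sInf_le (by exact_mod_cast h)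

/-- the pattern of a set -/
noncomputable def patOf (A : Finset ℕ) : Finset ℕ := A.image (fun a => a - low A)

lemma patOf_card (A : Finset ℕ) : #(patOf A) = #A := by
  unfold patOf
  apply card_image_of_injOn
  intro a ha b hb hab
  simp only at hab
  have h1 := low_le (mem_coe.1 ha)
  have h2 := low_le (mem_coe.1 hb)
  omega

lemma zero_mem_patOf {A : Finset ℕ} (h : A.Nonempty) : 0 ∈ patOf A := by
  unfold patOf
  rw [mem_image]
  exact ⟨low A, low_mem h, by simp⟩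

lemma patOf_subset {A : Finset ℕ} {N : ℕ} (h : ∀ a ∈ A, a ≤ N) : patOf A ⊆ range (N + 1) := by
  intro x hx
  unfold patOf at hx
  obtain ⟨a, ha, rfl⟩ := mem_image.1 hx
  have := h a ha
  rw [mem_range]
  omega

lemma image_patOf (A : Finset ℕ) : (patOf A).image (fun h => low A + h) = A := by
  ext x
  constructor
  · intro hx
    obtain ⟨h, hh, rfl⟩ := mem_image.1 hx
    unfold patOf at hh
    obtain ⟨a, ha, rfl⟩ := mem_image.1 hh
    have := low_le ha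
    have e : low A + (a - low A) = a := by omega
    rw [e]; exact ha
  · intro hx
    rw [mem_image]
    refine ⟨x - low A, ?_, ?_⟩
    · unfold patOf
      exact mem_image.2 ⟨x, hx, rfl⟩
    · have := low_le hx
      omega

/-- the number of sets of primes with a given pattern -/
lemma fiber_le {N : ℕ} (R : Finset (Finset ℕ)) (hR : ∀ A ∈ R, A.Nonempty ∧ ∀ a ∈ A, a.Prime ∧ a ≤ N)
    (H : Finset ℕ) : #(R.filter (fun A => patOf A = H)) ≤ #{n ∈ Icc 1 N | ∀ h ∈ H, (n + h).Prime} := by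
  apply card_le_card_of_injOn low
  · intro A hA
    obtain ⟨hA1, hA2⟩ := mem_filter.1 (mem_coe.1 hA)
    obtain ⟨hne, hp⟩ := hR A hA1
    rw [mem_coe, mem_filter, mem_Icc]
    have h1 := hp _ (low_mem hne)
    refine ⟨⟨h1.1.one_le, h1.2⟩, ?_⟩
    intro h hh
    rw [← hA2] at hh
    have : low A + h ∈ A := by
      rw [← image_patOf A]
      have h2 := mem_image_of_mem (fun h => low A + h) hh
      rw [image_patOf] at h2
      rw [image_patOf]
      exact h2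
    exact (hp _ this).1
  · intro A hA B hB hAB
    have hA2 := (mem_filter.1 (mem_coe.1 hA)).2
    have hB2 := (mem_filter.1 (mem_coe.1 hB)).2
    rw [← image_patOf A, ← image_patOf B, hA2, hB2, hAB]

theorem many_patterns (m K : ℕ) (hm : 2 ≤ m) (hmK : m ≤ K) (P : ℕ) (hP : 0 < P) :
    ∃ c : ℝ, 0 < c ∧ ∃ N0 : ℕ, ∀ N : ℕ, N0 ≤ N → ∀ y : ℕ, 500 * y ≤ N → ∀ Good : Finset (Finset ℕ),
      (∀ B : Finset ℕ, B ⊆ (Icc 1 N).filter (fun q => q.Prime ∧ y < q ∧ q ≡ 1 [MOD P]) → #B = K →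
        ∃ A ⊆ B, #A = m ∧ patOf A ∈ Good) →
      c * (N : ℝ) ^ (m - 1) ≤ #Good := by
  classical
  obtain ⟨c1, hc1, N1, hN1⟩ := class_primes P hP
  obtain ⟨C2, hC2, A0, N2, hN2⟩ := cnt_upper m (by omega)
  obtain ⟨C3, hC3, hF⟩ := Fac_sum m hm (A0 * 2)
  -- constants
  set κ : ℝ := c1 ^ m / (2 ^ m * m.factorial * K.choose m) with hκ
  have hKm : (0 : ℝ) < K.choose m := by exact_mod_cast Nat.choose_pos hmK
  have hκpos : 0 < κ := by positivity
  refine ⟨κ ^ 2 / (C2 ^ 2 * C3 * 2 ^ (m - 1)), by positivity, ?_⟩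
  obtain ⟨N3, hN3⟩ := Pool.Agent.Helper112.log_pow_le 1 1 (1 / 2) (by norm_num)
  obtain ⟨N4, hN4⟩ := exists_nat_ge (((2 * (K : ℝ) + 2) / c1) ^ 2)
  refine ⟨max (max N1 N2) (max (max N3 N4) 3), fun N hN y hy Good hGood => ?_⟩
  have hNN1 : N1 ≤ N := (le_max_left _ _).trans ((le_max_left _ _).trans hN)
  have hNN2 : N2 ≤ N := (le_max_right _ _).trans ((le_max_left _ _).trans hN)
  have hNN3 : N3 ≤ N := (le_max_left _ _).trans ((le_max_left _ _).trans ((le_max_right _ _).trans hN))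
  have hNN4 : N4 ≤ N := (le_max_right _ _).trans ((le_max_left _ _).trans ((le_max_right _ _).trans hN))
  have hN3' : 3 ≤ N := (le_max_right _ _).trans ((le_max_right _ _).trans hN)
  have hNpos : (0 : ℝ) < N := by exact_mod_cast (by omega : 0 < N)
  have hN1r : (1 : ℝ) ≤ N := by exact_mod_cast (by omega : 1 ≤ N)
  have hlog : 0 < Real.log N := Real.log_pos (by exact_mod_cast (by omega : 1 < N))
  set V := (Icc 1 N).filter (fun q => q.Prime ∧ y < q ∧ q ≡ 1 [MOD P]) with hV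
  have hv1 : c1 * (N / Real.log N) ≤ #V := hN1 N hNN1 y hy
  have hsq : Real.sqrt N ≤ N / Real.log N := by
    have h1 := hN3 N hNN3
    rw [pow_one, one_mul, ← Real.sqrt_eq_rpow] at h1
    rw [le_div_iff₀ hlog]
    calc Real.sqrt N * Real.log N ≤ Real.sqrt N * Real.sqrt N :=
          mul_le_mul_of_nonneg_left h1 (Real.sqrt_nonneg _)
      _ = N := Real.mul_self_sqrt hNpos.le
  have hv2 : 2 * (K : ℝ) + 2 ≤ #V := by
    have h1 : (2 * (K : ℝ) + 2) / c1 ≤ Real.sqrt N := by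
      apply Real.le_sqrt_of_sq_le
      exact hN4.trans (by exact_mod_cast hNN4)
    rw [div_le_iff₀ hc1] at h1
    calc 2 * (K : ℝ) + 2 ≤ Real.sqrt N * c1 := h1
      _ ≤ (N / Real.log N) * c1 := by gcongr
      _ = c1 * (N / Real.log N) := mul_comm _ _
      _ ≤ _ := hv1
  have hv3 : 2 * K + 2 ≤ #V := by exact_mod_cast hv2
  set R := (powersetCard m V).filter (fun A => patOf A ∈ Good) with hR
  have hT := turan_avg V K m hmK (by omega) R (filter_subset _ _) (by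
    intro B hB
    obtain ⟨hB1, hB2⟩ := mem_powersetCard.1 hB
    obtain ⟨A, hA1, hA2, hA3⟩ := hGood B hB1 hB2
    exact ⟨A, mem_filter.2 ⟨mem_powersetCard.2 ⟨hA1.trans hB1, hA2⟩, hA3⟩, hA1⟩)
  have hlow : κ * (N / Real.log N) ^ m ≤ #R := by
    have h1 := choose_lower (#V) m (by omega)
    have h2 : ((#V).choose m : ℝ) ≤ #R * K.choose m := by exact_mod_cast hT
    have h3 : (c1 * (N / Real.log N)) ^ m ≤ 2 ^ m * m.factorial * (#R * K.choose m) := by
      calc (c1 * (N / Real.log N)) ^ m ≤ (#V : ℝ) ^ m := by gcongr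
        _ ≤ 2 ^ m * m.factorial * ((#V).choose m : ℝ) := h1
        _ ≤ _ := by gcongr
    rw [hκ, div_mul_eq_mul_div, div_le_iff₀ (by positivity), ← mul_pow]
    calc _ ≤ _ := h3
      _ = _ := by ring
  -- upper bound
  set G := Good.filter (fun H => H ∈ base m N) with hG
  have hRprop : ∀ A ∈ R, A.Nonempty ∧ ∀ a ∈ A, a.Prime ∧ a ≤ N := by
    intro A hA
    obtain ⟨h1, h2⟩ := mem_powersetCard.1 (mem_filter.1 hA).1
    refine ⟨card_pos.1 (by omega), fun a ha => ?_⟩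
    have := mem_filter.1 (h1 ha)
    rw [mem_Icc] at this
    exact ⟨this.2.1, this.1.2⟩
  have hmaps : ∀ A ∈ R, patOf A ∈ G := by
    intro A hA
    have hA' := mem_filter.1 hA
    obtain ⟨hne, hp⟩ := hRprop A hA
    refine mem_filter.2 ⟨hA'.2, ?_⟩
    rw [mem_base]
    refine ⟨⟨patOf_subset fun a ha => (hp a ha).2, ?_⟩, zero_mem_patOf hne⟩
    rw [patOf_card]
    exact (mem_powersetCard.1 hA'.1).2
  have hup : (#R : ℝ) ≤ C2 * N / (Real.log N) ^ m * ∑ H ∈ G, Fac m A0 H := by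
    have h1 : #R = ∑ H ∈ G, #(R.filter (fun A => patOf A = H)) := card_eq_sum_card_fiberwise hmaps
    rw [h1]
    push_cast
    rw [mul_sum]
    apply sum_le_sum
    intro H hH
    have hHb := (mem_base.1 (mem_filter.1 hH).2).1.2
    refine le_trans ?_ (hN2 N hNN2 H hHb)
    exact_mod_cast fiber_le R hRprop H
  have hcs : (∑ H ∈ G, Fac m A0 H) ^ 2 ≤ #Good * (C3 * 2 ^ (m - 1) * (N : ℝ) ^ (m - 1)) := by
    have h1 : (∑ H ∈ G, Fac m A0 H) ^ 2 ≤ #G * ∑ H ∈ G, Fac m A0 H ^ 2 := sq_sum_le_card_mul_sum_sq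
    have h2 : ∑ H ∈ G, Fac m A0 H ^ 2 ≤ ∑ H ∈ base m N, Fac m (A0 * 2) H := by
      calc ∑ H ∈ G, Fac m A0 H ^ 2 = ∑ H ∈ G, Fac m (A0 * 2) H := by
            apply sum_congr rfl; intro H _; exact Fac_pow m A0 2 H
        _ ≤ _ := by
            apply sum_le_sum_of_subset_of_nonneg
            · intro H hH; exact (mem_filter.1 hH).2
            · intro H _ _; exact Fac_nonneg _ _ _
    have h3 : (((N + 1) ^ (m - 1) : ℕ) : ℝ) ≤ 2 ^ (m - 1) * (N : ℝ) ^ (m - 1) := by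
      push_cast
      rw [← mul_pow]
      gcongr
      linarith
    have h4 : ∑ H ∈ base m N, Fac m (A0 * 2) H ≤ C3 * (2 ^ (m - 1) * (N : ℝ) ^ (m - 1)) :=
      (hF N).trans (mul_le_mul_of_nonneg_left h3 hC3.le)
    have h5 : (#G : ℝ) ≤ #Good := by exact_mod_cast card_le_card (filter_subset _ _)
    have h6 : 0 ≤ ∑ H ∈ G, Fac m A0 H ^ 2 := sum_nonneg fun _ _ => sq_nonneg _
    calc _ ≤ _ := h1
      _ ≤ #Good * ∑ H ∈ G, Fac m A0 H ^ 2 := by gcongr
      _ ≤ #Good * (C3 * (2 ^ (m - 1) * (N : ℝ) ^ (m - 1))) := by gcongr; exact h2.trans h4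
      _ = _ := by ring
  -- combination
  set ℓ := Real.log N with hℓ
  have h1 : (κ * (N / ℓ) ^ m) ^ 2 ≤ (C2 * N / ℓ ^ m) ^ 2 * (#Good * (C3 * 2 ^ (m - 1) * (N : ℝ) ^ (m - 1))) := by
    have hFnn : 0 ≤ ∑ H ∈ G, Fac m A0 H := sum_nonneg fun _ _ => Fac_nonneg _ _ _
    calc (κ * (N / ℓ) ^ m) ^ 2 ≤ (#R : ℝ) ^ 2 := by gcongr
      _ ≤ (C2 * N / ℓ ^ m * ∑ H ∈ G, Fac m A0 H) ^ 2 := by gcongr
      _ = (C2 * N / ℓ ^ m) ^ 2 * (∑ H ∈ G, Fac m A0 H) ^ 2 := by rw [mul_pow]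
      _ ≤ _ := by gcongr
  have h2 : κ ^ 2 * ((N : ℝ) ^ (m - 1) * (N : ℝ) ^ (m - 1)) ≤
      C2 ^ 2 * (#Good * (C3 * 2 ^ (m - 1) * (N : ℝ) ^ (m - 1))) := by
    have e1 : (κ * (N / ℓ) ^ m) ^ 2 = (N ^ 2 / (ℓ ^ m) ^ 2) * (κ ^ 2 * ((N : ℝ) ^ (m - 1) * (N : ℝ) ^ (m - 1))) := by
      have : (N : ℝ) ^ m = N * (N : ℝ) ^ (m - 1) := by
        rw [← pow_succ']
        congr 1; omega
      rw [div_pow, mul_pow, div_pow, this]
      ring
    have e2 : (C2 * N / ℓ ^ m) ^ 2 * (#Good * (C3 * 2 ^ (m - 1) * (N : ℝ) ^ (m - 1))) =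
        (N ^ 2 / (ℓ ^ m) ^ 2) * (C2 ^ 2 * (#Good * (C3 * 2 ^ (m - 1) * (N : ℝ) ^ (m - 1)))) := by
      rw [div_pow, mul_pow]; ring
    rw [e1, e2] at h1
    exact le_of_mul_le_mul_left h1 (by positivity)
  have hNp : 0 < (N : ℝ) ^ (m - 1) := by positivity
  rw [div_mul_eq_mul_div, div_le_iff₀ (by positivity)]
  have h3 : (κ ^ 2 * (N : ℝ) ^ (m - 1)) * (N : ℝ) ^ (m - 1) ≤
      (#Good * (C2 ^ 2 * C3 * 2 ^ (m - 1))) * (N : ℝ) ^ (m - 1) := by
    calc _ = κ ^ 2 * ((N : ℝ) ^ (m - 1) * (N : ℝ) ^ (m - 1)) := by ring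
      _ ≤ _ := h2
      _ = _ := by ring
  exact le_of_mul_le_mul_right h3 hNp

end Pool.Agent.H312R2.PG
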