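import Mathlib
import Pool.Agent.H312R2.PG.Iface
import Pool.Agent.H312R2.PG.Count

/-! T3 from MTER. -/

open Finset Filter Topology

namespace Pool.Agent.H312R2.PG

open Pool.Agent.H312R2
open Pool.Agent.H378R2 (yy)

/-- initial segments of finite sets -/
lemma exists_initial (m : ℕ) (Q : Finset ℕ) (h : m ≤ #Q) :
    ∃ A ⊆ Q, #A = m ∧ ∀ a ∈ A, ∀ q ∈ Q, q ≤ a → q ∈ A := by
  induction m with
  | zero => exact ⟨∅, empty_subset _, rfl, by simp⟩
  | succ m ih =>
    obtain ⟨A, hA, hc, hi⟩ := ih (by omega)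
    have hne : (Q \ A).Nonempty := by
      rw [← card_pos, card_sdiff_of_subset hA]; omega
    set b := (Q \ A).min' hne with hb
    have hbm : b ∈ Q \ A := min'_mem _ _
    rw [Finset.mem_sdiff] at hbm
    refine ⟨insert b A, ?_, ?_, ?_⟩
    · intro q hq
      rcases mem_insert.1 hq with h1 | h1
      · rw [h1]; exact hbm.1
      · exact hA h1
    · rw [card_insert_of_notMem hbm.2, hc]
    · intro a ha q hq hqa
      by_cases hqA : q ∈ A
      · exact mem_insert_of_mem hqA
      · rcases mem_insert.1 ha with h1 | h1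
        · have h2 : b ≤ q := min'_le _ _ (Finset.mem_sdiff.2 ⟨hq, hqA⟩)
          rw [mem_insert]; left; omega
        · exact mem_insert_of_mem (hi a h1 q hq hqa)

lemma admissible_patOf {m z1 : ℕ} (hmz : m ≤ z1) {A : Finset ℕ} (hc : #A = m)
    (h : ∀ a ∈ A, a ≡ 1 [MOD primorial z1]) : Admissible (patOf A) := by
  intro p hp
  rcases le_or_gt p z1 with hz | hz
  · -- all elements of the pattern are divisible by p
    refine ⟨1, hp.one_lt, fun x hx => ?_⟩
    unfold patOf at hx
    obtain ⟨a, ha, rfl⟩ := mem_image.1 hx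
    have hpd : p ∣ primorial z1 := Pool.Agent.H378R2.dvd_primorial' hp hz
    have h1 := (h a ha).of_dvd hpd
    have h2 := (h _ (low_mem ⟨a, ha⟩)).of_dvd hpd
    have h3 : p ∣ a - low A := (Nat.modEq_iff_dvd' (low_le ha)).1 (h2.trans h1.symm)
    rw [Nat.mod_eq_zero_of_dvd h3]
    exact zero_ne_one
  · by_contra hcon
    push Not at hcon
    have h1 : range p ⊆ (patOf A).image (fun x => x % p) := by
      intro r hr
      obtain ⟨x, hx, hxr⟩ := hcon r (mem_range.1 hr)
      exact mem_image.2 ⟨x, hx, hxr⟩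
    have h2 := (card_le_card h1).trans card_image_le
    rw [card_range, patOf_card, hc] at h2
    omega

open Classical in
/-- patterns realised often as consecutive primes -/
noncomputable def Freq (m : ℕ) (T : ℝ) (x : ℕ) : Finset (Finset ℕ) :=
  (base m ⌊T * Real.log x⌋₊).filter (fun H => Admissible H ∧
    (x : ℝ) ^ (4 / 5 : ℝ) ≤ #{n ∈ Icc 1 x | Realises H n})

theorem T3_of (h : MTER) (m : ℕ) (hm : 2 ≤ m) : ∃ c : ℝ, 0 < c ∧ ∀ T : ℝ, 1 ≤ T → ∃ x₀ : ℕ, ∀ x : ℕ, x₀ ≤ x →
    c * (T * Real.log x) ^ (m - 1) ≤ #(Freq m T x) := by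
  classical
  obtain ⟨K, z1, hmK, hKz, hT⟩ := h m
  obtain ⟨c0, hc0, N0, hN0⟩ := many_patterns m K hm hmK (primorial z1) (primorial_pos z1)
  refine ⟨c0 / 2 ^ (m - 1), by positivity, fun T hT1 => ?_⟩
  obtain ⟨X0, hX0⟩ := hT T hT1
  have hlogT : Tendsto (fun x : ℕ => Real.log ((x : ℝ) / 5)) atTop atTop :=
    Real.tendsto_log_atTop.comp (tendsto_natCast_atTop_atTop.atTop_div_const (by norm_num))
  have e1 : ∀ᶠ x : ℕ in atTop, X0 ≤ (x : ℝ) / 5 :=
    (tendsto_natCast_atTop_atTop.atTop_div_const (by norm_num : (0 : ℝ) < 5)).eventually_ge_atTop _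
  have e2 : ∀ᶠ x : ℕ in atTop, (N0 : ℝ) + 10 ≤ Real.log ((x : ℝ) / 5) := hlogT.eventually_ge_atTop _
  have e3 : ∀ᶠ x : ℕ in atTop, T * Real.log x ≤ (x : ℝ) / 5 := by
    have h1 : Tendsto (fun x : ℝ => Real.log x / x) atTop (𝓝 0) := by
      have := Real.isLittleO_log_id_atTop.tendsto_div_nhds_zero
      simpa using this
    have h2 := (h1.comp tendsto_natCast_atTop_atTop).eventually (gt_mem_nhds (show (0 : ℝ) < 1 / (5 * T) by positivity))
    filter_upwards [h2, eventually_gt_atTop 0] with x h3 h4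
    have hx : (0 : ℝ) < x := by exact_mod_cast h4
    simp only [Function.comp] at h3
    rw [div_lt_iff₀ hx] at h3
    have h5 : T * Real.log x ≤ T * (1 / (5 * T) * x) := mul_le_mul_of_nonneg_left h3.le (by linarith)
    have h6 : T * (1 / (5 * T) * x) = x / 5 := by field_simp
    linarith
  have e4 : ∀ᶠ x : ℕ in atTop, ((K.choose m : ℕ) : ℝ) * (x : ℝ) ^ (4 / 5 : ℝ) ≤ ((x : ℝ) / 5) ^ (9 / 10 : ℝ) := by
    have h1 : Tendsto (fun x : ℕ => (x : ℝ) ^ (1 / 10 : ℝ)) atTop atTop :=
      (tendsto_rpow_atTop (by norm_num)).comp tendsto_natCast_atTop_atTop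
    filter_upwards [h1.eventually_ge_atTop (((K.choose m : ℕ) : ℝ) * 5 ^ (9 / 10 : ℝ)), eventually_gt_atTop 0] with x h2 h3
    have hx : (0 : ℝ) < x := by exact_mod_cast h3
    rw [Real.div_rpow hx.le (by norm_num), le_div_iff₀ (by positivity)]
    calc ((K.choose m : ℕ) : ℝ) * (x : ℝ) ^ (4 / 5 : ℝ) * 5 ^ (9 / 10 : ℝ) =
        (((K.choose m : ℕ) : ℝ) * 5 ^ (9 / 10 : ℝ)) * (x : ℝ) ^ (4 / 5 : ℝ) := by ring
      _ ≤ (x : ℝ) ^ (1 / 10 : ℝ) * (x : ℝ) ^ (4 / 5 : ℝ) := by gcongr
      _ = (x : ℝ) ^ (9 / 10 : ℝ) := by rw [← Real.rpow_add hx]; norm_num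
  obtain ⟨x1, hx1⟩ := eventually_atTop.1 ((e1.and e2).and (e3.and e4))
  refine ⟨max x1 5, fun x hx => ?_⟩
  obtain ⟨⟨f1, f2⟩, f3, f4⟩ := hx1 x ((le_max_left _ _).trans hx)
  have hx5 : 5 ≤ x := (le_max_right _ _).trans hx
  have hxpos : (0 : ℝ) < x := by exact_mod_cast (by omega : 0 < x)
  set X : ℝ := (x : ℝ) / 5 with hX
  have hXpos : 0 < X := by positivity
  set ℓ := Real.log X with hℓ
  have hN0nn : (0 : ℝ) ≤ N0 := Nat.cast_nonneg _
  have hlogx : Real.log x = ℓ + Real.log 5 := by
    rw [hℓ, hX, Real.log_div hxpos.ne' (by norm_num)]; ring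
  have hlog5 : Real.log 5 ≤ 3 := by
    have h1 : Real.log 5 ≤ Real.log 8 := Real.log_le_log (by norm_num) (by norm_num)
    have h2 : Real.log 8 = 3 * Real.log 2 := by
      rw [show (8 : ℝ) = 2 ^ 3 by norm_num, Real.log_pow]; norm_num
    have := Real.log_two_lt_d9
    linarith
  have hlog5' : 0 ≤ Real.log 5 := Real.log_nonneg (by norm_num)
  set N := ⌊T * ℓ⌋₊ with hN
  have hTl : 0 ≤ T * ℓ := by
    apply mul_nonneg (by linarith); linarith
  have hN1 : (N : ℝ) ≤ T * ℓ := Nat.floor_le hTl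
  have hN2 : T * ℓ < N + 1 := Nat.lt_floor_add_one _
  have hTl2 : ℓ ≤ T * ℓ := by nlinarith
  have hNN0 : N0 ≤ N := by
    have : (N0 : ℝ) < N + 1 := by linarith
    have : N0 < N + 1 := by exact_mod_cast this
    omega
  have hy : 500 * yy X ≤ N := by
    have h1 : (yy X : ℝ) ≤ ℓ / 1000 := by
      unfold yy
      exact Nat.floor_le (by linarith)
    have h2 : (500 * yy X : ℝ) < N + 1 := by linarith
    have h3 : 500 * yy X < N + 1 := by exact_mod_cast h2
    omega
  have hNle : N ≤ ⌊T * Real.log x⌋₊ := by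
    apply Nat.floor_le_floor
    apply mul_le_mul_of_nonneg_left _ (by linarith)
    linarith
  have key := hN0 N hNN0 (yy X) hy (Freq m T x) (by
    intro B hB hBK
    set t : Fin K → ℕ := fun j => B.orderEmbOfFin hBK j with ht
    have htB : ∀ j, t j ∈ B := fun j => B.orderEmbOfFin_mem hBK j
    have htinj : Function.Injective t := (B.orderEmbOfFin hBK).injective
    have htsurj : ∀ b ∈ B, ∃ j, t j = b := by
      intro b hb
      have := B.image_orderEmbOfFin_univ hBK
      rw [← this] at hb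
      obtain ⟨j, _, hj⟩ := mem_image.1 hb
      exact ⟨j, hj⟩
    have hBp : ∀ b ∈ B, b.Prime ∧ yy X < b ∧ (b : ℝ) ≤ T * ℓ ∧ b ≡ 1 [MOD primorial z1] := by
      intro b hb
      have h1 := mem_filter.1 (hB hb)
      rw [mem_Icc] at h1
      refine ⟨h1.2.1, h1.2.2.1, ?_, h1.2.2.2⟩
      have : (b : ℝ) ≤ N := by exact_mod_cast h1.1.2
      linarith
    have htup : TupOK X T z1 t := ⟨htinj, fun j => hBp _ (htB j)⟩
    set G : Finset ℕ := (Icc 1 ⌊3 * X⌋₊).filter (fun n => m ≤ ((univ : Finset (Fin K)).filter (fun j => (n + t j).Prime)).card ∧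
      ∀ s : ℕ, (s : ℝ) ≤ T * ℓ → (n + s).Prime → ∃ j, s = t j) with hG
    have hGc : X ^ (9 / 10 : ℝ) < #G := by
      by_contra hcon
      push Not at hcon
      obtain ⟨n, hn1, hn2, hn3, hn4, hn5⟩ := hX0 X f1 t htup G hcon
      apply hn3
      rw [hG, mem_filter, mem_Icc]
      refine ⟨⟨?_, Nat.le_floor hn2⟩, hn4, hn5⟩
      have : (0 : ℝ) < n := hXpos.trans hn1
      have : 0 < n := by exact_mod_cast this
      omega
    -- initial segments
    have hQ : ∀ n ∈ G, ∃ A ∈ powersetCard m B, (∀ a ∈ A, (n + a).Prime) ∧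
        ∀ a ∈ A, ∀ q ∈ B, (n + q).Prime → q ≤ a → q ∈ A := by
      intro n hn
      have hn' := (mem_filter.1 hn).2
      have h1 : m ≤ #(B.filter (fun q => (n + q).Prime)) := by
        refine hn'.1.trans ?_
        apply card_le_card_of_injOn t
        · intro j hj
          rw [mem_coe, mem_filter] at hj ⊢
          exact ⟨htB j, hj.2⟩
        · exact htinj.injOn
      obtain ⟨A, hA1, hA2, hA3⟩ := exists_initial m _ h1
      refine ⟨A, mem_powersetCard.2 ⟨hA1.trans (filter_subset _ _), hA2⟩, ?_, ?_⟩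
      · intro a ha; exact (mem_filter.1 (hA1 ha)).2
      · intro a ha q hq hqp hqa
        exact hA3 a ha q (mem_filter.2 ⟨hq, hqp⟩) hqa
    choose! AA hAA1 hAA2 hAA3 using hQ
    have hpig : ∃ A ∈ powersetCard m B, #G ≤ K.choose m * #(G.filter (fun n => AA n = A)) := by
      by_contra hcon
      push Not at hcon
      have h1 : #G = ∑ A ∈ powersetCard m B, #(G.filter (fun n => AA n = A)) :=
        card_eq_sum_card_fiberwise (fun n hn => hAA1 n hn)
      have hne : (powersetCard m B).Nonempty := by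
        rw [← card_pos, card_powersetCard, hBK]
        exact Nat.choose_pos hmK
      have h2 : ∑ A ∈ powersetCard m B, K.choose m * #(G.filter (fun n => AA n = A)) <
          ∑ A ∈ powersetCard m B, #G := sum_lt_sum_of_nonempty hne hcon
      rw [← mul_sum, ← h1, sum_const, smul_eq_mul, card_powersetCard, hBK] at h2
      exact lt_irrefl _ h2
    obtain ⟨A, hA, hAc⟩ := hpig
    obtain ⟨hAB, hAm⟩ := mem_powersetCard.1 hA
    have hAne : A.Nonempty := card_pos.1 (by omega)
    refine ⟨A, hAB, hAm, ?_⟩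
    unfold Freq
    rw [mem_filter, mem_base]
    refine ⟨⟨⟨?_, ?_⟩, zero_mem_patOf hAne⟩, ?_, ?_⟩
    · apply patOf_subset
      intro a ha
      have h1 := (hBp a (hAB ha)).2.2.1
      have h2 : a ≤ N := Nat.le_floor h1
      exact h2.trans hNle
    · rw [patOf_card, hAm]
    · exact admissible_patOf (hmK.trans hKz) hAm fun a ha => (hBp a (hAB ha)).2.2.2
    · have h1 : #(G.filter (fun n => AA n = A)) ≤ #{n ∈ Icc 1 x | Realises (patOf A) n} := by
        apply card_le_card_of_injOn (fun n => n + low A)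
        · intro n hn
          obtain ⟨hn1, hn2⟩ := mem_filter.1 (mem_coe.1 hn)
          have hnG := mem_filter.1 hn1
          rw [mem_Icc] at hnG
          have hlow := hBp _ (hAB (low_mem hAne))
          rw [mem_coe, mem_filter, mem_Icc]
          refine ⟨⟨(hnG.1.1).trans (Nat.le_add_right _ _), ?_⟩, ?_, ?_⟩
          · have h2 : (n : ℝ) ≤ 3 * X :=
              le_trans (by exact_mod_cast hnG.1.2) (Nat.floor_le (by positivity))
            have h3 : ((n + low A : ℕ) : ℝ) ≤ x := by
              push_cast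
              have h4 : T * ℓ ≤ T * Real.log x := by
                apply mul_le_mul_of_nonneg_left _ (by linarith)
                linarith
              have h5 : X = (x : ℝ) / 5 := hX
              linarith [hlow.2.2.1]
            exact_mod_cast h3
          · intro y hy
            unfold patOf at hy
            obtain ⟨a, ha, rfl⟩ := mem_image.1 hy
            have h2 := low_le ha
            have h3 : n + low A + (a - low A) = n + a := by omega
            rw [h3]
            rw [← hn2] at ha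
            exact hAA2 n hn1 a ha
          · intro y hy hex
            obtain ⟨w, hw, hyw⟩ := hex
            unfold patOf at hw
            obtain ⟨a, ha, rfl⟩ := mem_image.1 hw
            have h2 := low_le ha
            have h3 : low A + y ≤ a := by omega
            have h4 : ((low A + y : ℕ) : ℝ) ≤ T * ℓ := by
              have h5 := (hBp a (hAB ha)).2.2.1
              have h6 : ((low A + y : ℕ) : ℝ) ≤ a := by exact_mod_cast h3
              linarith
            have h5 : (n + (low A + y)).Prime := by rw [← add_assoc]; exact hy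
            obtain ⟨j, hj⟩ := hnG.2.2 _ h4 h5
            have h6 : low A + y ∈ B := by rw [hj]; exact htB j
            have h7 : low A + y ∈ A := by
              have := hAA3 n hn1 a (by rw [hn2]; exact ha) _ h6 h5 h3
              rwa [hn2] at this
            unfold patOf
            rw [mem_image]
            exact ⟨low A + y, h7, by omega⟩
        · intro a _ b _ hab
          simp only at hab
          omega
      have h2 : (#G : ℝ) ≤ (K.choose m : ℕ) * #{n ∈ Icc 1 x | Realises (patOf A) n} := by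
        exact_mod_cast hAc.trans (Nat.mul_le_mul_left _ h1)
      have hKm : (0 : ℝ) < (K.choose m : ℕ) := by exact_mod_cast Nat.choose_pos hmK
      have h3 : ((K.choose m : ℕ) : ℝ) * (x : ℝ) ^ (4 / 5 : ℝ) ≤
          (K.choose m : ℕ) * #{n ∈ Icc 1 x | Realises (patOf A) n} := by linarith
      exact le_of_mul_le_mul_left h3 hKm)
  refine le_trans ?_ key
  rw [div_mul_eq_mul_div, div_le_iff₀ (by positivity)]
  have hNhalf : T * Real.log x ≤ 2 * N := by
    have h1 : T * Real.log x ≤ T * ℓ + T * 3 := by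
      rw [hlogx]; nlinarith
    have h2 : T * 3 + 2 ≤ T * ℓ := by nlinarith
    linarith
  have hnn : 0 ≤ T * Real.log x := by
    apply mul_nonneg (by linarith); linarith
  calc c0 * (T * Real.log x) ^ (m - 1) ≤ c0 * (2 * N) ^ (m - 1) := by gcongr
    _ = c0 * (N : ℝ) ^ (m - 1) * 2 ^ (m - 1) := by rw [mul_pow]; ring

end Pool.Agent.H312R2.PG
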