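import Mathlib
import Pool.Agent.H312R2.PG.Iface

/-! First moment of the number of primes in windows over a class. -/

open Finset Filter Topology

namespace Pool.Agent.H312R2.PG

open Pool.Agent.H378R2

/-- `θ(n+h) - θ(n)` -/
noncomputable def TT (h n : ℕ) : ℝ := ∑ s ∈ Icc 1 h, th (n + s)

lemma TT_nonneg (h n : ℕ) : 0 ≤ TT h n := sum_nonneg fun _ _ => th_nonneg _

/-- number of coprime positions -/
noncomputable def Na (Q a h : ℕ) : ℕ := #{s ∈ Icc 1 h | (a + s).Coprime Q}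

lemma As_zero {X : ℝ} {Q a s : ℕ} (hQ : 0 < Q) (hQX : (Q : ℝ) ≤ X) (hs : ¬ (a + s).Coprime Q) :
    ∑ n ∈ Icc 1 ⌊3 * X⌋₊, nu X Q a n * th (n + s) = 0 := by
  apply sum_eq_zero
  intro n _
  unfold nu
  split_ifs with h1
  · obtain ⟨p, hp, hp1, hp2⟩ := Nat.Prime.not_coprime_iff_dvd.1 hs
    have h2 : p ∣ n + s := by
      have h3 : n + s ≡ a + s [MOD p] := (h1.of_dvd hp2).add_right s
      exact Nat.modEq_zero_iff_dvd.1 (h3.trans (Nat.modEq_zero_iff_dvd.2 hp1))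
    by_cases hpr : (n + s).Prime
    · have h3 : p = n + s := (Nat.prime_dvd_prime_iff_eq hp hpr).1 h2
      have h4 : p ≤ Q := Nat.le_of_dvd hQ hp2
      have hX0 : 0 < X := lt_of_lt_of_le (by exact_mod_cast hQ) hQX
      have h5 : (n : ℝ) ≤ X := by
        have : (n : ℝ) ≤ Q := by exact_mod_cast (by omega : n ≤ Q)
        linarith
      rw [Phi_eq_zero_of_le (by positivity) ((div_le_one hX0).2 h5), zero_mul]
    · unfold th
      rw [if_neg hpr, mul_zero]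
  · rw [zero_mul]

lemma As_main {X : ℝ} (hX : 4 ≤ X) {Q a s : ℕ} (hs : (s : ℝ) ≤ X / 2) :
    |∑ n ∈ Icc 1 ⌊3 * X⌋₊, nu X Q a n * th (n + s) - LPhi X * (1 / (Nat.totient Q : ℝ))| ≤
      |EPhi X Q (a + s)| + ((4 * s) * Real.log (4 * X) + 4 * Real.sqrt X * Real.log (4 * X)) := by
  have h1 := shift_bound X hX Q a s hs (fun _ => 1) 1 (fun _ => by simp)
  simp only [mul_one, one_mul] at h1
  have h2 := EPhi_eq X Q (a + s)
  rw [sum_filter] at h2
  set A := ∑ n ∈ Icc 1 ⌊3 * X⌋₊, nu X Q a n * th (n + s)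
  set B := ∑ n ∈ Icc 1 ⌊3 * X⌋₊, (if n ≡ a + s [MOD Q] then Phi (n / X) * ArithmeticFunction.vonMangoldt n else 0)
  have h3 : A - LPhi X * (1 / (Nat.totient Q : ℝ)) = (A - B) + EPhi X Q (a + s) := by
    rw [h2]; ring
  rw [h3]
  exact (abs_add_le _ _).trans (by linarith)

theorem first_moment (hLM : LMratio) (hPNT : PNTdiv) (Z : ℕ) (ε : ℝ) (hε : 0 < ε) :
    ∃ X0 : ℝ, ∀ X : ℝ, X0 ≤ X → ∃ (ps : ℕ) (S : Finset ℕ), GoodP Z ps ∧ GoodS X S ∧
      ∀ Q : ℕ, Q ∣ WW X S ps → ∀ a h : ℕ, (h : ℝ) ≤ Real.sqrt X →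
        |∑ n ∈ Icc 1 ⌊3 * X⌋₊, nu X Q a n * TT h n - Na Q a h * (MPhi X * (1 / (Nat.totient Q : ℝ)))| ≤
          ε * (Na Q a h * (MPhi X * (1 / (Nat.totient Q : ℝ))) + h * (MPhi X * (1 / Q))) ∧
        |∑ n ∈ Icc 1 ⌊3 * X⌋₊, nu X Q a n - MPhi X * (1 / Q)| ≤ ε * (MPhi X * (1 / Q)) := by
  classical
  obtain ⟨X1, h1⟩ := hPNT 1 Z
  have h2 := hLM (ε / 40) (by positivity)
  have h3 : ∀ᶠ X : ℝ in atTop, 40 / ε ≤ Real.log X := Real.tendsto_log_atTop.eventually_ge_atTop _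
  have h4 : ∀ᶠ X : ℝ in atTop, 8 * Real.log (4 * X) ≤ (ε / 20) * X ^ (1 / 4 : ℝ) := by
    have e1 : Tendsto (fun y : ℝ => Real.log y / y ^ (1 / 4 : ℝ)) atTop (𝓝 0) :=
      (isLittleO_log_rpow_atTop (by norm_num : (0 : ℝ) < 1 / 4)).tendsto_div_nhds_zero
    have e2 : Tendsto (fun X : ℝ => 4 * X) atTop atTop := tendsto_id.const_mul_atTop (by norm_num)
    have e3 := (e1.comp e2).eventually (gt_mem_nhds (show (0 : ℝ) < ε / 640 by positivity))
    filter_upwards [e3, eventually_gt_atTop 1] with X h5 h6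
    simp only [Function.comp] at h5
    rw [div_lt_iff₀ (by positivity)] at h5
    have h7 : (4 * X) ^ (1 / 4 : ℝ) ≤ 4 * X ^ (1 / 4 : ℝ) := by
      rw [Real.mul_rpow (by norm_num) (by linarith)]
      apply mul_le_mul_of_nonneg_right _ (by positivity)
      calc (4 : ℝ) ^ (1 / 4 : ℝ) ≤ 4 ^ (1 : ℝ) := Real.rpow_le_rpow_of_exponent_le (by norm_num) (by norm_num)
        _ = 4 := Real.rpow_one _
    have h8 : ε / 640 * (4 * X) ^ (1 / 4 : ℝ) ≤ ε / 640 * (4 * X ^ (1 / 4 : ℝ)) := by gcongr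
    linarith
  have h5 : ∀ᶠ X : ℝ in atTop, 100 / ε ≤ X ^ (1 / 2 : ℝ) :=
    (tendsto_rpow_atTop (by norm_num)).eventually_ge_atTop _
  obtain ⟨X2, h6⟩ := eventually_atTop.1 ((h2.and h3).and (h4.and h5))
  refine ⟨max X1 (max X2 40), fun X hX => ?_⟩
  have hXa : X1 ≤ X := (le_max_left _ _).trans hX
  have hXb : X2 ≤ X := (le_max_left _ _).trans ((le_max_right _ _).trans hX)
  have hXc : 40 ≤ X := (le_max_right _ _).trans ((le_max_right _ _).trans hX)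
  obtain ⟨⟨g1, g2⟩, g3, g4⟩ := h6 X hXb
  obtain ⟨ps, S, hps, hS, hE⟩ := h1 X hXa
  refine ⟨ps, S, hps, hS, fun Q hQ a h hh => ?_⟩
  have hXp : 0 < X := by linarith
  have hQ0 : 0 < Q := Nat.pos_of_dvd_of_pos hQ (WW_pos X S ps)
  have hQ0' : (0 : ℝ) < Q := by exact_mod_cast hQ0
  have hphi : 0 < Q.totient := Nat.totient_pos.2 hQ0
  have hphi' : (0 : ℝ) < Q.totient := by exact_mod_cast hphi
  have hQle : (Q : ℝ) ≤ X ^ (1 / 4 : ℝ) := by
    have e1 : (Q : ℝ) ≤ WW X S ps := by exact_mod_cast Nat.le_of_dvd (WW_pos X S ps) hQ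
    refine e1.trans ((WW_le X (by linarith) S ps).trans ?_)
    rw [Real.rpow_def_of_pos hXp]
    apply Real.exp_le_exp.2
    have : 0 ≤ Real.log X := Real.log_nonneg (by linarith)
    linarith
  have hX1 : (1 : ℝ) ≤ X := by linarith
  have hQX : (Q : ℝ) ≤ X := hQle.trans (by
    calc X ^ (1 / 4 : ℝ) ≤ X ^ (1 : ℝ) := Real.rpow_le_rpow_of_exponent_le hX1 (by norm_num)
      _ = X := Real.rpow_one _)
  have hM := MPhi_ge X hXc
  have hMp : 0 < MPhi X := by linarith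
  have hq1 : X ^ (1 / 4 : ℝ) * Q ≤ X ^ (1 / 2 : ℝ) := by
    calc X ^ (1 / 4 : ℝ) * Q ≤ X ^ (1 / 4 : ℝ) * X ^ (1 / 4 : ℝ) := by gcongr
      _ = X ^ (1 / 2 : ℝ) := by rw [← Real.rpow_add hXp]; norm_num
  have hsq : Real.sqrt X = X ^ (1 / 2 : ℝ) := Real.sqrt_eq_rpow X
  have hss : X ^ (1 / 2 : ℝ) * X ^ (1 / 2 : ℝ) = X := by rw [← Real.rpow_add hXp]; norm_num
  have hs0 : 0 < X ^ (1 / 2 : ℝ) := by positivity
  have hl4 : 0 ≤ Real.log (4 * X) := Real.log_nonneg (by linarith)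
  constructor
  · -- the first moment
    have hsw : ∑ n ∈ Icc 1 ⌊3 * X⌋₊, nu X Q a n * TT h n =
        ∑ s ∈ Icc 1 h, ∑ n ∈ Icc 1 ⌊3 * X⌋₊, nu X Q a n * th (n + s) := by
      unfold TT
      simp only [mul_sum]
      rw [sum_comm]
    have hsplit : ∑ s ∈ Icc 1 h, ∑ n ∈ Icc 1 ⌊3 * X⌋₊, nu X Q a n * th (n + s) =
        ∑ s ∈ (Icc 1 h).filter (fun s => (a + s).Coprime Q), ∑ n ∈ Icc 1 ⌊3 * X⌋₊, nu X Q a n * th (n + s) := by
      rw [sum_filter]
      apply sum_congr rfl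
      intro s _
      split_ifs with hc
      · rfl
      · exact As_zero hQ0 hQX hc
    have hconst : (Na Q a h : ℝ) * (MPhi X * (1 / (Nat.totient Q : ℝ))) =
        ∑ s ∈ (Icc 1 h).filter (fun s => (a + s).Coprime Q), MPhi X * (1 / (Nat.totient Q : ℝ)) := by
      rw [sum_const, nsmul_eq_mul]; rfl
    have hbound : ∀ s ∈ (Icc 1 h).filter (fun s => (a + s).Coprime Q),
        |∑ n ∈ Icc 1 ⌊3 * X⌋₊, nu X Q a n * th (n + s) - MPhi X * (1 / (Nat.totient Q : ℝ))| ≤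
          ε * (MPhi X * (1 / (Nat.totient Q : ℝ))) + ε * (MPhi X * (1 / Q)) := by
      intro s hs
      rw [mem_filter, mem_Icc] at hs
      have hsh : (s : ℝ) ≤ Real.sqrt X := le_trans (by exact_mod_cast hs.1.2) hh
      have hX2 : X ^ (1 / 2 : ℝ) ≤ X / 2 := by
        have : 2 ≤ X ^ (1 / 2 : ℝ) := by
          rw [← hsq]; exact Real.le_sqrt_of_sq_le (by linarith)
        have h7 : 2 * X ^ (1 / 2 : ℝ) ≤ X ^ (1 / 2 : ℝ) * X ^ (1 / 2 : ℝ) :=
          mul_le_mul_of_nonneg_right this hs0.le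
        linarith
      have e1 := As_main (X := X) (by linarith) (Q := Q) (a := a) (s := s) (by rw [hsq] at hsh; linarith)
      have e2 := hE Q hQ (a + s) hs.2
      rw [pow_one] at e2
      have e3 : X / ((Nat.totient Q : ℝ) * Real.log X) ≤ (ε / 40) * (X * (1 / (Nat.totient Q : ℝ))) := by
        have hlX : 0 < Real.log X := lt_of_lt_of_le (by positivity) g2
        have h7 : 1 / Real.log X ≤ ε / 40 := by
          rw [div_le_iff₀ hlX]
          have : 40 / ε * (ε / 40) = 1 := by field_simp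
          nlinarith
        calc X / ((Nat.totient Q : ℝ) * Real.log X) = (1 / Real.log X) * (X * (1 / (Nat.totient Q : ℝ))) := by
              field_simp
          _ ≤ (ε / 40) * (X * (1 / (Nat.totient Q : ℝ))) := by gcongr
      have e4 : |LPhi X * (1 / (Nat.totient Q : ℝ)) - MPhi X * (1 / (Nat.totient Q : ℝ))| ≤
          (ε / 40) * (X * (1 / (Nat.totient Q : ℝ))) := by
        rw [← sub_mul, abs_mul, abs_of_pos (show (0 : ℝ) < 1 / (Nat.totient Q : ℝ) by positivity), ← mul_assoc]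
        exact mul_le_mul_of_nonneg_right g1 (by positivity)
      have e5 : (4 * s) * Real.log (4 * X) + 4 * Real.sqrt X * Real.log (4 * X) ≤ ε * (MPhi X * (1 / Q)) := by
        have h7 : (4 * s) * Real.log (4 * X) + 4 * Real.sqrt X * Real.log (4 * X) ≤
            X ^ (1 / 2 : ℝ) * (8 * Real.log (4 * X)) := by
          rw [hsq] at hsh ⊢
          nlinarith
        have h8 : X ^ (1 / 2 : ℝ) * (8 * Real.log (4 * X)) ≤ X ^ (1 / 2 : ℝ) * ((ε / 20) * X ^ (1 / 4 : ℝ)) := by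
          gcongr
        have h9 : X ^ (1 / 4 : ℝ) ≤ X ^ (1 / 2 : ℝ) * (1 / Q) := by
          rw [mul_one_div, le_div_iff₀ hQ0']; exact hq1
        calc _ ≤ X ^ (1 / 2 : ℝ) * ((ε / 20) * X ^ (1 / 4 : ℝ)) := h7.trans h8
          _ ≤ X ^ (1 / 2 : ℝ) * ((ε / 20) * (X ^ (1 / 2 : ℝ) * (1 / Q))) := by gcongr
          _ = ε * ((X ^ (1 / 2 : ℝ) * X ^ (1 / 2 : ℝ)) / 20 * (1 / Q)) := by ring
          _ = ε * (X / 20 * (1 / Q)) := by rw [hss]
          _ ≤ ε * (MPhi X * (1 / Q)) := by gcongr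
      have e6 : (ε / 40) * (X * (1 / (Nat.totient Q : ℝ))) ≤ (ε / 2) * (MPhi X * (1 / (Nat.totient Q : ℝ))) := by
        have h7 : X ≤ 20 * MPhi X := by linarith
        calc (ε / 40) * (X * (1 / (Nat.totient Q : ℝ))) ≤ (ε / 40) * ((20 * MPhi X) * (1 / (Nat.totient Q : ℝ))) := by
              gcongr
          _ = _ := by ring
      have e7 : |∑ n ∈ Icc 1 ⌊3 * X⌋₊, nu X Q a n * th (n + s) - MPhi X * (1 / (Nat.totient Q : ℝ))| ≤
          |∑ n ∈ Icc 1 ⌊3 * X⌋₊, nu X Q a n * th (n + s) - LPhi X * (1 / (Nat.totient Q : ℝ))| +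
          |LPhi X * (1 / (Nat.totient Q : ℝ)) - MPhi X * (1 / (Nat.totient Q : ℝ))| := abs_sub_le _ _ _
      linarith
    rw [hsw, hsplit, hconst, ← sum_sub_distrib]
    refine (abs_sum_le_sum_abs _ _).trans ((sum_le_sum hbound).trans ?_)
    rw [sum_const, nsmul_eq_mul]
    have hNa : ((#((Icc 1 h).filter (fun s => (a + s).Coprime Q)) : ℕ) : ℝ) ≤ h := by
      have := card_filter_le (Icc 1 h) (fun s => (a + s).Coprime Q)
      rw [Nat.card_Icc, Nat.add_sub_cancel] at this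
      exact_mod_cast this
    rw [← hconst, mul_add]
    have h7 : (#((Icc 1 h).filter (fun s => (a + s).Coprime Q)) : ℝ) * (ε * (MPhi X * (1 / (Nat.totient Q : ℝ)))) =
        ε * (Na Q a h * (MPhi X * (1 / (Nat.totient Q : ℝ)))) := by
      unfold Na; ring
    have h8 : (#((Icc 1 h).filter (fun s => (a + s).Coprime Q)) : ℝ) * (ε * (MPhi X * (1 / Q))) ≤
        ε * (h * (MPhi X * (1 / Q))) := by
      calc _ ≤ (h : ℝ) * (ε * (MPhi X * (1 / Q))) := by gcongr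
        _ = _ := by ring
    rw [h7, mul_add]
    linarith
  · have e1 := phi_sum_class X (by linarith) Q a hQ0 hQX
    rw [sum_filter] at e1
    have e2 : ∑ n ∈ Icc 1 ⌊3 * X⌋₊, nu X Q a n = ∑ n ∈ Icc 1 ⌊3 * X⌋₊, (if n ≡ a [MOD Q] then Phi (n / X) else 0) := rfl
    rw [e2]
    refine e1.trans ?_
    have h9 : X ^ (1 / 4 : ℝ) ≤ X ^ (1 / 2 : ℝ) * (1 / Q) := by
      rw [mul_one_div, le_div_iff₀ hQ0']; exact hq1
    have h10 : X ^ (1 / 2 : ℝ) ≤ X * (1 / Q) := by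
      have h11 : X ^ (1 / 4 : ℝ) * X ^ (1 / 4 : ℝ) = X ^ (1 / 2 : ℝ) := by
        rw [← Real.rpow_add hXp]; norm_num
      rw [mul_one_div, le_div_iff₀ hQ0']
      calc X ^ (1 / 2 : ℝ) * Q ≤ X ^ (1 / 2 : ℝ) * X ^ (1 / 2 : ℝ) := by
            apply mul_le_mul_of_nonneg_left _ hs0.le
            exact hQle.trans (Real.rpow_le_rpow_of_exponent_le hX1 (by norm_num))
        _ = X := hss
    have h12 : 5 ≤ (ε / 20) * X ^ (1 / 2 : ℝ) := by
      have : (ε / 20) * (100 / ε) = 5 := by field_simp; norm_num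
      calc (5 : ℝ) = (ε / 20) * (100 / ε) := this.symm
        _ ≤ _ := by gcongr
    calc (5 : ℝ) ≤ (ε / 20) * X ^ (1 / 2 : ℝ) := h12
      _ ≤ (ε / 20) * (X * (1 / Q)) := by gcongr
      _ = ε * (X / 20 * (1 / Q)) := by ring
      _ ≤ ε * (MPhi X * (1 / Q)) := by gcongr

end Pool.Agent.H312R2.PG
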