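import Mathlib
import Pool.Agent.H312R2.PG.Iface
import Pool.Agent.H318R2.Cr.AP
import Pool.Agent.H318R2.Cr.FL3

/-! Brun-Titchmarsh for primorial moduli; averaging over classes. -/

open Finset Filter Topology

namespace Pool.Agent.H312R2.PG

open Pool.Agent.H318R2.Cr Pool.Agent.Helper923.PPS

lemma log_floor_ge {t : ℝ} (ht : 2 ≤ t) : Real.log t / 2 ≤ Real.log ⌊t⌋₊ := by
  have h1 : t < (⌊t⌋₊ : ℝ) + 1 := Nat.lt_floor_add_one _
  have h2 : (2 : ℝ) ≤ ⌊t⌋₊ := by exact_mod_cast (Nat.le_floor (by exact_mod_cast ht) : 2 ≤ ⌊t⌋₊)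
  have h3 : t ≤ (⌊t⌋₊ : ℝ) ^ 2 := by nlinarith
  have h4 : Real.log t ≤ Real.log ((⌊t⌋₊ : ℝ) ^ 2) := Real.log_le_log (by linarith) h3
  rw [Real.log_pow] at h4
  push_cast at h4
  linarith

lemma dvd_primorial_iff {p w : ℕ} (hp : p.Prime) : p ∣ primorial w ↔ p ≤ w := by
  constructor
  · intro h
    unfold primorial at h
    rw [Prime.dvd_finsetProd_iff hp.prime] at h
    obtain ⟨r, hr, hpr⟩ := h
    rw [mem_filter, mem_range] at hr
    have : p = r := (Nat.prime_dvd_prime_iff_eq hp hr.2).mp hpr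
    omega
  · exact dvd_primorial hp

/-- Brun-Titchmarsh for the modulus `primorial w` -/
theorem bt_prim : ∃ C : ℝ, 1 ≤ C ∧ ∃ U : ℝ, 1 ≤ U ∧ ∀ w N a : ℕ, 2 ≤ w → 2 ≤ N →
    U * Real.log w ≤ Real.log N →
    (#{k ∈ range N | (a + k * primorial w).Prime} : ℝ) ≤ C * N * (Real.log w / Real.log N) := by
  classical
  obtain ⟨C, U, hC, hU, h⟩ := FL_upper
  obtain ⟨c₁, c₂, hc1, hc12, hcz⟩ := cz_bounds
  have hc2 : 0 < c₂ := hc1.trans_le hc12
  set U' : ℝ := max U 2 with hU'
  have hU2 : 2 ≤ U' := le_max_right _ _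
  have hUU : U ≤ U' := le_max_left _ _
  have hl2 : 0.69 < Real.log 2 := by have := Real.log_two_gt_d9; linarith
  refine ⟨(1 + C) * (c₂ / c₁) * (2 * U') + 6, ?_, U', by linarith, fun w N a hw hN hwN => ?_⟩
  · have : 0 ≤ (1 + C) * (c₂ / c₁) * (2 * U') := by positivity
    linarith
  have hN' : (2 : ℝ) ≤ N := by exact_mod_cast hN
  have hw' : (2 : ℝ) ≤ w := by exact_mod_cast hw
  have hlw : 0.69 < Real.log w := hl2.trans_le (Real.log_le_log (by norm_num) hw')
  have hlN : 0 < Real.log N := by nlinarith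
  set t : ℝ := (N : ℝ) ^ (1 / U') with ht
  have hlt : Real.log t = Real.log N / U' := by
    rw [ht, Real.log_rpow (by linarith)]; ring
  have htpos : 0 < t := by positivity
  have hwt : (w : ℝ) ≤ t := by
    rw [← Real.log_le_log_iff (by linarith) htpos, hlt, le_div_iff₀ (by linarith)]
    linarith
  have ht2 : 2 ≤ t := hw'.trans hwt
  set z := ⌊t⌋₊ with hz
  have hwz : w ≤ z := Nat.le_floor hwt
  have hz2 : 2 ≤ z := hw.trans hwz
  have hzt : (z : ℝ) ≤ t := Nat.floor_le htpos.le
  have hz2' : (2 : ℝ) ≤ z := by exact_mod_cast hz2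
  have hlz : Real.log N / (2 * U') ≤ Real.log z := by
    have := log_floor_ge ht2
    rw [hlt] at this
    calc Real.log N / (2 * U') = Real.log N / U' / 2 := by field_simp
      _ ≤ _ := this
  have hlz0 : 0 < Real.log z := Real.log_pos (by linarith)
  have hlz2 : Real.log z ≤ Real.log N / U' := by
    rw [← hlt]; exact Real.log_le_log (by linarith) hzt
  have hzN : U * Real.log z ≤ Real.log N := by
    calc U * Real.log z ≤ U' * (Real.log N / U') := by
          apply mul_le_mul hUU hlz2 hlz0.le (by linarith)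
      _ = Real.log N := by field_simp
  have hQ0 : 0 < primorial w := primorial_pos w
  have h1 := h a (primorial w) N z hQ0 hz2 (by omega) hzN
  have h2 := sifted_ge (a := a) (N := N) (R := z) hQ0
  have hVq : Vq (primorial w) z ≤ (c₂ / c₁) * (2 * U') * (Real.log w / Real.log N) := by
    have h3 := V_mul_Vq hwz (fun p hp => dvd_primorial_iff (w := w) hp)
    have h4 := (hcz w hw).1
    have h5 := (hcz z hz2).2
    have hVw := V_pos w
    have hVqp := Vq_pos (primorial w) z
    have h6 : V z ≤ c₂ / Real.log z := by rw [le_div_iff₀ hlz0]; exact h5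
    have h7 : c₁ / Real.log w ≤ V w := by rw [div_le_iff₀ (by linarith)]; exact h4
    have h8 : c₁ / Real.log w * Vq (primorial w) z ≤ c₂ / Real.log z := by
      calc c₁ / Real.log w * Vq (primorial w) z ≤ V w * Vq (primorial w) z := by gcongr
        _ = V z := h3
        _ ≤ _ := h6
    have h9 : c₂ / Real.log z ≤ c₂ / (Real.log N / (2 * U')) := by
      apply div_le_div_of_nonneg_left hc2.le (by positivity) hlz
    have h10 : Vq (primorial w) z ≤ (c₂ / (Real.log N / (2 * U'))) / (c₁ / Real.log w) := by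
      rw [le_div_iff₀ (by positivity)]
      linarith
    refine h10.trans (le_of_eq ?_)
    field_simp
  have hratio : (Real.log z / Real.log N) ^ 2 ≤ 1 := by
    have h3 : 0 ≤ Real.log z / Real.log N := by positivity
    have h4 : Real.log z / Real.log N ≤ 1 := by
      rw [div_le_one hlN]
      refine hlz2.trans ?_
      rw [div_le_iff₀ (by linarith)]
      nlinarith
    nlinarith
  have h3 : (apSieve a (primorial w) N z).siftedSum ≤
      (1 + C) * (c₂ / c₁) * (2 * U') * N * (Real.log w / Real.log N) := by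
    refine h1.trans ?_
    have hVqp := Vq_pos (primorial w) z
    calc (N : ℝ) * Vq (primorial w) z * (1 + C * (Real.log z / Real.log N) ^ 2)
        ≤ N * ((c₂ / c₁) * (2 * U') * (Real.log w / Real.log N)) * (1 + C * 1) := by gcongr
      _ = _ := by ring
  have hsq : Real.sqrt N * Real.sqrt N = N := Real.mul_self_sqrt (by linarith)
  have hs1 : 1 ≤ Real.sqrt N := by rw [Real.one_le_sqrt]; linarith
  have hzs : (z : ℝ) ≤ Real.sqrt N := by
    refine hzt.trans ?_
    rw [ht, Real.sqrt_eq_rpow]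
    apply Real.rpow_le_rpow_of_exponent_le (by linarith)
    exact one_div_le_one_div_of_le (by norm_num) hU2
  have hlogsq : Real.log N ≤ 2 * Real.sqrt N := by
    have h1 : Real.log (Real.sqrt N) ≤ Real.sqrt N - 1 := Real.log_le_sub_one_of_pos (by linarith)
    rw [Real.log_sqrt (by linarith)] at h1
    linarith
  have h4 : (z : ℝ) + 1 ≤ 6 * N * (Real.log w / Real.log N) := by
    have h5 : 2 * Real.sqrt N ≤ 6 * N * (Real.log w / Real.log N) := by
      rw [← mul_div_assoc, le_div_iff₀ hlN]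
      calc 2 * Real.sqrt N * Real.log N ≤ 2 * Real.sqrt N * (2 * Real.sqrt N) := by gcongr
        _ = 4 * N := by rw [← hsq]; ring_nf; rw [Real.sq_sqrt (by linarith)]
        _ ≤ 6 * N * Real.log w := by nlinarith
    linarith
  have h5 : ((1 + C) * (c₂ / c₁) * (2 * U') + 6) * N * (Real.log w / Real.log N) =
      (1 + C) * (c₂ / c₁) * (2 * U') * N * (Real.log w / Real.log N) + 6 * N * (Real.log w / Real.log N) := by
    ring
  rw [h5]
  linarith

lemma totient_primorial (u : ℕ) : ((primorial u).totient : ℝ) = V u * primorial u := by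
  have h1 := Nat.totient_eq_mul_prod_factors (primorial u)
  have h2 : (primorial u).primeFactors = Pz u := by
    ext p
    rw [Nat.mem_primeFactors, mem_Pz]
    constructor
    · rintro ⟨h1, h2, _⟩; exact ⟨h1, (dvd_primorial_iff h1).1 h2⟩
    · rintro ⟨h1, h2⟩; exact ⟨h1, (dvd_primorial_iff h1).2 h2, (primorial_pos u).ne'⟩
  have h3 : (((primorial u).totient : ℚ) : ℝ) = (((primorial u : ℕ) : ℚ) * ∏ p ∈ (primorial u).primeFactors, (1 - (p : ℚ)⁻¹) : ℚ) := by
    rw [h1]
  push_cast at h3
  rw [h3, h2]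
  unfold V
  rw [mul_comm]
  simp only [one_div]

/-- choice of a class modulo the small primes by averaging -/
lemma avg_class (u : ℕ) (A : Finset ℕ) : ∃ b : ℕ, b < primorial u ∧
    (#{s ∈ A | (b + s).Coprime (primorial u)} : ℝ) ≤ V u * #A := by
  classical
  set Q := primorial u with hQ
  have hQ0 : 0 < Q := primorial_pos u
  by_contra hcon
  push Not at hcon
  have h1 : ∑ b ∈ range Q, (#{s ∈ A | (b + s).Coprime Q} : ℝ) = V u * #A * Q := by
    have h2 : ∑ b ∈ range Q, #{s ∈ A | (b + s).Coprime Q} = ∑ s ∈ A, #{b ∈ range Q | (b + s).Coprime Q} := by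
      simp only [card_filter]
      rw [sum_comm]
    have h3 : ∀ s ∈ A, #{b ∈ range Q | (b + s).Coprime Q} = Q.totient := by
      intro s _
      rw [← Nat.filter_coprime_Ico_eq_totient Q s]
      apply card_bij (fun b _ => b + s)
      · intro b hb
        rw [mem_filter, mem_range] at hb
        rw [mem_filter, mem_Ico]
        exact ⟨⟨by omega, by omega⟩, hb.2.symm⟩
      · intro b _ b' _ h; omega
      · intro n hn
        rw [mem_filter, mem_Ico] at hn
        refine ⟨n - s, ?_, by omega⟩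
        rw [mem_filter, mem_range]
        refine ⟨by omega, ?_⟩
        rw [show n - s + s = n by omega]
        exact hn.2.symm
    rw [sum_congr rfl h3, sum_const, smul_eq_mul] at h2
    have h4 : (∑ b ∈ range Q, (#{s ∈ A | (b + s).Coprime Q} : ℝ)) = (#A : ℝ) * (Q.totient : ℝ) := by
      exact_mod_cast h2
    rw [h4, hQ, totient_primorial]
    ring
  have h2 : ∑ b ∈ range Q, V u * (#A : ℝ) < ∑ b ∈ range Q, (#{s ∈ A | (b + s).Coprime Q} : ℝ) := by
    apply sum_lt_sum_of_nonempty ⟨0, mem_range.2 hQ0⟩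
    intro b hb
    exact hcon b (mem_range.1 hb)
  rw [h1, sum_const, card_range, nsmul_eq_mul] at h2
  linarith

end Pool.Agent.H312R2.PG
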