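import Mathlib
import Pool.Agent.H312R2.PG.C1
import Pool.Agent.H312R2.PG.E2a

/-! From the first moment to many windows. -/

open Finset Filter Topology

namespace Pool.Agent.H312R2.PG

open Pool.Agent.H378R2

lemma nu_le_half (X : ℝ) (Q a n : ℕ) : nu X Q a n ≤ 1 / 2 := by
  unfold nu
  split_ifs
  · exact Phi_le_half _
  · norm_num

lemma nu_zero {X : ℝ} (hX : 0 < X) {Q a n : ℕ} (hn : (n : ℝ) ≤ X) : nu X Q a n = 0 := by
  unfold nu
  split_ifs
  · exact Phi_eq_zero_of_le (by positivity) ((div_le_one hX).2 hn)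
  · rfl

lemma TT_le {X : ℝ} (hX : 1 ≤ X) {h n : ℕ} (hh : (h : ℝ) ≤ Real.sqrt X) (hn : n ≤ ⌊3 * X⌋₊) :
    TT h n ≤ h * Real.log (4 * X) := by
  unfold TT
  have h1 : ∀ s ∈ Icc 1 h, th (n + s) ≤ Real.log (4 * X) := by
    intro s hs
    rw [mem_Icc] at hs
    have h2 : (n : ℝ) ≤ 3 * X := le_trans (by exact_mod_cast hn) (Nat.floor_le (by linarith))
    have h3 : (s : ℝ) ≤ Real.sqrt X := le_trans (by exact_mod_cast hs.2) hh
    have h4 : Real.sqrt X ≤ X := by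
      rw [Real.sqrt_le_left (by linarith)]
      nlinarith
    unfold th
    split_ifs
    · apply Real.log_le_log
      · have : (1 : ℝ) ≤ s := by exact_mod_cast hs.1
        have h5 : (0 : ℝ) ≤ n := Nat.cast_nonneg _
        push_cast
        linarith
      · push_cast
        linarith
    · exact Real.log_nonneg (by linarith)
  refine (sum_le_sum h1).trans ?_
  rw [sum_const, nsmul_eq_mul, Nat.card_Icc, Nat.add_sub_cancel]

open Classical in
lemma surplus_count {X β : ℝ} (hX : 1 ≤ X) (hβ : 0 < β) {Q a h : ℕ} (hh0 : 1 ≤ h) (hh : (h : ℝ) ≤ Real.sqrt X)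
    (hM : (1 + β) * (h * ∑ n ∈ Icc 1 ⌊3 * X⌋₊, nu X Q a n) ≤ ∑ n ∈ Icc 1 ⌊3 * X⌋₊, nu X Q a n * TT h n) :
    β * (∑ n ∈ Icc 1 ⌊3 * X⌋₊, nu X Q a n) ≤
      #{n ∈ Icc 1 ⌊3 * X⌋₊ | X < ((n : ℕ) : ℝ) ∧ (1 + β / 2) * h ≤ TT h n} * Real.log (4 * X) := by
  set N := ⌊3 * X⌋₊ with hN
  set M0 := ∑ n ∈ Icc 1 N, nu X Q a n with hM0
  set G := {n ∈ Icc 1 N | X < ((n : ℕ) : ℝ) ∧ (1 + β / 2) * h ≤ TT h n} with hG
  have hl : 0 ≤ Real.log (4 * X) := Real.log_nonneg (by linarith)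
  have hXp : 0 < X := by linarith
  have h1 : ∑ n ∈ Icc 1 N, nu X Q a n * TT h n ≤
      ∑ n ∈ Icc 1 N, ((if n ∈ G then (1 / 2) * (h * Real.log (4 * X)) else 0) + (1 + β / 2) * h * nu X Q a n) := by
    apply sum_le_sum
    intro n hn
    have hn2 := (mem_Icc.1 hn).2
    by_cases hG1 : n ∈ G
    · rw [if_pos hG1]
      have h2 : nu X Q a n * TT h n ≤ (1 / 2) * (h * Real.log (4 * X)) :=
        mul_le_mul (nu_le_half _ _ _ _) (TT_le hX hh hn2) (TT_nonneg _ _) (by norm_num)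
      have h3 : 0 ≤ (1 + β / 2) * h * nu X Q a n := mul_nonneg (by positivity) (nu_nonneg _ _ _ _)
      linarith
    · rw [if_neg hG1, zero_add]
      rcases le_or_gt (n : ℝ) X with h2 | h2
      · rw [nu_zero hXp h2]; simp
      · have h3 : TT h n < (1 + β / 2) * h := by
          by_contra hcon
          push Not at hcon
          exact hG1 (mem_filter.2 ⟨hn, h2, hcon⟩)
        rw [mul_comm]
        exact mul_le_mul_of_nonneg_right h3.le (nu_nonneg _ _ _ _)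
  rw [sum_add_distrib, ← mul_sum, ← hM0, sum_ite_mem, sum_const, nsmul_eq_mul] at h1
  have h2 : Icc 1 N ∩ G = G := inter_eq_right.2 (filter_subset _ _)
  rw [h2] at h1
  have hh' : (0 : ℝ) < h := by exact_mod_cast hh0
  have h3 : (h : ℝ) * (β * M0) ≤ h * (#G * Real.log (4 * X)) := by nlinarith
  exact le_of_mul_le_mul_left h3 hh'

open Classical in
lemma deficit_count {X β : ℝ} (hX : 1 ≤ X) (hβ : 0 < β) (hβ1 : β < 1) {Q a h : ℕ} (hh0 : 1 ≤ h)
    (hM : ∑ n ∈ Icc 1 ⌊3 * X⌋₊, nu X Q a n * TT h n ≤ (1 - β) * (h * ∑ n ∈ Icc 1 ⌊3 * X⌋₊, nu X Q a n)) :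
    β * (∑ n ∈ Icc 1 ⌊3 * X⌋₊, nu X Q a n) ≤
      #{n ∈ Icc 1 ⌊3 * X⌋₊ | X < ((n : ℕ) : ℝ) ∧ TT h n ≤ (1 - β / 2) * h} := by
  set N := ⌊3 * X⌋₊ with hN
  set M0 := ∑ n ∈ Icc 1 N, nu X Q a n with hM0
  set G := {n ∈ Icc 1 N | X < ((n : ℕ) : ℝ) ∧ TT h n ≤ (1 - β / 2) * h} with hG
  have hXp : 0 < X := by linarith
  have hb : 0 < 1 - β / 2 := by linarith
  have hh' : (0 : ℝ) < h := by exact_mod_cast hh0
  have h1 : ∑ n ∈ Icc 1 N, ((1 - β / 2) * h * nu X Q a n - (if n ∈ G then (1 - β / 2) * h * (1 / 2) else 0)) ≤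
      ∑ n ∈ Icc 1 N, nu X Q a n * TT h n := by
    apply sum_le_sum
    intro n hn
    by_cases hG1 : n ∈ G
    · rw [if_pos hG1]
      have h2 : (1 - β / 2) * h * nu X Q a n ≤ (1 - β / 2) * h * (1 / 2) :=
        mul_le_mul_of_nonneg_left (nu_le_half _ _ _ _) (by positivity)
      have h3 : 0 ≤ nu X Q a n * TT h n := mul_nonneg (nu_nonneg _ _ _ _) (TT_nonneg _ _)
      linarith
    · rw [if_neg hG1, sub_zero]
      rcases le_or_gt (n : ℝ) X with h2 | h2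
      · rw [nu_zero hXp h2]; simp
      · have h3 : (1 - β / 2) * h < TT h n := by
          by_contra hcon
          push Not at hcon
          exact hG1 (mem_filter.2 ⟨hn, h2, hcon⟩)
        rw [mul_comm]
        exact mul_le_mul_of_nonneg_left h3.le (nu_nonneg _ _ _ _)
  rw [sum_sub_distrib, ← mul_sum, ← hM0, sum_ite_mem, sum_const, nsmul_eq_mul] at h1
  have h2 : Icc 1 N ∩ G = G := inter_eq_right.2 (filter_subset _ _)
  rw [h2] at h1
  have hGn : (0 : ℝ) ≤ #G := Nat.cast_nonneg _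
  have h3 : (h : ℝ) * (β * M0) ≤ h * #G := by
    have h4 : (#G : ℝ) * ((1 - β / 2) * h * (1 / 2)) ≤ #G * (h * (1 / 2)) := by
      apply mul_le_mul_of_nonneg_left _ hGn
      nlinarith
    nlinarith
  exact le_of_mul_le_mul_left h3 hh'

end Pool.Agent.H312R2.PG
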