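import Mathlib
import Pool.Agent.H312R2.PG.C1
import Pool.Agent.H312R2.PG.E2a
import Pool.Agent.H318R2.Cr.FL2
import Pool.Agent.H318R2.Cr.Low

/-! The number of positions coprime to the modulus. -/

open Finset Filter Topology

namespace Pool.Agent.H312R2.PG

open Pool.Agent.H378R2
open Pool.Agent.H318R2.Cr (Rgh Pz V cnt Vq PQ mem_PQ mem_Pz Vq_pos V_pos PP_eq)
open Pool.Agent.Helper923.PPS (apSieve prime_dvd_PP coprime_of_dvd_PP)

/-- the modulus: the primes `≤ w` of the big modulus -/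
noncomputable def QQ (X : ℝ) (S : Finset ℕ) (ps w : ℕ) : ℕ := ∏ p ∈ (PW X S ps).filter (fun p => p ≤ w), p

lemma QQ_dvd (X : ℝ) (S : Finset ℕ) (ps w : ℕ) : QQ X S ps w ∣ WW X S ps := by
  unfold QQ WW
  exact prod_dvd_prod_of_subset _ _ _ (filter_subset _ _)

lemma prime_dvd_QQ {X : ℝ} {S : Finset ℕ} {ps w p : ℕ} (hp : p.Prime) :
    p ∣ QQ X S ps w ↔ p ∈ PW X S ps ∧ p ≤ w := by
  unfold QQ
  rw [Prime.dvd_finsetProd_iff hp.prime]
  constructor
  · rintro ⟨r, hr, hpr⟩
    rw [mem_filter] at hr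
    have : p = r := (Nat.prime_dvd_prime_iff_eq hp (mem_PW.1 hr.1).2.1).mp hpr
    subst this
    exact hr
  · intro h
    exact ⟨p, mem_filter.2 h, dvd_rfl⟩

lemma QQ_pos (X : ℝ) (S : Finset ℕ) (ps w : ℕ) : 0 < QQ X S ps w :=
  Nat.pos_of_dvd_of_pos (QQ_dvd X S ps w) (WW_pos X S ps)

/-- the missing primes -/
noncomputable def miss (Q w : ℕ) : Finset ℕ := (Pz w).filter (fun p => ¬ p ∣ Q)

/-- density of the integers coprime to `Q` -/
noncomputable def vQ (Q w : ℕ) : ℝ := ∏ p ∈ (Pz w).filter (fun p => p ∣ Q), (1 - 1 / (p : ℝ))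

lemma vQ_totient (X : ℝ) (S : Finset ℕ) (ps w : ℕ) :
    vQ (QQ X S ps w) w = (QQ X S ps w).totient * (1 / (QQ X S ps w : ℝ)) := by
  set Q := QQ X S ps w with hQ
  have h1 := Nat.totient_eq_mul_prod_factors Q
  have h2 : Q.primeFactors = (Pz w).filter (fun p => p ∣ Q) := by
    ext p
    rw [Nat.mem_primeFactors, mem_filter, mem_Pz]
    constructor
    · rintro ⟨h1, h2, _⟩; exact ⟨⟨h1, ((prime_dvd_QQ h1).1 h2).2⟩, h2⟩
    · rintro ⟨⟨h1, _⟩, h2⟩; exact ⟨h1, h2, (QQ_pos X S ps w).ne'⟩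
  have h3 : ((Q.totient : ℚ) : ℝ) = (((Q : ℕ) : ℚ) * ∏ p ∈ Q.primeFactors, (1 - (p : ℚ)⁻¹) : ℚ) := by
    rw [h1]
  push_cast at h3
  have hQ0 : (Q : ℝ) ≠ 0 := by exact_mod_cast (QQ_pos X S ps w).ne'
  rw [h3, h2]
  unfold vQ
  simp only [one_div]
  field_simp

lemma V_eq (Q w : ℕ) : V w = vQ Q w * ∏ p ∈ miss Q w, (1 - 1 / (p : ℝ)) := by
  unfold V vQ miss
  rw [← prod_filter_mul_prod_filter_not (Pz w) (fun p => p ∣ Q)]

lemma one_sub_pos {p : ℕ} (hp : p.Prime) : 0 < 1 - 1 / (p : ℝ) := by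
  have h1 : (2 : ℝ) ≤ p := by exact_mod_cast hp.two_le
  have h2 : 1 / (p : ℝ) ≤ 1 / 2 := one_div_le_one_div_of_le (by norm_num) h1
  linarith

lemma prod_ge_one_sub_sum (A : Finset ℕ) (hA : ∀ p ∈ A, p.Prime) :
    1 - ∑ p ∈ A, 1 / (p : ℝ) ≤ ∏ p ∈ A, (1 - 1 / (p : ℝ)) ∧ ∏ p ∈ A, (1 - 1 / (p : ℝ)) ≤ 1 ∧
      0 < ∏ p ∈ A, (1 - 1 / (p : ℝ)) := by
  classical
  induction A using Finset.induction_on with
  | empty => simp
  | insert p A hp ih =>
    obtain ⟨h1, h2, h3⟩ := ih fun q hq => hA q (mem_insert_of_mem hq)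
    have h4 := one_sub_pos (hA p (mem_insert_self _ _))
    have h5 : (0 : ℝ) ≤ 1 / p := by positivity
    rw [prod_insert hp, sum_insert hp]
    refine ⟨?_, ?_, mul_pos h4 h3⟩
    · nlinarith
    · nlinarith

lemma vQ_pos (Q w : ℕ) : 0 < vQ Q w :=
  (prod_ge_one_sub_sum _ fun p hp => (mem_Pz.1 (mem_filter.1 hp).1).1).2.2

lemma V_le_vQ (Q w : ℕ) : V w ≤ vQ Q w := by
  rw [V_eq Q w]
  apply mul_le_of_le_one_right (vQ_pos Q w).le
  exact (prod_ge_one_sub_sum _ fun p hp => (mem_Pz.1 (mem_filter.1 hp).1).1).2.1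

lemma V_ge_vQ (Q w : ℕ) : (1 - ∑ p ∈ miss Q w, 1 / (p : ℝ)) * vQ Q w ≤ V w := by
  rw [V_eq Q w, mul_comm]
  apply mul_le_mul_of_nonneg_left _ (vQ_pos Q w).le
  exact (prod_ge_one_sub_sum _ fun p hp => (mem_Pz.1 (mem_filter.1 hp).1).1).1

/-- the missing primes have small harmonic sum -/
lemma miss_sum {X : ℝ} {S : Finset ℕ} {ps w Z : ℕ} (hZ : 0 < Z) (hw : w ≤ yy X) (hS : GoodS X S)
    (hps : GoodP Z ps) :
    ∑ p ∈ miss (QQ X S ps w) w, 1 / (p : ℝ) ≤ 6 / (Real.log (Real.log X)) ^ 2 + 1 / Z := by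
  classical
  have h1 : miss (QQ X S ps w) w ⊆ S ∪ (miss (QQ X S ps w) w).filter (fun p => p = ps) := by
    intro p hp
    unfold miss at hp
    have hp' := hp
    rw [mem_filter, mem_Pz] at hp
    obtain ⟨⟨hpp, hpw⟩, hnd⟩ := hp
    rw [mem_union]
    by_contra hcon
    push Not at hcon
    apply hnd
    rw [prime_dvd_QQ hpp]
    refine ⟨mem_PW.2 ⟨hpw.trans hw, hpp, hcon.1, fun h => hcon.2 ?_⟩, hpw⟩
    exact mem_filter.2 ⟨hp', h⟩
  have h2 : ∑ p ∈ miss (QQ X S ps w) w, 1 / (p : ℝ) ≤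
      ∑ p ∈ S, 1 / (p : ℝ) + ∑ p ∈ (miss (QQ X S ps w) w).filter (fun p => p = ps), 1 / (p : ℝ) := by
    refine (sum_le_sum_of_subset_of_nonneg h1 fun _ _ _ => by positivity).trans ?_
    have := sum_union_inter (s₁ := S) (s₂ := (miss (QQ X S ps w) w).filter (fun p => p = ps)) (f := fun p : ℕ => 1 / (p : ℝ))
    have h3 : 0 ≤ ∑ p ∈ S ∩ (miss (QQ X S ps w) w).filter (fun p => p = ps), 1 / (p : ℝ) :=
      sum_nonneg fun _ _ => by positivity
    linarith
  have h3 : ∑ p ∈ (miss (QQ X S ps w) w).filter (fun p => p = ps), 1 / (p : ℝ) ≤ 1 / Z := by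
    rcases hps with h | ⟨h, hZps⟩
    · have h4 : (miss (QQ X S ps w) w).filter (fun p => p = ps) = ∅ := by
        rw [filter_eq_empty_iff]
        intro p hp hpe
        unfold miss at hp
        rw [mem_filter, mem_Pz] at hp
        have := hp.1.1.one_lt
        omega
      rw [h4, sum_empty]; positivity
    · have h4 : (miss (QQ X S ps w) w).filter (fun p => p = ps) ⊆ {ps} := by
        intro p hp
        rw [mem_filter] at hp
        rw [mem_singleton]; exact hp.2
      refine (sum_le_sum_of_subset_of_nonneg h4 fun _ _ _ => by positivity).trans ?_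
      rw [sum_singleton]
      apply one_div_le_one_div_of_le (by exact_mod_cast hZ)
      exact_mod_cast hZps.le
  linarith [hS.2]

/-- integers free of the primes up to `w` are coprime to `Q` -/
lemma cnt_le_Na (X : ℝ) (S : Finset ℕ) (ps w a h : ℕ) : cnt w a h ≤ Na (QQ X S ps w) a h := by
  classical
  unfold cnt Na
  apply card_le_card_of_injOn (fun n => n - a)
  · intro n hn
    rw [mem_coe, mem_filter, mem_Ioc] at hn
    obtain ⟨⟨h1, h2⟩, h3⟩ := hn
    rw [mem_coe, mem_filter, mem_Icc]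
    have e : a + (n - a) = n := by omega
    refine ⟨⟨?_, ?_⟩, ?_⟩
    · show 1 ≤ n - a
      omega
    · show n - a ≤ h
      omega
    show (a + (n - a)).Coprime (QQ X S ps w)
    rw [e]
    by_contra hc
    obtain ⟨p, hp, hp1, hp2⟩ := Nat.Prime.not_coprime_iff_dvd.1 hc
    exact h3 p hp ((prime_dvd_QQ hp).1 hp2).2 hp1
  · intro n hn m hm h
    rw [mem_coe, mem_filter, mem_Ioc] at hn hm
    simp only at h
    omega

/-- the sieve upper bound for integers coprime to `Q` in short intervals -/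
theorem sieve_coprime : ∃ C U : ℝ, 0 ≤ C ∧ 1 ≤ U ∧ ∀ Q w N m0 : ℕ, 2 ≤ w → 1 ≤ N →
    U * Real.log w ≤ Real.log N →
    (#{k ∈ range N | (m0 + k).Coprime Q} : ℝ) ≤ (1 + C) * (N * vQ Q w) := by
  classical
  obtain ⟨C, U, hC, hU, h⟩ := Pool.Agent.H318R2.Cr.FL_upper
  refine ⟨C, U, hC, hU, fun Q w N m0 hw hN hwN => ?_⟩
  set q0 : ℕ := ∏ p ∈ miss Q w, p with hq0
  have hq0pos : 0 < q0 := prod_pos fun p hp => (mem_Pz.1 (mem_filter.1 hp).1).1.pos
  have hpq0 : ∀ p : ℕ, p.Prime → p ≤ w → (p ∣ q0 ↔ ¬ p ∣ Q) := by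
    intro p hp hpw
    rw [hq0, Prime.dvd_finsetProd_iff hp.prime]
    constructor
    · rintro ⟨r, hr, hpr⟩
      unfold miss at hr
      rw [mem_filter, mem_Pz] at hr
      have : p = r := (Nat.prime_dvd_prime_iff_eq hp hr.1.1).mp hpr
      rw [this]; exact hr.2
    · intro hnd
      exact ⟨p, mem_filter.2 ⟨mem_Pz.2 ⟨hp, hpw⟩, hnd⟩, dvd_rfl⟩
  have hVq : Vq q0 w = vQ Q w := by
    unfold Vq vQ
    apply prod_congr _ (fun _ _ => rfl)
    ext p
    rw [mem_PQ, mem_filter, mem_Pz]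
    constructor
    · rintro ⟨h1, h2, h3⟩
      refine ⟨⟨h1, h2⟩, ?_⟩
      by_contra hnd
      exact h3 ((hpq0 p h1 h2).2 hnd)
    · rintro ⟨⟨h1, h2⟩, h3⟩
      exact ⟨h1, h2, fun h4 => (hpq0 p h1 h2).1 h4 h3⟩
  have h1 := h (q0 * m0) q0 N w hq0pos hw hN hwN
  rw [hVq] at h1
  have hinj : ∀ x ∈ Finset.range N, ∀ y ∈ Finset.range N,
      (fun k => q0 * m0 + k * q0) x = (fun k => q0 * m0 + k * q0) y → x = y := by
    intro x _ y _ hxy
    simp only at hxy
    have : x * q0 = y * q0 := by omega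
    exact Nat.eq_of_mul_eq_mul_right hq0pos this
  have e : (apSieve (q0 * m0) q0 N w).siftedSum =
      (((Finset.range N).filter (fun k => Nat.Coprime (Pool.Agent.Helper923.PPS.PP q0 w) (q0 * m0 + k * q0))).card : ℝ) := by
    unfold BoundingSieve.siftedSum
    have h0 : (apSieve (q0 * m0) q0 N w).support = (Finset.range N).image (fun k => q0 * m0 + k * q0) := rfl
    rw [h0, Finset.sum_image hinj, Finset.card_filter]
    push_cast
    apply Finset.sum_congr rfl
    intro k _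
    have h : (apSieve (q0 * m0) q0 N w).prodPrimes = Pool.Agent.Helper923.PPS.PP q0 w := rfl
    have h' : (apSieve (q0 * m0) q0 N w).weights (q0 * m0 + k * q0) = 1 := rfl
    by_cases hc : Nat.Coprime (Pool.Agent.Helper923.PPS.PP q0 w) (q0 * m0 + k * q0)
    · rw [if_pos hc, if_pos (by rw [h]; exact hc), h']
    · rw [if_neg hc, if_neg (by rw [h]; exact hc)]
  rw [e] at h1
  have h2 : (#{k ∈ range N | (m0 + k).Coprime Q} : ℝ) ≤
      (((Finset.range N).filter (fun k => Nat.Coprime (Pool.Agent.Helper923.PPS.PP q0 w) (q0 * m0 + k * q0))).card : ℝ) := by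
    have : {k ∈ range N | (m0 + k).Coprime Q} ⊆
        (Finset.range N).filter (fun k => Nat.Coprime (Pool.Agent.Helper923.PPS.PP q0 w) (q0 * m0 + k * q0)) := by
      intro k hk
      rw [mem_filter] at hk ⊢
      refine ⟨hk.1, ?_⟩
      by_contra hc
      obtain ⟨p, hp, hp1, hp2⟩ := Nat.Prime.not_coprime_iff_dvd.1 hc
      have h3 := (prime_dvd_PP hp).1 hp1
      have h4 : q0 * m0 + k * q0 = q0 * (m0 + k) := by ring
      rw [h4] at hp2
      rcases (Nat.Prime.dvd_mul hp).1 hp2 with h5 | h5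
      · exact h3.2 h5
      · have h6 : p ∣ Q := by
          by_contra hnd
          exact h3.2 ((hpq0 p hp h3.1).2 hnd)
        have h7 := Nat.dvd_gcd h5 h6
        rw [hk.2] at h7
        exact hp.one_lt.ne' (Nat.dvd_one.1 h7)
    exact_mod_cast card_le_card this
  refine h2.trans (h1.trans ?_)
  have hv := vQ_pos Q w
  have hN' : (1 : ℝ) ≤ N := by exact_mod_cast hN
  have hw' : (2 : ℝ) ≤ w := by exact_mod_cast hw
  have hlw : 0 < Real.log w := Real.log_pos (by linarith)
  have hratio : (Real.log w / Real.log N) ^ 2 ≤ 1 := by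
    have hlN : 0 < Real.log N := by nlinarith
    have h3 : 0 ≤ Real.log w / Real.log N := by positivity
    have h4 : Real.log w / Real.log N ≤ 1 := by
      rw [div_le_one hlN]; nlinarith
    nlinarith
  have h3 : (N : ℝ) * vQ Q w * (1 + C * (Real.log w / Real.log N) ^ 2) ≤ N * vQ Q w * (1 + C * 1) := by gcongr
  linarith

/-- upper bound for the coprime positions in terms of the integers free of small primes -/
theorem Na_le : ∃ C U : ℝ, 0 ≤ C ∧ 1 ≤ U ∧ ∀ Q w a h : ℕ, 2 ≤ w →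
    U * Real.log w ≤ Real.log h →
    (Na Q a h : ℝ) ≤ cnt w a h + C * (∑ p ∈ miss Q w, 1 / (p : ℝ)) * (h * vQ Q w) := by
  classical
  obtain ⟨C, U, hC, hU, hsv⟩ := sieve_coprime
  refine ⟨(1 + C) * 2, U + 1, by positivity, by linarith, fun Q w a h hw hwh => ?_⟩
  have hw' : (2 : ℝ) ≤ w := by exact_mod_cast hw
  have hlw : 0 < Real.log w := Real.log_pos (by linarith)
  have hlh : 0 < Real.log h := by nlinarith
  have hh0 : 0 < h := by
    rcases Nat.eq_zero_or_pos h with h0 | h0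
    · rw [h0] at hlh; simp at hlh
    · exact h0
  have hh' : (0 : ℝ) < h := by exact_mod_cast hh0
  have hsub : {s ∈ Icc 1 h | (a + s).Coprime Q} ⊆
      (Icc 1 h).filter (fun s => Rgh w (a + s)) ∪
      (miss Q w).biUnion (fun p => {s ∈ Icc 1 h | p ∣ a + s ∧ (a + s).Coprime Q}) := by
    intro s hs
    rw [mem_filter] at hs
    rw [mem_union, mem_filter, mem_biUnion]
    by_cases hr : Rgh w (a + s)
    · left; exact ⟨hs.1, hr⟩
    · right
      unfold Rgh at hr
      push Not at hr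
      obtain ⟨p, hp, hpw, hpd⟩ := hr
      refine ⟨p, ?_, mem_filter.2 ⟨hs.1, hpd, hs.2⟩⟩
      unfold miss
      rw [mem_filter, mem_Pz]
      refine ⟨⟨hp, hpw⟩, fun hpQ => ?_⟩
      have h7 := Nat.dvd_gcd hpd hpQ
      rw [hs.2] at h7
      exact hp.one_lt.ne' (Nat.dvd_one.1 h7)
  have h1 := (card_le_card hsub).trans ((card_union_le _ _).trans (Nat.add_le_add_left card_biUnion_le _))
  have h2 : #((Icc 1 h).filter (fun s => Rgh w (a + s))) = cnt w a h := by
    unfold cnt
    apply card_bij (fun s _ => a + s)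
    · intro s hs
      rw [mem_filter, mem_Icc] at hs
      rw [mem_filter, mem_Ioc]
      exact ⟨⟨by omega, by omega⟩, hs.2⟩
    · intro s _ t _ h; omega
    · intro n hn
      rw [mem_filter, mem_Ioc] at hn
      refine ⟨n - a, ?_, by omega⟩
      rw [mem_filter, mem_Icc]
      refine ⟨⟨by omega, by omega⟩, ?_⟩
      rw [show a + (n - a) = n by omega]; exact hn.2
  rw [h2] at h1
  have h3 : ∀ p ∈ miss Q w, (#{s ∈ Icc 1 h | p ∣ a + s ∧ (a + s).Coprime Q} : ℝ) ≤
      (1 + C) * 2 * (1 / (p : ℝ)) * (h * vQ Q w) := by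
    intro p hp
    unfold miss at hp
    rw [mem_filter, mem_Pz] at hp
    obtain ⟨⟨hpp, hpw⟩, hpQ⟩ := hp
    have hp0 : (0 : ℝ) < p := by exact_mod_cast hpp.pos
    -- h / p is large
    have hph : (w : ℝ) ^ U * p ≤ h := by
      have e1 : (w : ℝ) ^ U * p ≤ (w : ℝ) ^ U * w := by
        apply mul_le_mul_of_nonneg_left (by exact_mod_cast hpw) (by positivity)
      have e2 : (w : ℝ) ^ U * w = (w : ℝ) ^ (U + 1) := by
        rw [Real.rpow_add (by linarith), Real.rpow_one]
      refine e1.trans ?_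
      rw [e2, ← Real.log_le_log_iff (by positivity) hh', Real.log_rpow (by linarith)]
      exact hwh
    have hwU : (2 : ℝ) ≤ (w : ℝ) ^ U := by
      calc (2 : ℝ) ≤ w := hw'
        _ = (w : ℝ) ^ (1 : ℝ) := (Real.rpow_one _).symm
        _ ≤ (w : ℝ) ^ U := Real.rpow_le_rpow_of_exponent_le (by linarith) hU
    set M := h / p with hM
    have hM1 : 1 ≤ M := by
      rw [hM, Nat.one_le_div_iff hpp.pos]
      have : (p : ℝ) ≤ h := by nlinarith
      exact_mod_cast this
    have hMle : (M : ℝ) ≤ h / p := Nat.cast_div_le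
    have hMge : (h : ℝ) / p < M + 1 := by
      rw [div_lt_iff₀ hp0]
      have : h < (M + 1) * p := (Nat.div_lt_iff_lt_mul hpp.pos).1 (Nat.lt_succ_self _)
      exact_mod_cast this
    have hM1' : (1 : ℝ) ≤ M := by exact_mod_cast hM1
    set N := 2 * M with hN
    have hN1 : 1 ≤ N := by omega
    have hlogN : U * Real.log w ≤ Real.log N := by
      rw [← Real.log_rpow (by linarith)]
      apply Real.log_le_log (by positivity)
      have e1 : (w : ℝ) ^ U ≤ h / p := by rw [le_div_iff₀ hp0]; exact hph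
      rw [hN]; push_cast; linarith
    set m0 := (a + p) / p with hm0
    have h4 := hsv Q w N m0 hw hN1 hlogN
    have h5 : #{s ∈ Icc 1 h | p ∣ a + s ∧ (a + s).Coprime Q} ≤ #{k ∈ range N | (m0 + k).Coprime Q} := by
      apply card_le_card_of_injOn (fun s => (a + s) / p - m0)
      · intro s hs
        rw [mem_coe, mem_filter, mem_Icc] at hs
        obtain ⟨⟨s1, s2⟩, ⟨m, hm⟩, s4⟩ := hs
        have e1 : (a + s) / p = m := by rw [hm]; exact Nat.mul_div_cancel_left m hpp.pos
        have e2 : m0 ≤ m := by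
          have e3 : (a + p) / p = a / p + 1 := Nat.add_div_right a hpp.pos
          rw [hm0, e3]
          have e4 := Nat.div_add_mod a p
          have e5 := Nat.mod_lt a hpp.pos
          by_contra hcon
          push Not at hcon
          have e6 : m ≤ a / p := by omega
          have e7 : p * m ≤ p * (a / p) := Nat.mul_le_mul_left p e6
          omega
        have e8 : m < m0 + N := by
          have e3 : (a + p) / p = a / p + 1 := Nat.add_div_right a hpp.pos
          have e9 : m ≤ (a + h) / p := by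
            rw [Nat.le_div_iff_mul_le hpp.pos]
            have : m * p = p * m := mul_comm _ _
            omega
          have e10 : (a + h) / p ≤ a / p + h / p + 1 := by
            have f1 := Nat.div_add_mod a p
            have f2 := Nat.mod_lt a hpp.pos
            have f3 := Nat.div_add_mod h p
            have f4 := Nat.mod_lt h hpp.pos
            rw [← Nat.lt_succ_iff, Nat.div_lt_iff_lt_mul hpp.pos]
            have f5 : (a / p + h / p + 1).succ * p = p * (a / p) + p * (h / p) + 2 * p := by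
              rw [Nat.succ_eq_add_one]; ring
            omega
          omega
        rw [mem_coe, mem_filter, mem_range]
        simp only
        rw [e1]
        refine ⟨by omega, ?_⟩
        rw [show m0 + (m - m0) = m by omega]
        rw [hm] at s4
        exact Nat.Coprime.coprime_mul_left s4
      · intro s hs t ht hst
        rw [mem_coe, mem_filter, mem_Icc] at hs ht
        obtain ⟨⟨s1, s2⟩, ⟨m, hm⟩, _⟩ := hs
        obtain ⟨⟨t1, t2⟩, ⟨m', hm'⟩, _⟩ := ht
        have e1 : (a + s) / p = m := by rw [hm]; exact Nat.mul_div_cancel_left m hpp.pos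
        have e1' : (a + t) / p = m' := by rw [hm']; exact Nat.mul_div_cancel_left m' hpp.pos
        have e3 : (a + p) / p = a / p + 1 := Nat.add_div_right a hpp.pos
        have key : ∀ m s : ℕ, 1 ≤ s → a + s = p * m → m0 ≤ m := by
          intro m s hs1 hm
          rw [hm0, e3]
          have e4 := Nat.div_add_mod a p
          have e5 := Nat.mod_lt a hpp.pos
          by_contra hcon
          push Not at hcon
          have e6 : m ≤ a / p := by omega
          have e7 : p * m ≤ p * (a / p) := Nat.mul_le_mul_left p e6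
          omega
        simp only at hst
        rw [e1, e1'] at hst
        have k1 := key m s s1 hm
        have k2 := key m' t t1 hm'
        have : m = m' := by omega
        subst this
        omega
    have h6 : (#{s ∈ Icc 1 h | p ∣ a + s ∧ (a + s).Coprime Q} : ℝ) ≤ (1 + C) * (N * vQ Q w) :=
      le_trans (by exact_mod_cast h5) h4
    refine h6.trans ?_
    have hv := vQ_pos Q w
    have h7 : (N : ℝ) ≤ 2 * (h / p) := by rw [hN]; push_cast; linarith
    calc (1 + C) * (N * vQ Q w) ≤ (1 + C) * (2 * (h / p) * vQ Q w) := by gcongr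
      _ = (1 + C) * 2 * (1 / (p : ℝ)) * (h * vQ Q w) := by ring
  have h4 : (Na Q a h : ℝ) ≤ cnt w a h + ∑ p ∈ miss Q w, (#{s ∈ Icc 1 h | p ∣ a + s ∧ (a + s).Coprime Q} : ℝ) := by
    exact_mod_cast h1
  refine h4.trans ?_
  have h5 : ∑ p ∈ miss Q w, (#{s ∈ Icc 1 h | p ∣ a + s ∧ (a + s).Coprime Q} : ℝ) ≤
      ∑ p ∈ miss Q w, (1 + C) * 2 * (1 / (p : ℝ)) * (h * vQ Q w) := sum_le_sum h3
  have h6 : ∑ p ∈ miss Q w, (1 + C) * 2 * (1 / (p : ℝ)) * (h * vQ Q w) =
      (1 + C) * 2 * (∑ p ∈ miss Q w, 1 / (p : ℝ)) * (h * vQ Q w) := by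
    rw [mul_sum, sum_mul]
  linarith

end Pool.Agent.H312R2.PG
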