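import Mathlib
import Pool.Agent.H312R2.PG.C2
import Pool.Agent.H312R2.PG.C3

/-! Windows with too many or too few primes. -/

open Finset Filter Topology

namespace Pool.Agent.H312R2.PG

open Pool.Agent.H378R2
open Pool.Agent.H318R2.Cr (Rgh Pz V cnt V_pos)

lemma alg_surplus {d e k Na ph q MM M0 M1 h : ℝ} (hd : 0 < d) (hd1 : d ≤ 1) (he : e = d / 16)
    (hk : k ≤ d / 16) (hMM : 0 < MM) (hh : 0 ≤ h) (hq : 0 < q) (hph : 0 < ph)
    (hNa : (1 + d) * ((1 - k) * (h * (q * ph⁻¹))) ≤ Na)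
    (h1 : |M1 - Na * (MM * ph)| ≤ e * (Na * (MM * ph) + h * (MM * q)))
    (h2 : |M0 - MM * q| ≤ e * (MM * q)) :
    (1 + d / 2) * (h * M0) ≤ M1 ∧ MM * q / 2 ≤ M0 := by
  have h3 := (abs_le.1 h1).1
  have h4 := (abs_le.1 h2).1
  have h5 := (abs_le.1 h2).2
  set A := Na * (MM * ph) with hA
  set D := h * (MM * q) with hD
  have hD0 : 0 ≤ D := by positivity
  have hq1 : (1 + d) * ((1 - k) * D) ≤ A := by
    have h6 : (1 + d) * ((1 - k) * (h * (q * ph⁻¹))) * (MM * ph) ≤ Na * (MM * ph) :=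
      mul_le_mul_of_nonneg_right hNa (by positivity)
    have h7 : (1 + d) * ((1 - k) * (h * (q * ph⁻¹))) * (MM * ph) = (1 + d) * ((1 - k) * D) := by
      rw [hD]; field_simp
    rw [h7] at h6
    exact h6
  have hq2 : (1 + 14 * d / 16) * D ≤ A := by
    have h6 : (1 + 14 * d / 16) ≤ (1 + d) * (1 - k) := by nlinarith
    calc (1 + 14 * d / 16) * D ≤ ((1 + d) * (1 - k)) * D := mul_le_mul_of_nonneg_right h6 hD0
      _ = (1 + d) * ((1 - k) * D) := by ring
      _ ≤ A := hq1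
  constructor
  · have h6 : (1 - e) * A - e * D ≤ M1 := by linarith
    have h7 : (1 - e) * ((1 + 14 * d / 16) * D) ≤ (1 - e) * A :=
      mul_le_mul_of_nonneg_left hq2 (by rw [he]; linarith)
    have h8 : h * M0 ≤ (1 + e) * D := by
      have : M0 ≤ (1 + e) * (MM * q) := by linarith
      calc h * M0 ≤ h * ((1 + e) * (MM * q)) := mul_le_mul_of_nonneg_left this hh
        _ = (1 + e) * D := by rw [hD]; ring
    have h9 : (1 + d / 2) * (h * M0) ≤ (1 + d / 2) * ((1 + e) * D) :=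
      mul_le_mul_of_nonneg_left h8 (by linarith)
    have h10 : (1 + d / 2) * ((1 + e) * D) ≤ (1 - e) * ((1 + 14 * d / 16) * D) - e * D := by
      have h11 : (1 + d / 2) * (1 + e) ≤ (1 - e) * (1 + 14 * d / 16) - e := by
        rw [he]; nlinarith
      have h12 := mul_le_mul_of_nonneg_right h11 hD0
      nlinarith
    linarith
  · have h6 : 0 < MM * q := by positivity
    have h7 : e ≤ 1 / 2 := by rw [he]; linarith
    nlinarith

lemma alg_deficit {d e k C Na ph q MM M0 M1 h : ℝ} (hd : 0 < d) (hd1 : d ≤ 1) (he : e = d / 16)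
    (hk : C * k ≤ d / 8) (hMM : 0 < MM) (hh : 0 ≤ h) (hq : 0 < q) (hph : 0 < ph) (hNa0 : 0 ≤ Na)
    (hNa : Na ≤ ((1 - d) + C * k) * (h * (q * ph⁻¹)))
    (h1 : |M1 - Na * (MM * ph)| ≤ e * (Na * (MM * ph) + h * (MM * q)))
    (h2 : |M0 - MM * q| ≤ e * (MM * q)) :
    M1 ≤ (1 - d / 2) * (h * M0) ∧ MM * q / 2 ≤ M0 := by
  have h3 := (abs_le.1 h1).2
  have h4 := (abs_le.1 h2).1
  set A := Na * (MM * ph) with hA
  set D := h * (MM * q) with hD
  have hD0 : 0 ≤ D := by positivity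
  have hA0 : 0 ≤ A := by positivity
  have hq2 : A ≤ (1 - 7 * d / 8) * D := by
    have h6 : Na * (MM * ph) ≤ ((1 - d) + C * k) * (h * (q * ph⁻¹)) * (MM * ph) :=
      mul_le_mul_of_nonneg_right hNa (by positivity)
    have h7 : ((1 - d) + C * k) * (h * (q * ph⁻¹)) * (MM * ph) = ((1 - d) + C * k) * D := by
      rw [hD]; field_simp
    rw [h7] at h6
    refine h6.trans (mul_le_mul_of_nonneg_right (by linarith) hD0)
  constructor
  · have h6 : M1 ≤ (1 + e) * A + e * D := by linarith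
    have h7 : (1 + e) * A ≤ (1 + e) * ((1 - 7 * d / 8) * D) :=
      mul_le_mul_of_nonneg_left hq2 (by rw [he]; linarith)
    have h8 : (1 - e) * D ≤ h * M0 := by
      have : (1 - e) * (MM * q) ≤ M0 := by linarith
      calc (1 - e) * D = h * ((1 - e) * (MM * q)) := by rw [hD]; ring
        _ ≤ h * M0 := mul_le_mul_of_nonneg_left this hh
    have h9 : (1 - d / 2) * ((1 - e) * D) ≤ (1 - d / 2) * (h * M0) :=
      mul_le_mul_of_nonneg_left h8 (by linarith)
    have h10 : (1 + e) * ((1 - 7 * d / 8) * D) + e * D ≤ (1 - d / 2) * ((1 - e) * D) := by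
      have h11 : (1 + e) * (1 - 7 * d / 8) + e ≤ (1 - d / 2) * (1 - e) := by
        rw [he]; nlinarith
      have h12 := mul_le_mul_of_nonneg_right h11 hD0
      nlinarith
    linarith
  · have h6 : 0 < MM * q := by positivity
    have h7 : e ≤ 1 / 2 := by rw [he]; linarith
    nlinarith

end Pool.Agent.H312R2.PG
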