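import Mathlib
import Pool.Agent.H312R2.PG.C4

/-! Windows with too many or too few primes. -/

open Finset Filter Topology

namespace Pool.Agent.H312R2.PG

open Pool.Agent.H378R2
open Pool.Agent.H318R2.Cr (Rgh Pz V cnt V_pos lowInt)

lemma QQ_le (X : ℝ) (S : Finset ℕ) (ps w : ℕ) : (QQ X S ps w : ℝ) ≤ Real.exp (1.4 * w) := by
  have h1 : QQ X S ps w ≤ primorial w := by
    unfold QQ primorial
    apply prod_le_prod_of_subset_of_one_le'
    · intro p hp
      rw [mem_filter, mem_PW] at hp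
      rw [mem_filter, mem_range]
      exact ⟨by omega, hp.1.2.1⟩
    · intro p hp _
      exact (mem_filter.1 hp).2.one_lt.le
  have h2 : (QQ X S ps w : ℝ) ≤ (4 : ℝ) ^ w := by
    exact_mod_cast h1.trans (primorial_le_four_pow w)
  refine h2.trans ?_
  have h3 : Real.log 4 ≤ 1.4 := by
    rw [show (4 : ℝ) = 2 ^ 2 by norm_num, Real.log_pow]
    have := Real.log_two_lt_d9
    push_cast; linarith
  calc (4 : ℝ) ^ w = Real.exp (w * Real.log 4) := by
        rw [← Real.log_pow, Real.exp_log (by positivity)]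
    _ ≤ _ := by
        apply Real.exp_le_exp.2
        have : (0 : ℝ) ≤ w := Nat.cast_nonneg _
        nlinarith

/-- asymptotic conditions in terms of `L` -/
lemma asym (B ε ε₁ Cst : ℝ) (hB : 1 < B) (hε₁ : 0 < ε₁) (hε : ε₁ ≤ ε / 4) (hε1 : ε₁ ≤ 1 / 4) (m : ℝ) :
    ∀ᶠ L : ℝ in atTop, (m ≤ L ^ ε₁ ∧ L ^ ε₁ ≤ L / 1001 ∧ 2 * (L + 2) ^ B ≤ L ^ (B + 1)) ∧
      (1.4 * L ^ ε₁ + Cst + Real.log L ≤ L ^ ε ∧ m ≤ L) := by
  have hε0 : 0 < ε := by linarith
  have a1 : ∀ᶠ L : ℝ in atTop, m ≤ L ^ ε₁ := (tendsto_rpow_atTop hε₁).eventually_ge_atTop m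
  have a2 : ∀ᶠ L : ℝ in atTop, L ^ ε₁ ≤ L / 1001 := by
    have h1 : ∀ᶠ L : ℝ in atTop, 1001 ≤ L ^ (1 - ε₁) :=
      (tendsto_rpow_atTop (by linarith)).eventually_ge_atTop _
    filter_upwards [h1, eventually_gt_atTop 0] with L h2 h3
    rw [le_div_iff₀ (by norm_num)]
    calc L ^ ε₁ * 1001 ≤ L ^ ε₁ * L ^ (1 - ε₁) := by gcongr
      _ = L := by rw [← Real.rpow_add h3]; norm_num
  have a3 : ∀ᶠ L : ℝ in atTop, 2 * (L + 2) ^ B ≤ L ^ (B + 1) := by
    filter_upwards [eventually_ge_atTop (2 * 2 ^ B), eventually_ge_atTop 2] with L h1 h2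
    calc 2 * (L + 2) ^ B ≤ 2 * (2 * L) ^ B := by
          apply mul_le_mul_of_nonneg_left _ (by norm_num)
          exact Real.rpow_le_rpow (by linarith) (by linarith) (by linarith)
      _ = (2 * 2 ^ B) * L ^ B := by rw [Real.mul_rpow (by norm_num) (by linarith)]; ring
      _ ≤ L * L ^ B := by gcongr
      _ = L ^ (B + 1) := by rw [Real.rpow_add (by linarith), Real.rpow_one]; ring
  have a4 : ∀ᶠ L : ℝ in atTop, 1.4 * L ^ ε₁ + Cst + Real.log L ≤ L ^ ε := by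
    have h1 : ∀ᶠ L : ℝ in atTop, 3 * 1.4 ≤ L ^ (ε - ε₁) :=
      (tendsto_rpow_atTop (by linarith)).eventually_ge_atTop _
    have h2 : ∀ᶠ L : ℝ in atTop, 3 * Cst ≤ L ^ ε := (tendsto_rpow_atTop hε0).eventually_ge_atTop _
    have h3 : ∀ᶠ L : ℝ in atTop, Real.log L / L ^ ε < 1 / 3 :=
      ((isLittleO_log_rpow_atTop hε0).tendsto_div_nhds_zero).eventually (gt_mem_nhds (by norm_num))
    filter_upwards [h1, h2, h3, eventually_gt_atTop 0] with L g1 g2 g3 g4
    rw [div_lt_iff₀ (by positivity)] at g3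
    have g5 : 3 * (1.4 * L ^ ε₁) ≤ L ^ ε := by
      calc 3 * (1.4 * L ^ ε₁) = (3 * 1.4) * L ^ ε₁ := by ring
        _ ≤ L ^ (ε - ε₁) * L ^ ε₁ := by gcongr
        _ = L ^ ε := by rw [← Real.rpow_add g4]; congr 1; ring
    linarith
  filter_upwards [a1, a2, a3, a4, eventually_ge_atTop m] with L b1 b2 b3 b4 b5
  exact ⟨⟨b1, b2, b3⟩, b4, b5⟩

open Classical in
theorem windows (hLM : LMratio) (hPNT : PNTdiv) (hHI : HighInt) (B : ℝ) (hB : 1 < B) (ε : ℝ) (hε : 0 < ε) :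
    ∃ δ : ℝ, 0 < δ ∧ δ < 1 ∧ ∃ X0 : ℝ, ∀ X : ℝ, X0 ≤ X → ∀ h : ℕ,
      (Real.log X) ^ B / 2 ≤ h → (h : ℝ) ≤ 2 * (Real.log X + 2) ^ B →
      4 * X * Real.exp (-(Real.log X) ^ ε) ≤
        #{n ∈ Icc 1 ⌊3 * X⌋₊ | X < ((n : ℕ) : ℝ) ∧ (1 + δ) * h ≤ TT h n} ∧
      4 * X * Real.exp (-(Real.log X) ^ ε) ≤
        #{n ∈ Icc 1 ⌊3 * X⌋₊ | X < ((n : ℕ) : ℝ) ∧ TT h n ≤ (1 - δ) * h} := by
  obtain ⟨CN, UN, hCN, hUN, hNa⟩ := Na_le
  set ε₁ := min ε 1 / (4 * UN) with hε₁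
  have hε₁p : 0 < ε₁ := by
    have : 0 < min ε 1 := lt_min hε one_pos
    positivity
  have hm0 : 0 < min ε 1 := lt_min hε one_pos
  have hUε : UN * ε₁ ≤ 1 / 4 := by
    rw [hε₁]
    have : UN * (min ε 1 / (4 * UN)) = min ε 1 / 4 := by field_simp
    rw [this]
    have := min_le_right ε 1
    linarith
  have hε14 : ε₁ ≤ min ε 1 / 4 := by
    rw [hε₁]
    apply div_le_div_of_nonneg_left hm0.le (by norm_num) (by linarith)
  have hε₁a : ε₁ ≤ ε / 4 := hε14.trans (by have := min_le_left ε 1; linarith)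
  have hε₁b : ε₁ ≤ 1 / 4 := hε14.trans (by have := min_le_right ε 1; linarith)
  set U₀ := 2 * (B + 1) / ε₁ with hU₀
  obtain ⟨d1, hd1, K1, z1, hHigh⟩ := hHI U₀
  obtain ⟨d2, hd2, hd2', K2, z2', hK2, hLow⟩ := lowInt U₀
  set d := min (min d1 d2) 1 with hd
  have hdp : 0 < d := lt_min (lt_min hd1 hd2) one_pos
  have hdd1 : d ≤ d1 := (min_le_left _ _).trans (min_le_left _ _)
  have hdd2 : d ≤ d2 := (min_le_left _ _).trans (min_le_right _ _)
  have hd1' : d ≤ 1 := min_le_right _ _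
  set κ := d / (32 * (CN + 1)) with hκ
  have hκp : 0 < κ := by positivity
  set Z := ⌈1 / κ⌉₊ with hZ
  have hZ1 : 1 / κ ≤ Z := Nat.le_ceil _
  have hZ0 : 0 < Z := by
    rw [hZ, Nat.ceil_pos]; positivity
  have hZ0' : (0 : ℝ) < Z := by exact_mod_cast hZ0
  have hZκ : 1 / (Z : ℝ) ≤ κ := by
    rw [div_le_iff₀ hZ0']
    rw [div_le_iff₀ hκp] at hZ1
    linarith
  set e := d / 16 with he
  have hep : 0 < e := by positivity
  obtain ⟨X1, hFM⟩ := first_moment hLM hPNT Z e hep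
  have tL : Tendsto (fun X : ℝ => Real.log X) atTop atTop := Real.tendsto_log_atTop
  have c1 := tL.eventually (asym B ε ε₁ (Real.log (640 / d)) hB hε₁p hε₁a hε₁b ((z1 : ℝ) + z2' + 8))
  have c2 : ∀ᶠ X : ℝ in atTop, 6 / (Real.log (Real.log X)) ^ 2 ≤ κ := by
    have h1 : ∀ᶠ X : ℝ in atTop, max 1 (6 / κ) ≤ Real.log (Real.log X) :=
      (Real.tendsto_log_atTop.comp tL).eventually_ge_atTop _
    filter_upwards [h1] with X h2
    have h3 : 1 ≤ Real.log (Real.log X) := (le_max_left _ _).trans h2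
    have h4 : 6 / κ ≤ Real.log (Real.log X) := (le_max_right _ _).trans h2
    rw [div_le_iff₀ hκp] at h4
    rw [div_le_iff₀ (by positivity)]
    nlinarith
  have c3 : ∀ᶠ X : ℝ in atTop, (Real.log X) ^ (B + 1) ≤ Real.sqrt X := by
    have h1 := (isLittleO_log_rpow_rpow_atTop (B + 1) (by norm_num : (0 : ℝ) < 1 / 2)).bound (one_pos)
    filter_upwards [h1, eventually_ge_atTop 1] with X h2 h3
    rw [one_mul, Real.norm_of_nonneg (Real.rpow_nonneg (Real.log_nonneg h3) _),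
      Real.norm_of_nonneg (by positivity), ← Real.sqrt_eq_rpow] at h2
    exact h2
  obtain ⟨X2, hX2⟩ := eventually_atTop.1 (c1.and (c2.and c3))
  refine ⟨d / 4, by positivity, by linarith, max X1 (max X2 40), fun X hX h hh1 hh2 => ?_⟩
  have hXa : X1 ≤ X := (le_max_left _ _).trans hX
  have hXb : X2 ≤ X := (le_max_left _ _).trans ((le_max_right _ _).trans hX)
  have hXc : 40 ≤ X := (le_max_right _ _).trans ((le_max_right _ _).trans hX)
  obtain ⟨⟨⟨f1, f2, f3⟩, f4, f5⟩, f6, f7⟩ := hX2 X hXb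
  obtain ⟨ps, S, hps, hS, hM⟩ := hFM X hXa
  set L := Real.log X with hL
  have hXp : 0 < X := by linarith
  have hz1 : (0 : ℝ) ≤ z1 := Nat.cast_nonneg _
  have hz2 : (0 : ℝ) ≤ z2' := Nat.cast_nonneg _
  have hL8 : 8 ≤ L := by linarith
  have hLp : 0 < L := by linarith
  set w := ⌊L ^ ε₁⌋₊ with hw
  have hwle : (w : ℝ) ≤ L ^ ε₁ := Nat.floor_le (by positivity)
  have hwge : L ^ ε₁ < w + 1 := Nat.lt_floor_add_one _
  have hwz1 : z1 ≤ w := Nat.le_floor (by linarith)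
  have hwz2 : z2' ≤ w := Nat.le_floor (by linarith)
  have hw2 : 2 ≤ w := Nat.le_floor (by push_cast; linarith)
  have hw2' : (2 : ℝ) ≤ w := by exact_mod_cast hw2
  have hwyy : w ≤ yy X := by
    unfold yy
    apply Nat.floor_le_floor
    rw [← hL]
    linarith
  have hhB : (h : ℝ) ≤ L ^ (B + 1) := hh2.trans f3
  have hLB : L ≤ L ^ B := by
    calc L = L ^ (1 : ℝ) := (Real.rpow_one _).symm
      _ ≤ L ^ B := Real.rpow_le_rpow_of_exponent_le (by linarith) hB.le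
  have hh4 : (4 : ℝ) ≤ h := by linarith
  have hh1n : 1 ≤ h := by
    have : (1 : ℝ) ≤ h := by linarith
    exact_mod_cast this
  have hhp : (0 : ℝ) < h := by linarith
  have hhw : (h : ℝ) ≤ (w : ℝ) ^ U₀ := by
    have h1 : L ^ (ε₁ / 2) ≤ w := by
      have h2 : L ^ ε₁ = L ^ (ε₁ / 2) * L ^ (ε₁ / 2) := by rw [← Real.rpow_add hLp]; congr 1; ring
      have h3 : 1 ≤ L ^ (ε₁ / 2) := Real.one_le_rpow (by linarith) (by positivity)
      have h4 : 2 ≤ L ^ (ε₁ / 2) := by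
        by_contra hcon
        push Not at hcon
        have h5 : L ^ (ε₁ / 2) * L ^ (ε₁ / 2) < 8 := by nlinarith only [h3, hcon]
        linarith only [h2, h5, f1, hz1, hz2]
      have h5 : 2 * L ^ (ε₁ / 2) ≤ L ^ (ε₁ / 2) * L ^ (ε₁ / 2) := mul_le_mul_of_nonneg_right h4 (by linarith only [h3])
      linarith only [h2, h4, h5, hwge]
    calc (h : ℝ) ≤ L ^ (B + 1) := hhB
      _ = (L ^ (ε₁ / 2)) ^ U₀ := by
        rw [← Real.rpow_mul hLp.le, hU₀]; congr 1; field_simp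
      _ ≤ (w : ℝ) ^ U₀ := by
        apply Real.rpow_le_rpow (by positivity) h1
        rw [hU₀]; positivity
  have hsq : (h : ℝ) ≤ Real.sqrt X := hhB.trans f7
  have hUw : UN * Real.log w ≤ Real.log h := by
    have h1 : Real.log w ≤ ε₁ * Real.log L := by
      rw [← Real.log_rpow hLp]
      exact Real.log_le_log (by linarith) hwle
    have hlL : 0 < Real.log L := Real.log_pos (by linarith)
    have h2 : UN * Real.log w ≤ (1 / 4) * Real.log L := by
      calc UN * Real.log w ≤ UN * (ε₁ * Real.log L) := mul_le_mul_of_nonneg_left h1 (by linarith)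
        _ = (UN * ε₁) * Real.log L := by ring
        _ ≤ _ := mul_le_mul_of_nonneg_right hUε hlL.le
    have h3 : Real.log (L ^ (1 / 4 : ℝ)) ≤ Real.log h := by
      apply Real.log_le_log (by positivity)
      have h4 : L ^ (1 / 4 : ℝ) ≤ L ^ (1 / 2 : ℝ) := Real.rpow_le_rpow_of_exponent_le (by linarith) (by norm_num)
      have h5 : L ^ (1 / 2 : ℝ) ≤ L / 2 := by
        rw [← Real.sqrt_eq_rpow]
        rw [Real.sqrt_le_left (by linarith only [hLp])]
        nlinarith only [hL8]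
      linarith only [h4, h5, hLB, hh1]
    rw [Real.log_rpow hLp] at h3
    linarith
  set Q := QQ X S ps w with hQ
  have hQ0 : 0 < Q := QQ_pos X S ps w
  have hQ0' : (0 : ℝ) < Q := by exact_mod_cast hQ0
  have hphi : (0 : ℝ) < (Q.totient : ℝ) := by exact_mod_cast Nat.totient_pos.2 hQ0
  have hvQ : vQ Q w = (1 / (Q : ℝ)) * ((1 / (Q.totient : ℝ)))⁻¹ := by
    rw [hQ, vQ_totient]
    field_simp
  have hmiss := miss_sum hZ0 hwyy hS hps
  rw [← hQ] at hmiss
  have hmiss2 : ∑ p ∈ miss Q w, 1 / (p : ℝ) ≤ 2 * κ := by linarith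
  have hmiss0 : 0 ≤ ∑ p ∈ miss Q w, 1 / (p : ℝ) := sum_nonneg fun _ _ => by positivity
  have hκ1 : 2 * κ ≤ d / 16 := by
    have h1 : 2 * κ = (d / 16) * (1 / (CN + 1)) := by rw [hκ]; field_simp; norm_num
    have h2 : 1 / (CN + 1) ≤ 1 := by rw [div_le_one (by linarith only [hCN])]; linarith only [hCN]
    rw [h1]
    exact mul_le_of_le_one_right (by positivity) h2
  have hκ2 : CN * (2 * κ) ≤ d / 8 := by
    have : CN * (2 * κ) = (d / 16) * (CN / (CN + 1)) := by rw [hκ]; field_simp; ring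
    rw [this]
    have h1 : CN / (CN + 1) ≤ 1 := by rw [div_le_one (by linarith only [hCN])]; linarith only [hCN]
    have h2 : (d / 16) * (CN / (CN + 1)) ≤ d / 16 := mul_le_of_le_one_right (by positivity) h1
    linarith only [h2, hdp]
  have hMP := MPhi_ge X hXc
  have hMPp : 0 < MPhi X := by linarith
  have hlog4X : Real.log (4 * X) ≤ 2 * L := by
    rw [Real.log_mul (by norm_num) hXp.ne']
    have : Real.log 4 ≤ 2 := by
      rw [show (4 : ℝ) = 2 ^ 2 by norm_num, Real.log_pow]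
      have := Real.log_two_lt_d9
      push_cast; linarith
    linarith
  have hlog4Xp : 0 < Real.log (4 * X) := Real.log_pos (by linarith)
  have hV := V_pos w
  -- the final lower bound
  have hfin : 4 * X * Real.exp (-L ^ ε) * Real.log (4 * X) ≤ d / 2 * (MPhi X * (1 / (Q : ℝ)) / 2) ∧
      4 * X * Real.exp (-L ^ ε) ≤ d / 2 * (MPhi X * (1 / (Q : ℝ)) / 2) := by
    have h1 : (Q : ℝ) ≤ Real.exp (1.4 * L ^ ε₁) := by
      refine (QQ_le X S ps w).trans (Real.exp_le_exp.2 ?_)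
      linarith
    have h2 : Q * ((640 / d) * L) ≤ Real.exp (L ^ ε) := by
      calc Q * ((640 / d) * L) ≤ Real.exp (1.4 * L ^ ε₁) * (Real.exp (Real.log (640 / d)) * Real.exp (Real.log L)) := by
            rw [Real.exp_log (by positivity), Real.exp_log hLp]
            gcongr
        _ = Real.exp (1.4 * L ^ ε₁ + Real.log (640 / d) + Real.log L) := by
            rw [← Real.exp_add, ← Real.exp_add]; congr 1; ring
        _ ≤ Real.exp (L ^ ε) := Real.exp_le_exp.2 f4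
    have h3 : Real.exp (-L ^ ε) ≤ (Q * ((640 / d) * L))⁻¹ := by
      rw [Real.exp_neg]
      exact inv_anti₀ (by positivity) h2
    have h4 : 4 * X * Real.exp (-L ^ ε) * (2 * L) ≤ d / 2 * (MPhi X * (1 / (Q : ℝ)) / 2) := by
      calc 4 * X * Real.exp (-L ^ ε) * (2 * L) ≤ 4 * X * (Q * ((640 / d) * L))⁻¹ * (2 * L) := by gcongr
        _ = d / 2 * (X / 20 * (1 / (Q : ℝ)) / 2) := by field_simp; norm_num
        _ ≤ d / 2 * (MPhi X * (1 / (Q : ℝ)) / 2) := by gcongr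
    have h5 : 0 ≤ 4 * X * Real.exp (-L ^ ε) := by positivity
    constructor
    · exact (mul_le_mul_of_nonneg_left hlog4X h5).trans h4
    · refine le_trans ?_ h4
      exact le_mul_of_one_le_right h5 (by linarith)
  constructor
  · -- surplus
    obtain ⟨a, _, ha⟩ := hHigh w hwz1 h hh1n hhw
    obtain ⟨m1, m2⟩ := hM Q (QQ_dvd X S ps w) a h hsq
    have hNa1 : (1 + d) * ((1 - 2 * κ) * (h * ((1 / (Q : ℝ)) * ((1 / (Q.totient : ℝ)))⁻¹))) ≤ Na Q a h := by
      rw [← hvQ]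
      have h1 : (1 - 2 * κ) * vQ Q w ≤ V w := by
        refine le_trans ?_ (V_ge_vQ Q w)
        apply mul_le_mul_of_nonneg_right _ (vQ_pos Q w).le
        linarith
      have h2 : (cnt w a h : ℝ) ≤ Na Q a h := by exact_mod_cast cnt_le_Na X S ps w a h
      calc (1 + d) * ((1 - 2 * κ) * (h * vQ Q w)) = (1 + d) * (h * ((1 - 2 * κ) * vQ Q w)) := by ring
        _ ≤ (1 + d1) * (h * V w) := by
          apply mul_le_mul (by linarith) (mul_le_mul_of_nonneg_left h1 hhp.le) _ (by linarith)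
          have h3 : 0 ≤ 1 - 2 * κ := by linarith
          have := vQ_pos Q w
          positivity
        _ ≤ cnt w a h := ha
        _ ≤ _ := h2
    obtain ⟨n1, n2⟩ := alg_surplus (M1 := ∑ n ∈ Icc 1 ⌊3 * X⌋₊, nu X Q a n * TT h n)
      (M0 := ∑ n ∈ Icc 1 ⌊3 * X⌋₊, nu X Q a n) hdp hd1' he hκ1 hMPp hhp.le
      (show (0 : ℝ) < 1 / (Q : ℝ) by positivity) (show (0 : ℝ) < 1 / (Q.totient : ℝ) by positivity) hNa1 m1 m2
    have h3 := surplus_count (β := d / 2) (by linarith : (1 : ℝ) ≤ X) (by positivity) hh1n hsq n1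
    have h4 : (1 : ℝ) + d / 2 / 2 = 1 + d / 4 := by ring
    rw [h4] at h3
    have h5 : 4 * X * Real.exp (-L ^ ε) * Real.log (4 * X) ≤
        #{n ∈ Icc 1 ⌊3 * X⌋₊ | X < ((n : ℕ) : ℝ) ∧ (1 + d / 4) * h ≤ TT h n} * Real.log (4 * X) := by
      refine hfin.1.trans (le_trans ?_ h3)
      exact mul_le_mul_of_nonneg_left n2 (by positivity)
    exact le_of_mul_le_mul_right h5 hlog4Xp
  · -- deficit
    obtain ⟨a, _, ha⟩ := hLow w hwz2 h hh1n hhw
    obtain ⟨m1, m2⟩ := hM Q (QQ_dvd X S ps w) a h hsq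
    have hNa1 : (Na Q a h : ℝ) ≤ ((1 - d) + CN * (2 * κ)) * (h * ((1 / (Q : ℝ)) * ((1 / (Q.totient : ℝ)))⁻¹)) := by
      rw [← hvQ]
      have h1 := hNa Q w a h hw2 hUw
      have hv := vQ_pos Q w
      have h2 : (cnt w a h : ℝ) ≤ (1 - d) * (h * vQ Q w) := by
        calc (cnt w a h : ℝ) ≤ (1 - d2) * (h * V w) := ha
          _ ≤ (1 - d2) * (h * vQ Q w) := by
            apply mul_le_mul_of_nonneg_left _ (by linarith)
            exact mul_le_mul_of_nonneg_left (V_le_vQ Q w) hhp.le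
          _ ≤ (1 - d) * (h * vQ Q w) := by
            apply mul_le_mul_of_nonneg_right (by linarith) (by positivity)
      have h3 : CN * (∑ p ∈ miss Q w, 1 / (p : ℝ)) * (h * vQ Q w) ≤ CN * (2 * κ) * (h * vQ Q w) := by
        gcongr
      calc (Na Q a h : ℝ) ≤ (1 - d) * (h * vQ Q w) + CN * (2 * κ) * (h * vQ Q w) := by linarith
        _ = _ := by ring
    obtain ⟨n1, n2⟩ := alg_deficit (M1 := ∑ n ∈ Icc 1 ⌊3 * X⌋₊, nu X Q a n * TT h n)
      (M0 := ∑ n ∈ Icc 1 ⌊3 * X⌋₊, nu X Q a n) hdp hd1' he hκ2 hMPp hhp.le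
      (show (0 : ℝ) < 1 / (Q : ℝ) by positivity) (show (0 : ℝ) < 1 / (Q.totient : ℝ) by positivity)
      (Nat.cast_nonneg _) hNa1 m1 m2
    have h3 := deficit_count (β := d / 2) (by linarith : (1 : ℝ) ≤ X) (by positivity) (by linarith) hh1n n1
    have h4 : (1 : ℝ) - d / 2 / 2 = 1 - d / 4 := by ring
    rw [h4] at h3
    refine hfin.2.trans (le_trans ?_ h3)
    exact mul_le_mul_of_nonneg_left n2 (by positivity)

end Pool.Agent.H312R2.PG
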