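import Mathlib
import Pool.Agent.H312R2.PG.C5

/-! Frequency of Maier irregularities. -/

open Finset Filter Topology

namespace Pool.Agent.H312R2.PG

open Pool.Agent.H378R2

/-- number of primes in `(n, n+h]` -/
noncomputable def np (n h : ℕ) : ℕ := #{p ∈ Ioc n (n + h) | p.Prime}

lemma np_eq (n h : ℕ) : np n h = #{s ∈ Icc 1 h | (n + s).Prime} := by
  unfold np
  symm
  apply card_bij (fun s _ => n + s)
  · intro s hs
    rw [mem_filter, mem_Icc] at hs
    rw [mem_filter, mem_Ioc]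
    exact ⟨⟨by omega, by omega⟩, hs.2⟩
  · intro s _ t _ h; omega
  · intro p hp
    rw [mem_filter, mem_Ioc] at hp
    refine ⟨p - n, ?_, by omega⟩
    rw [mem_filter, mem_Icc]
    refine ⟨⟨by omega, by omega⟩, ?_⟩
    rw [show n + (p - n) = p by omega]; exact hp.2

lemma np_mono {n h h' : ℕ} (hh : h ≤ h') : np n h ≤ np n h' := by
  unfold np
  apply card_le_card
  intro p hp
  rw [mem_filter, mem_Ioc] at hp ⊢
  exact ⟨⟨hp.1.1, by omega⟩, hp.2⟩

lemma TT_le_np {n h : ℕ} {M : ℝ} (hn : 1 ≤ n) (hM : ((n + h : ℕ) : ℝ) ≤ M) : TT h n ≤ np n h * Real.log M := by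
  rw [np_eq]
  unfold TT
  have h1 : ∀ s ∈ Icc 1 h, th (n + s) ≤ if (n + s).Prime then Real.log M else 0 := by
    intro s hs
    rw [mem_Icc] at hs
    unfold th
    split_ifs
    · apply Real.log_le_log
      · exact_mod_cast (by omega : 0 < n + s)
      · refine le_trans ?_ hM
        exact_mod_cast (by omega : n + s ≤ n + h)
    · exact le_rfl
  refine (sum_le_sum h1).trans ?_
  rw [← sum_filter, sum_const, nsmul_eq_mul]

lemma np_le_TT {n h : ℕ} (hn : 1 ≤ n) : np n h * Real.log n ≤ TT h n := by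
  rw [np_eq]
  unfold TT
  have h1 : ∀ s ∈ Icc 1 h, (if (n + s).Prime then Real.log n else 0) ≤ th (n + s) := by
    intro s hs
    unfold th
    split_ifs
    · apply Real.log_le_log
      · exact_mod_cast (by omega : 0 < n)
      · exact_mod_cast (by omega : n ≤ n + s)
    · exact le_rfl
  refine le_trans ?_ (sum_le_sum h1)
  rw [← sum_filter, sum_const, nsmul_eq_mul]

/-- comparison of scales -/
lemma scale (B δ : ℝ) (hB : 1 < B) (hδ : 0 < δ) (hδ1 : δ < 1) :
    ∀ᶠ L : ℝ in atTop, (1 + δ / 2) * (L + 2) ^ (B - 1) * (L + 2) ≤ (1 + δ) * (L ^ B - 1) ∧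
      (1 - δ) * ((L + 2) ^ B + 1) ≤ (1 - δ / 2) * L ^ (B - 1) * L ∧
      (L + 2) ^ B + 1 ≤ 2 * (L + 2) ^ B ∧ L ^ B / 2 ≤ L ^ B - 1 := by
  have h1 : Tendsto (fun L : ℝ => ((L + 2) / L) ^ B) atTop (𝓝 1) := by
    have h2 : Tendsto (fun L : ℝ => (L + 2) / L) atTop (𝓝 1) := by
      have h3 : Tendsto (fun L : ℝ => 1 + 2 / L) atTop (𝓝 (1 + 0)) :=
        tendsto_const_nhds.add (tendsto_const_nhds.div_atTop tendsto_id)
      rw [add_zero] at h3
      refine h3.congr' ?_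
      filter_upwards [eventually_gt_atTop 0] with L hL
      field_simp
    have h3 := h2.rpow_const (p := B) (Or.inl one_ne_zero)
    rwa [Real.one_rpow] at h3
  have hr : Tendsto (fun L : ℝ => L ^ B) atTop atTop := tendsto_rpow_atTop (by linarith)
  have e1 := h1.eventually (gt_mem_nhds (show (1 : ℝ) < 1 + δ / 8 by linarith))
  have e2 := hr.eventually_ge_atTop (16 / δ + 2)
  filter_upwards [e1, e2, eventually_gt_atTop 1] with L g1 g2 g3
  have hLp : 0 < L := by linarith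
  have hLB : 0 < L ^ B := by positivity
  have g4 : (L + 2) ^ B ≤ (1 + δ / 8) * L ^ B := by
    rw [Real.div_rpow (by linarith) hLp.le, div_lt_iff₀ hLB] at g1
    exact g1.le
  have g5 : (L + 2) ^ (B - 1) * (L + 2) = (L + 2) ^ B := by
    rw [Real.rpow_sub (by linarith), Real.rpow_one]; field_simp
  have g6 : L ^ (B - 1) * L = L ^ B := by
    rw [Real.rpow_sub hLp, Real.rpow_one]; field_simp
  have g7 : 16 ≤ δ * L ^ B := by
    have : 16 / δ ≤ L ^ B := by linarith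
    rw [div_le_iff₀ hδ] at this
    linarith
  have g8 : 1 ≤ (L + 2) ^ B := Real.one_le_rpow (by linarith) (by linarith)
  have g9 : 2 ≤ L ^ B := by
    have : 0 < 16 / δ := by positivity
    linarith
  refine ⟨?_, ?_, by linarith, by linarith⟩
  · rw [mul_assoc, g5]
    have a1 : (1 + δ / 2) * (L + 2) ^ B ≤ (1 + δ / 2) * ((1 + δ / 8) * L ^ B) := by gcongr
    have a2 : (1 + δ / 2) * ((1 + δ / 8) * L ^ B) ≤ (1 + δ) * (L ^ B - 1) := by
      have a3 : (1 + δ / 2) * (1 + δ / 8) ≤ 1 + 11 * δ / 16 := by nlinarith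
      have a4 : (1 + δ / 2) * (1 + δ / 8) * L ^ B ≤ (1 + 11 * δ / 16) * L ^ B :=
        mul_le_mul_of_nonneg_right a3 hLB.le
      nlinarith
    linarith
  · rw [mul_assoc, g6]
    have a1 : (1 - δ) * ((L + 2) ^ B + 1) ≤ (1 - δ) * ((1 + δ / 8) * L ^ B + 1) := by
      apply mul_le_mul_of_nonneg_left _ (by linarith)
      linarith
    have a2 : (1 - δ) * ((1 + δ / 8) * L ^ B + 1) ≤ (1 - δ / 2) * L ^ B := by
      have a3 : (1 - δ) * (1 + δ / 8) ≤ 1 - 7 * δ / 8 := by nlinarith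
      have a4 : (1 - δ) * (1 + δ / 8) * L ^ B ≤ (1 - 7 * δ / 8) * L ^ B :=
        mul_le_mul_of_nonneg_right a3 hLB.le
      nlinarith
    linarith

theorem T1_of (hLM : LMratio) (hPNT : PNTdiv) (hHI : HighInt) (B : ℝ) (hB : 1 < B) (ε : ℝ) (hε : 0 < ε) :
    ∃ δ : ℝ, 0 < δ ∧ ∃ x₀ : ℕ, ∀ x : ℕ, x₀ ≤ x →
      x * Real.exp (-(Real.log x) ^ ε) ≤
        #{n ∈ Icc 1 x | (1 + δ) * (Real.log ((n : ℕ) : ℝ)) ^ (B - 1) ≤ (np n ⌊(Real.log ((n : ℕ) : ℝ)) ^ B⌋₊ : ℝ)} ∧
      x * Real.exp (-(Real.log x) ^ ε) ≤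
        #{n ∈ Icc 1 x | (np n ⌊(Real.log ((n : ℕ) : ℝ)) ^ B⌋₊ : ℝ) ≤ (1 - δ) * (Real.log ((n : ℕ) : ℝ)) ^ (B - 1)} := by
  classical
  obtain ⟨δ, hδ, hδ1, X0, hX0⟩ := windows hLM hPNT hHI B hB ε hε
  have tL : Tendsto (fun x : ℕ => Real.log ((x : ℝ) / 4)) atTop atTop :=
    Real.tendsto_log_atTop.comp (tendsto_natCast_atTop_atTop.atTop_div_const (by norm_num))
  have c1 := tL.eventually (scale B δ hB hδ hδ1)
  have c2 : ∀ᶠ x : ℕ in atTop, max X0 100 ≤ (x : ℝ) / 4 :=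
    (tendsto_natCast_atTop_atTop.atTop_div_const (by norm_num : (0 : ℝ) < 4)).eventually_ge_atTop _
  have c3 : ∀ᶠ x : ℕ in atTop, 2 * (Real.log ((x : ℝ) / 4) + 2) ^ B ≤ (x : ℝ) / 4 := by
    have h1 : ∀ᶠ X : ℝ in atTop, (Real.log X) ^ (B + 1) ≤ X := by
      have h1 := (isLittleO_log_rpow_rpow_atTop (B + 1) (by norm_num : (0 : ℝ) < 1)).bound (one_pos)
      filter_upwards [h1, eventually_ge_atTop 1] with X h2 h3
      rw [one_mul, Real.norm_of_nonneg (Real.rpow_nonneg (Real.log_nonneg h3) _),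
        Real.norm_of_nonneg (by positivity), Real.rpow_one] at h2
      exact h2
    have h2 := (tendsto_natCast_atTop_atTop.atTop_div_const (by norm_num : (0 : ℝ) < 4)).eventually h1
    have h3 := tL.eventually (asym B 1 (1 / 4) 0 hB (by norm_num) (by norm_num) (by norm_num) 1)
    filter_upwards [h2, h3] with x g1 g2
    exact g2.1.2.2.trans g1
  obtain ⟨x1, hx1⟩ := eventually_atTop.1 (c1.and (c2.and c3))
  refine ⟨δ / 2, by positivity, max x1 1, fun x hx => ?_⟩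
  obtain ⟨⟨f1, f2, f3, f4⟩, f5, f6⟩ := hx1 x ((le_max_left _ _).trans hx)
  set X : ℝ := (x : ℝ) / 4 with hX
  set L := Real.log X with hL
  have hXX0 : X0 ≤ X := (le_max_left _ _).trans f5
  have hX100 : 100 ≤ X := (le_max_right _ _).trans f5
  have hXp : 0 < X := by linarith
  have hx4 : (x : ℝ) = 4 * X := by rw [hX]; ring
  have hlog4 : Real.log 4 ≤ 2 := by
    rw [show (4 : ℝ) = 2 ^ 2 by norm_num, Real.log_pow]
    have := Real.log_two_lt_d9
    push_cast; linarith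
  have hlog4' : 0 ≤ Real.log 4 := Real.log_nonneg (by norm_num)
  have hL1 : 4 ≤ L := by
    rw [hL, Real.le_log_iff_exp_le hXp]
    have h1 : Real.exp 4 = (Real.exp 1) ^ 4 := by rw [← Real.exp_nat_mul]; norm_num
    rw [h1]
    have h2 := Real.exp_one_lt_d9
    have h3 := Real.exp_pos 1
    have h4 : (Real.exp 1) ^ 4 ≤ 2.7182818286 ^ 4 := by gcongr
    have h5 : (2.7182818286 : ℝ) ^ 4 ≤ 100 := by norm_num
    linarith
  have hLp : 0 < L := by linarith
  have hlogx : Real.log x = L + Real.log 4 := by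
    rw [hx4, Real.log_mul (by norm_num) hXp.ne']; ring
  have hexp : x * Real.exp (-(Real.log x) ^ ε) ≤ 4 * X * Real.exp (-L ^ ε) := by
    rw [hx4]
    apply mul_le_mul_of_nonneg_left _ (by linarith)
    apply Real.exp_le_exp.2
    have : L ^ ε ≤ (Real.log (4 * X)) ^ ε := by
      apply Real.rpow_le_rpow hLp.le _ hε.le
      rw [← hx4, hlogx]; linarith
    linarith
  have h3X : ⌊3 * X⌋₊ ≤ x := by
    have h1 : (⌊3 * X⌋₊ : ℝ) ≤ 3 * X := Nat.floor_le (by linarith)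
    have h2 : (⌊3 * X⌋₊ : ℝ) ≤ x := by linarith
    exact_mod_cast h2
  have hlogn : ∀ n : ℕ, X < n → n ≤ ⌊3 * X⌋₊ → L ≤ Real.log n ∧ Real.log n ≤ L + 2 := by
    intro n h1 h2
    have h3 : (n : ℝ) ≤ 3 * X := le_trans (by exact_mod_cast h2) (Nat.floor_le (by linarith))
    refine ⟨Real.log_le_log hXp h1.le, ?_⟩
    have h4 : Real.log n ≤ Real.log (4 * X) := Real.log_le_log (by linarith) (by linarith)
    rw [Real.log_mul (by norm_num) hXp.ne'] at h4
    linarith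
  constructor
  · -- surplus
    set h := ⌊L ^ B⌋₊ with hh
    have hle : (h : ℝ) ≤ L ^ B := Nat.floor_le (by positivity)
    have hge : L ^ B < h + 1 := Nat.lt_floor_add_one _
    have hLB2 : L ^ B ≤ (L + 2) ^ B := Real.rpow_le_rpow hLp.le (by linarith) (by linarith)
    have hLB0 : 0 < (L + 2) ^ B := by positivity
    obtain ⟨g1, _⟩ := hX0 X hXX0 h (by linarith) (by linarith)
    refine hexp.trans (g1.trans ?_)
    have hsub : {n ∈ Icc 1 ⌊3 * X⌋₊ | X < ((n : ℕ) : ℝ) ∧ (1 + δ) * h ≤ TT h n} ⊆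
        {n ∈ Icc 1 x | (1 + δ / 2) * (Real.log ((n : ℕ) : ℝ)) ^ (B - 1) ≤ (np n ⌊(Real.log ((n : ℕ) : ℝ)) ^ B⌋₊ : ℝ)} := by
      intro n hn
      rw [mem_filter, mem_Icc] at hn
      obtain ⟨⟨n1, n2⟩, n3, n4⟩ := hn
      obtain ⟨l1, l2⟩ := hlogn n n3 n2
      rw [mem_filter, mem_Icc]
      refine ⟨⟨n1, n2.trans h3X⟩, ?_⟩
      have h1 : h ≤ ⌊(Real.log (n : ℝ)) ^ B⌋₊ := by
        apply Nat.floor_le_floor
        exact Real.rpow_le_rpow hLp.le l1 (by linarith)
      have h2 : (np n h : ℝ) ≤ np n ⌊(Real.log (n : ℝ)) ^ B⌋₊ := by exact_mod_cast np_mono h1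
      refine le_trans ?_ h2
      have h3 : ((n + h : ℕ) : ℝ) ≤ 4 * X := by
        push_cast
        have : (n : ℝ) ≤ 3 * X := le_trans (by exact_mod_cast n2) (Nat.floor_le (by linarith))
        linarith
      have h4 := TT_le_np n1 h3
      have h5 : Real.log (4 * X) ≤ L + 2 := by
        rw [Real.log_mul (by norm_num) hXp.ne']; linarith
      have h6 : (1 + δ / 2) * (L + 2) ^ (B - 1) * (L + 2) ≤ np n h * (L + 2) := by
        have h7 : (1 + δ) * (L ^ B - 1) ≤ (1 + δ) * h := by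
          apply mul_le_mul_of_nonneg_left _ (by linarith)
          linarith
        have h8 : (np n h : ℝ) * Real.log (4 * X) ≤ np n h * (L + 2) :=
          mul_le_mul_of_nonneg_left h5 (Nat.cast_nonneg _)
        linarith
      have h9 := le_of_mul_le_mul_right h6 (by linarith)
      refine le_trans ?_ h9
      apply mul_le_mul_of_nonneg_left _ (by linarith)
      exact Real.rpow_le_rpow (by linarith) l2 (by linarith)
    exact_mod_cast card_le_card hsub
  · -- deficit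
    set h := ⌈(L + 2) ^ B⌉₊ with hh
    have hle : (L + 2) ^ B ≤ (h : ℝ) := Nat.le_ceil _
    have hge : (h : ℝ) < (L + 2) ^ B + 1 := Nat.ceil_lt_add_one (by positivity)
    have hLB2 : L ^ B ≤ (L + 2) ^ B := Real.rpow_le_rpow hLp.le (by linarith) (by linarith)
    have hLB0 : 0 < L ^ B := by positivity
    obtain ⟨_, g1⟩ := hX0 X hXX0 h (by linarith) (by linarith)
    refine hexp.trans (g1.trans ?_)
    have hsub : {n ∈ Icc 1 ⌊3 * X⌋₊ | X < ((n : ℕ) : ℝ) ∧ TT h n ≤ (1 - δ) * h} ⊆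
        {n ∈ Icc 1 x | (np n ⌊(Real.log ((n : ℕ) : ℝ)) ^ B⌋₊ : ℝ) ≤ (1 - δ / 2) * (Real.log ((n : ℕ) : ℝ)) ^ (B - 1)} := by
      intro n hn
      rw [mem_filter, mem_Icc] at hn
      obtain ⟨⟨n1, n2⟩, n3, n4⟩ := hn
      obtain ⟨l1, l2⟩ := hlogn n n3 n2
      rw [mem_filter, mem_Icc]
      refine ⟨⟨n1, n2.trans h3X⟩, ?_⟩
      have h1 : ⌊(Real.log (n : ℝ)) ^ B⌋₊ ≤ h := by
        have h2 : (Real.log (n : ℝ)) ^ B ≤ h := by
          refine le_trans ?_ hle
          exact Real.rpow_le_rpow (by linarith) l2 (by linarith)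
        have h3 : (⌊(Real.log (n : ℝ)) ^ B⌋₊ : ℝ) ≤ (Real.log (n : ℝ)) ^ B :=
          Nat.floor_le (Real.rpow_nonneg (by linarith) _)
        exact_mod_cast h3.trans h2
      have h2 : (np n ⌊(Real.log (n : ℝ)) ^ B⌋₊ : ℝ) ≤ np n h := by exact_mod_cast np_mono h1
      refine h2.trans ?_
      have h4 := np_le_TT (h := h) n1
      have h6 : (np n h : ℝ) * L ≤ (1 - δ / 2) * L ^ (B - 1) * L := by
        have h7 : (1 - δ) * h ≤ (1 - δ) * ((L + 2) ^ B + 1) := by
          apply mul_le_mul_of_nonneg_left hge.le (by linarith)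
        have h8 : (np n h : ℝ) * L ≤ np n h * Real.log n :=
          mul_le_mul_of_nonneg_left l1 (Nat.cast_nonneg _)
        linarith
      have h9 := le_of_mul_le_mul_right h6 hLp
      refine h9.trans ?_
      apply mul_le_mul_of_nonneg_left _ (by linarith)
      exact Real.rpow_le_rpow hLp.le l1 (by linarith)
    exact_mod_cast card_le_card hsub

end Pool.Agent.H312R2.PG
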