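import Mathlib
import Pool.Agent.H312R2.PG.Iface
import Pool.Agent.H381R2.HR.M
import Pool.Agent.Helper923.PPS.Smooth

/-! Module E1 (helper84): integers free of medium primes. -/

open Finset

namespace Pool.Agent.H312R2.PG.E1

/-- primes up to `Y` -/
def PY (Y : ℕ) : Finset ℕ := (Icc 1 Y).filter Nat.Prime

/-- the `Y`-smooth numbers in `[1, h]` -/
def SS (h Y : ℕ) : Finset ℕ := (Icc 1 h).filter (fun n => ∀ p ∈ n.primeFactors, p ≤ Y)

theorem PY_prime {Y p : ℕ} (hp : p ∈ PY Y) : p.Prime := (mem_filter.1 hp).2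

theorem PY_le {Y p : ℕ} (hp : p ∈ PY Y) : p ≤ Y := (mem_Icc.1 (mem_filter.1 hp).1).2

theorem mem_PY {Y p : ℕ} : p ∈ PY Y ↔ p.Prime ∧ p ≤ Y := by
  constructor
  · intro h
    exact ⟨PY_prime h, PY_le h⟩
  · rintro ⟨h1, h2⟩
    exact mem_filter.2 ⟨mem_Icc.2 ⟨h1.one_lt.le, h2⟩, h1⟩

theorem card_PY (Y : ℕ) : (PY Y).card = Nat.primeCounting Y := by
  rw [← Nat.primesLE_card_eq_primeCounting]
  congr 1
  ext p
  rw [mem_PY, Nat.mem_primesLE]
  tauto

theorem cheb : ∃ c : ℝ, 1 ≤ c ∧ ∀ n : ℕ, ((PY n).card : ℝ) * Real.log n ≤ c * n := by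
  have h1 := Chebyshev.eventually_primeCounting_le (ε := 1) one_pos
  obtain ⟨X, hX⟩ := Filter.eventually_atTop.1 h1
  set X' : ℝ := max X 2 with hX'
  have hlog4 : 0 ≤ Real.log 4 := Real.log_nonneg (by norm_num)
  refine ⟨(Real.log 4 + 1) + X' * X', ?_, ?_⟩
  · nlinarith [sq_nonneg X']
  intro n
  rw [card_PY]
  rcases lt_or_ge (n : ℝ) X' with h | h
  · rcases Nat.eq_zero_or_pos n with rfl | hn
    · simp
    have hn1 : (1 : ℝ) ≤ n := by exact_mod_cast hn
    have h2 : ((Nat.primeCounting n : ℕ) : ℝ) ≤ n := by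
      rw [← card_PY]
      have := card_le_card (filter_subset Nat.Prime (Icc 1 n))
      rw [Nat.card_Icc] at this
      exact_mod_cast this
    have h3 : Real.log n ≤ X' := by
      have := Real.log_le_sub_one_of_pos (show (0 : ℝ) < n by linarith)
      linarith
    have h4 : 0 ≤ Real.log n := Real.log_nonneg hn1
    calc ((Nat.primeCounting n : ℕ) : ℝ) * Real.log n ≤ n * X' := by
          exact mul_le_mul h2 h3 h4 (by linarith)
      _ ≤ (Real.log 4 + 1 + X' * X') * n := by nlinarith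
  · have h2 : X ≤ (n : ℝ) := (le_max_left _ _).trans h
    have h3 : (2 : ℝ) ≤ n := (le_max_right _ _).trans h
    have h4 := hX n h2
    rw [Nat.floor_natCast] at h4
    have h5 : 0 < Real.log n := Real.log_pos (by linarith)
    rw [le_div_iff₀ h5] at h4
    refine h4.trans ?_
    have : 0 ≤ X' * X' * n := by positivity
    nlinarith

/-- weighted prime powers up to `t` -/
theorem W_le (Y t : ℕ) (ht : 1 ≤ t) :
    ∑ p ∈ PY Y, (Nat.log p t : ℝ) * Real.log p ≤ ((PY (min Y t)).card : ℝ) * Real.log t := by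
  have h1 : ∑ p ∈ PY Y, (Nat.log p t : ℝ) * Real.log p = ∑ p ∈ PY (min Y t), (Nat.log p t : ℝ) * Real.log p := by
    symm
    refine sum_subset ?_ ?_
    · intro p hp
      rw [mem_PY] at hp ⊢
      exact ⟨hp.1, hp.2.trans (min_le_left _ _)⟩
    · intro p hp hp'
      have h2 : t < p := by
        by_contra h3
        push Not at h3
        exact hp' (mem_PY.2 ⟨(mem_PY.1 hp).1, le_min (mem_PY.1 hp).2 h3⟩)
      rw [Nat.log_of_lt h2]
      simp
  rw [h1, ← nsmul_eq_mul, ← sum_const]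
  refine sum_le_sum fun p hp => ?_
  have hp1 := PY_prime hp
  have h2 : p ^ Nat.log p t ≤ t := Nat.pow_log_le_self p (by omega)
  have h3 : ((p : ℝ)) ^ Nat.log p t ≤ t := by exact_mod_cast h2
  have hp0 : (0 : ℝ) < p := by exact_mod_cast hp1.pos
  calc (Nat.log p t : ℝ) * Real.log p = Real.log ((p : ℝ) ^ Nat.log p t) := by rw [Real.log_pow]
    _ ≤ Real.log t := Real.log_le_log (by positivity) h3

/-- sum of the valuations -/
theorem sum_val (h Y p : ℕ) (hp : p.Prime) :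
    ∑ n ∈ SS h Y, n.factorization p ≤ ∑ m ∈ SS h Y, Nat.log p (h / m) := by
  have e1 : ∑ n ∈ SS h Y, n.factorization p = ((SS h Y).sigma (fun n => Icc 1 (n.factorization p))).card := by
    rw [card_sigma]
    exact sum_congr rfl fun n _ => by simp
  have e2 : ∑ m ∈ SS h Y, Nat.log p (h / m) = ((SS h Y).sigma (fun m => Icc 1 (Nat.log p (h / m)))).card := by
    rw [card_sigma]
    exact sum_congr rfl fun n _ => by simp
  rw [e1, e2]
  have hdvd : ∀ x : (_ : ℕ) × ℕ, x ∈ (SS h Y).sigma (fun n => Icc 1 (n.factorization p)) → x.1 = p ^ x.2 * (x.1 / p ^ x.2) := by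
    rintro ⟨n, k⟩ hx
    rw [mem_sigma] at hx
    simp only at hx ⊢
    have hk := (mem_Icc.1 hx.2).2
    exact (Nat.mul_div_cancel' ((pow_dvd_pow p hk).trans (Nat.ordProj_dvd n p))).symm
  refine card_le_card_of_injOn (fun x => ⟨x.1 / p ^ x.2, x.2⟩) ?_ ?_
  · rintro ⟨n, k⟩ hx
    have hx' := hx
    rw [mem_coe, mem_sigma] at hx
    rw [mem_coe, mem_sigma]
    simp only at hx ⊢
    obtain ⟨hn, hk⟩ := hx
    rw [mem_Icc] at hk
    have hd := hdvd _ hx'
    simp only at hd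
    rw [SS, mem_filter, mem_Icc] at hn
    have hq : n / p ^ k ∣ n := Nat.div_dvd_of_dvd ((pow_dvd_pow p hk.2).trans (Nat.ordProj_dvd n p))
    have hqpos : 0 < n / p ^ k := Nat.pos_of_dvd_of_pos hq (by omega)
    refine ⟨?_, ?_⟩
    · rw [SS, mem_filter, mem_Icc]
      refine ⟨⟨hqpos, (Nat.le_of_dvd (by omega) hq).trans hn.1.2⟩, ?_⟩
      intro q hq2
      exact hn.2 q (Nat.primeFactors_mono hq (by omega) hq2)
    · rw [mem_Icc]
      refine ⟨hk.1, ?_⟩
      refine Nat.le_log_of_pow_le hp.one_lt ?_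
      rw [Nat.le_div_iff_mul_le hqpos, ← hd]
      exact hn.1.2
  · rintro ⟨n, k⟩ hx ⟨n', k'⟩ hx' heq
    have h1 := hdvd _ hx
    have h2 := hdvd _ hx'
    simp only at h1 h2
    simp only [Sigma.mk.injEq, heq_eq_eq] at heq
    obtain ⟨h3, h4⟩ := heq
    subst h4
    rw [h3] at h1
    rw [Sigma.mk.injEq]
    exact ⟨h1.trans h2.symm, HEq.rfl⟩

theorem log_eq {h Y n : ℕ} (hn : n ∈ SS h Y) :
    Real.log n = ∑ p ∈ PY Y, (n.factorization p : ℝ) * Real.log p := by
  rw [Real.log_nat_eq_sum_factorization, Finsupp.sum]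
  refine sum_subset ?_ ?_
  · intro p hp
    rw [Nat.support_factorization] at hp
    rw [mem_PY]
    exact ⟨Nat.prime_of_mem_primeFactors hp, (mem_filter.1 hn).2 p hp⟩
  · intro p _ hp
    rw [Finsupp.notMem_support_iff] at hp
    rw [hp]
    simp

theorem sum_log_le (h Y : ℕ) : ∑ n ∈ SS h Y, Real.log n ≤
    ∑ m ∈ SS h Y, ((PY (min Y (h / m))).card : ℝ) * Real.log ((h / m : ℕ) : ℝ) := by
  calc ∑ n ∈ SS h Y, Real.log n = ∑ n ∈ SS h Y, ∑ p ∈ PY Y, (n.factorization p : ℝ) * Real.log p :=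
        sum_congr rfl fun n hn => log_eq hn
    _ = ∑ p ∈ PY Y, (∑ n ∈ SS h Y, (n.factorization p : ℝ)) * Real.log p := by
        rw [sum_comm]
        exact sum_congr rfl fun p _ => by rw [sum_mul]
    _ ≤ ∑ p ∈ PY Y, (∑ m ∈ SS h Y, (Nat.log p (h / m) : ℝ)) * Real.log p := by
        refine sum_le_sum fun p hp => mul_le_mul_of_nonneg_right ?_ ?_
        · exact_mod_cast sum_val h Y p (PY_prime hp)
        · exact Real.log_natCast_nonneg p
    _ = ∑ m ∈ SS h Y, ∑ p ∈ PY Y, (Nat.log p (h / m) : ℝ) * Real.log p := by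
        rw [sum_comm]
        exact sum_congr rfl fun p _ => by rw [sum_mul]
    _ ≤ _ := by
        refine sum_le_sum fun m hm => W_le Y (h / m) ?_
        have := mem_Icc.1 (mem_filter.1 hm).1
        exact Nat.div_pos this.2 (by omega)

theorem telesc (w : ℕ) : ∑ p ∈ PY w, (1 : ℝ) / (p * (p - 1)) ≤ 1 :=
  Pool.Agent.H381R2.HR.MAux.telesc w

/-- the bound of the sum of the prime powers in terms of `t ^ σ` -/
theorem W_bound : ∃ c : ℝ, 1 ≤ c ∧ ∀ (l : ℝ) (t : ℕ), 2 ≤ l → 1 ≤ t →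
    ((PY (min ⌊Real.exp l⌋₊ t)).card : ℝ) * Real.log t ≤ c * (t : ℝ) ^ (1 - 1 / l) := by
  obtain ⟨c, hc1, hc⟩ := cheb
  refine ⟨4 * Real.exp 1 * c, ?_, ?_⟩
  · have := Real.add_one_le_exp (1 : ℝ)
    nlinarith
  intro l t hl ht
  have hl0 : 0 < l := by linarith
  have ht1 : (1 : ℝ) ≤ t := by exact_mod_cast ht
  have ht0 : (0 : ℝ) < t := by linarith
  have hlogt : 0 ≤ Real.log t := Real.log_nonneg ht1
  have hy0 : 0 < Real.exp l := Real.exp_pos l
  have hYle : ((⌊Real.exp l⌋₊ : ℕ) : ℝ) ≤ Real.exp l := Nat.floor_le hy0.le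
  have hYlt : Real.exp l < (⌊Real.exp l⌋₊ : ℕ) + 1 := Nat.lt_floor_add_one _
  set Y := ⌊Real.exp l⌋₊ with hY
  have he1 : (2 : ℝ) ≤ Real.exp 1 := by
    have := Real.add_one_le_exp (1 : ℝ)
    linarith
  have hy4 : (4 : ℝ) ≤ Real.exp l := by
    calc (4 : ℝ) = 2 * 2 := by norm_num
      _ ≤ Real.exp 1 * Real.exp 1 := by nlinarith
      _ = Real.exp 2 := by rw [← Real.exp_add]; norm_num
      _ ≤ Real.exp l := Real.exp_le_exp.2 hl
  rcases le_or_gt t Y with h | h
  · rw [min_eq_right h]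
    refine (hc t).trans ?_
    have h1 : Real.log t ≤ l := by
      rw [Real.log_le_iff_le_exp ht0]
      exact (Nat.cast_le.2 h).trans hYle
    have h2 : (t : ℝ) = (t : ℝ) ^ (1 - 1 / l) * Real.exp (Real.log t / l) := by
      rw [Real.rpow_def_of_pos ht0, ← Real.exp_add]
      have : Real.log t * (1 - 1 / l) + Real.log t / l = Real.log t := by
        field_simp
        ring
      rw [this, Real.exp_log ht0]
    have h3 : Real.exp (Real.log t / l) ≤ Real.exp 1 := by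
      refine Real.exp_le_exp.2 ?_
      rw [div_le_one hl0]
      exact h1
    have h4 : 0 < (t : ℝ) ^ (1 - 1 / l) := Real.rpow_pos_of_pos ht0 _
    have h5 : (t : ℝ) ≤ (t : ℝ) ^ (1 - 1 / l) * Real.exp 1 := by
      calc (t : ℝ) = _ := h2
        _ ≤ _ := mul_le_mul_of_nonneg_left h3 h4.le
    have h6 : 0 ≤ c * ((t : ℝ) ^ (1 - 1 / l) * Real.exp 1) := by positivity
    calc c * (t : ℝ) ≤ c * ((t : ℝ) ^ (1 - 1 / l) * Real.exp 1) :=
          mul_le_mul_of_nonneg_left h5 (by linarith)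
      _ ≤ 4 * (c * ((t : ℝ) ^ (1 - 1 / l) * Real.exp 1)) := by linarith
      _ = _ := by ring
  · rw [min_eq_left h.le]
    have hY2 : Real.exp l / 2 ≤ Y := by linarith
    have hYpos : (0 : ℝ) < Y := by linarith
    have hty : Real.exp l ≤ t := by
      have : (Y : ℝ) + 1 ≤ t := by exact_mod_cast h
      linarith
    have hlogY : l / 2 ≤ Real.log Y := by
      have h1 : Real.log (Real.exp l / 2) ≤ Real.log Y := Real.log_le_log (by positivity) hY2
      rw [Real.log_div (by positivity) (by norm_num), Real.log_exp] at h1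
      have h2 := Real.log_two_lt_d9
      linarith
    have hlogYpos : 0 < Real.log Y := by linarith
    -- v = t / y
    set v : ℝ := t / Real.exp l with hv
    have hv1 : 1 ≤ v := by rw [hv, one_le_div hy0]; exact hty
    have hv0 : 0 < v := by linarith
    have htv : (t : ℝ) = Real.exp l * v := by rw [hv]; field_simp
    have hlt : Real.log t = l + Real.log v := by
      rw [htv, Real.log_mul hy0.ne' hv0.ne', Real.log_exp]
    have hsig : (t : ℝ) ^ (1 - 1 / l) = Real.exp l / Real.exp 1 * v ^ (1 - 1 / l) := by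
      rw [htv, Real.mul_rpow hy0.le hv0.le]
      congr 1
      rw [← Real.exp_mul, ← Real.exp_sub]
      congr 1
      field_simp
    have hvh : v ^ (1 / 2 : ℝ) ≤ v ^ (1 - 1 / l) := by
      refine Real.rpow_le_rpow_of_exponent_le hv1 ?_
      have : 1 / l ≤ 1 / 2 := one_div_le_one_div_of_le (by norm_num) hl
      linarith
    have hlv : 1 + Real.log v ≤ 2 * v ^ (1 / 2 : ℝ) := by
      have h1 := Real.log_le_sub_one_of_pos (Real.rpow_pos_of_pos hv0 (1 / 2 : ℝ))
      rw [Real.log_rpow hv0] at h1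
      linarith
    have hlv0 : 0 ≤ Real.log v := Real.log_nonneg hv1
    have hcY : ((PY Y).card : ℝ) ≤ c * Y / Real.log Y := by
      rw [le_div_iff₀ hlogYpos]
      exact hc Y
    calc ((PY Y).card : ℝ) * Real.log t ≤ c * Y / Real.log Y * Real.log t :=
          mul_le_mul_of_nonneg_right hcY hlogt
      _ ≤ c * Real.exp l / (l / 2) * (l * (1 + Real.log v)) := by
          refine mul_le_mul ?_ ?_ hlogt (by positivity)
          · exact div_le_div₀ (by positivity) (by nlinarith) (by positivity) hlogY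
          · rw [hlt]
            nlinarith
      _ = 2 * c * Real.exp l * (1 + Real.log v) := by
          field_simp
      _ ≤ 2 * c * Real.exp l * (2 * v ^ (1 - 1 / l)) := by
          refine mul_le_mul_of_nonneg_left (by linarith) (by positivity)
      _ = 4 * Real.exp 1 * c * (t : ℝ) ^ (1 - 1 / l) := by
          rw [hsig]
          have := Real.exp_pos 1
          field_simp
          ring

/-- the Dirichlet series over smooth numbers -/
theorem F_bound : ∃ C : ℝ, 1 ≤ C ∧ ∀ (l : ℝ) (h : ℕ), 2 ≤ l →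
    ∑ m ∈ SS h ⌊Real.exp l⌋₊, (m : ℝ) ^ (-(1 - 1 / l)) ≤ C * l := by
  obtain ⟨C1, hC1⟩ := Pool.Agent.Erdos456.Mert.mertens_inv
  obtain ⟨C2, hC2⟩ := Pool.Agent.Erdos456.Mert.mertens_log
  refine ⟨max 1 (Real.exp (C1 + 2 + |C2| + 32)), le_max_left _ _, ?_⟩
  intro l h hl
  have hl0 : 0 < l := by linarith
  have hy0 : 0 < Real.exp l := Real.exp_pos l
  have hYle : ((⌊Real.exp l⌋₊ : ℕ) : ℝ) ≤ Real.exp l := Nat.floor_le hy0.le
  have hYlt : Real.exp l < (⌊Real.exp l⌋₊ : ℕ) + 1 := Nat.lt_floor_add_one _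
  set Y := ⌊Real.exp l⌋₊ with hY
  have he1 : (2 : ℝ) ≤ Real.exp 1 := by
    have := Real.add_one_le_exp (1 : ℝ)
    linarith
  have hy4 : (4 : ℝ) ≤ Real.exp l := by
    calc (4 : ℝ) = 2 * 2 := by norm_num
      _ ≤ Real.exp 1 * Real.exp 1 := by nlinarith
      _ = Real.exp 2 := by rw [← Real.exp_add]; norm_num
      _ ≤ Real.exp l := Real.exp_le_exp.2 hl
  have hY3 : 3 ≤ Y := by
    have : (3 : ℝ) < (Y : ℝ) + 1 := by linarith
    have h2 : (3 : ℕ) < Y + 1 := by exact_mod_cast this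
    omega
  have hY3' : (3 : ℝ) ≤ Y := by exact_mod_cast hY3
  set σ : ℝ := 1 - 1 / l with hσ
  have hσ1 : 1 / 2 ≤ σ := by
    have : 1 / l ≤ 1 / 2 := one_div_le_one_div_of_le (by norm_num) hl
    rw [hσ]; linarith
  -- Euler product
  let f : ℕ →* ℝ :=
    { toFun := fun n => (n : ℝ) ^ (-σ)
      map_one' := by simp
      map_mul' := by intro x y; push_cast; rw [Real.mul_rpow (by positivity) (by positivity)] }
  have hf34 : ∀ {p : ℕ}, p.Prime → (p : ℝ) ^ (-σ) ≤ 3 / 4 := by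
    intro p hp
    have h2 : (2 : ℝ) ≤ p := by exact_mod_cast hp.two_le
    have h3 : (p : ℝ) ^ (-σ) ≤ (2 : ℝ) ^ (-(1 / 2) : ℝ) := by
      calc (p : ℝ) ^ (-σ) ≤ (2 : ℝ) ^ (-σ) := Real.rpow_le_rpow_of_nonpos (by norm_num) h2 (by linarith)
        _ ≤ (2 : ℝ) ^ (-(1 / 2) : ℝ) := Real.rpow_le_rpow_of_exponent_le (by norm_num) (by linarith)
    refine h3.trans ?_
    rw [Real.rpow_neg (by norm_num), ← Real.sqrt_eq_rpow, inv_le_comm₀ (by positivity) (by norm_num)]
    rw [show ((3 : ℝ) / 4)⁻¹ = 4 / 3 by norm_num]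
    exact Real.le_sqrt_of_sq_le (by norm_num)
  have hf : ∀ {p : ℕ}, p.Prime → ‖f p‖ < 1 := by
    intro p hp
    show ‖(p : ℝ) ^ (-σ)‖ < 1
    rw [Real.norm_eq_abs, abs_of_nonneg (by positivity)]
    have := hf34 hp
    linarith
  obtain ⟨_, hsum⟩ := EulerProduct.summable_and_hasSum_factoredNumbers_prod_filter_prime_geometric (f := f) (fun {p} hp => hf hp) (PY Y)
  have hPYf : (PY Y).filter Nat.Prime = PY Y := filter_true_of_mem (fun p hp => PY_prime hp)
  rw [hPYf] at hsum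
  have hmem : ∀ n ∈ SS h Y, n ∈ Nat.factoredNumbers (PY Y) := by
    intro n hn
    rw [SS, mem_filter, mem_Icc] at hn
    rw [Nat.mem_factoredNumbers]
    refine ⟨by omega, fun p hp => ?_⟩
    have hp' : p ∈ n.primeFactors := by
      rw [Nat.primeFactors, List.mem_toFinset]
      exact hp
    rw [mem_PY]
    exact ⟨Nat.prime_of_mem_primeFactors hp', hn.2 p hp'⟩
  have hle : ∑ n ∈ SS h Y, (n : ℝ) ^ (-σ) ≤ ∏ p ∈ PY Y, (1 - f p)⁻¹ := by
    rw [← hsum.tsum_eq]
    have h1 : ∑ n ∈ SS h Y, (n : ℝ) ^ (-σ) =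
        ∑ x ∈ (SS h Y).attach.image (fun n => (⟨n.1, hmem n.1 n.2⟩ : Nat.factoredNumbers (PY Y))),
          f x := by
      rw [sum_image]
      · rw [← sum_attach (SS h Y)]
        rfl
      · intro a _ b _ hab
        have := congrArg Subtype.val hab
        exact Subtype.ext this
    rw [h1]
    refine hsum.summable.sum_le_tsum _ ?_
    intro x _
    show (0 : ℝ) ≤ ((x : ℕ) : ℝ) ^ (-σ)
    positivity
  refine hle.trans ?_
  -- product bound
  have hfac : ∀ p ∈ PY Y, (1 - f p)⁻¹ ≤ Real.exp ((1 / (p : ℝ) + 2 / l * (Real.log p / p)) + 32 * (1 / (p * (p - 1)))) := by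
    intro p hp
    have hp1 := PY_prime hp
    have h2 : (2 : ℝ) ≤ p := by exact_mod_cast hp1.two_le
    have hp0 : (0 : ℝ) < p := by linarith
    have hx0 : 0 ≤ (p : ℝ) ^ (-σ) := by positivity
    have h3 := Pool.Agent.Helper923.PPS.rk_factor hx0 (hf34 hp1)
    refine h3.trans (Real.exp_le_exp.2 ?_)
    have hlp : Real.log p ≤ l := by
      rw [Real.log_le_iff_le_exp hp0]
      exact (Nat.cast_le.2 (PY_le hp)).trans hYle
    have hlp0 : 0 ≤ Real.log p := Real.log_nonneg (by linarith)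
    set x : ℝ := Real.log p / l with hx
    have hx1 : x ≤ 1 := by rw [hx, div_le_one hl0]; exact hlp
    have hx0' : 0 ≤ x := by positivity
    have hpow : (p : ℝ) ^ (-σ) = 1 / p * Real.exp x := by
      rw [Real.rpow_def_of_pos hp0, one_div, ← Real.exp_log (inv_pos.2 hp0), ← Real.exp_add, Real.log_inv]
      congr 1
      rw [hσ, hx]
      field_simp
      ring
    have hex : Real.exp x ≤ 1 + 2 * x := by
      have := Real.abs_exp_sub_one_sub_id_le (x := x) (by rw [abs_of_nonneg hx0']; exact hx1)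
      have h5 := (abs_le.1 this).2
      nlinarith
    have hex1 : Real.exp x ^ 2 ≤ 8 := by
      have h5 : Real.exp x ≤ Real.exp 1 := Real.exp_le_exp.2 hx1
      have h6 := Real.exp_one_lt_d9
      have h7 := Real.exp_pos x
      nlinarith
    rw [hpow]
    have hinv : 0 < 1 / (p : ℝ) := by positivity
    have h6 : 1 / (p : ℝ) * Real.exp x ≤ 1 / (p : ℝ) + 2 / l * (Real.log p / p) := by
      calc 1 / (p : ℝ) * Real.exp x ≤ 1 / (p : ℝ) * (1 + 2 * x) := mul_le_mul_of_nonneg_left hex hinv.le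
        _ = _ := by rw [hx]; field_simp
    have h7 : 4 * (1 / (p : ℝ) * Real.exp x) ^ 2 ≤ 32 * (1 / ((p : ℝ) * (p - 1))) := by
      rw [mul_pow]
      have h8 : (1 / (p : ℝ)) ^ 2 ≤ 1 / ((p : ℝ) * (p - 1)) := by
        rw [one_div_pow]
        refine one_div_le_one_div_of_le (by nlinarith) (by nlinarith)
      have h9 : 0 ≤ (1 / (p : ℝ)) ^ 2 := by positivity
      calc 4 * ((1 / (p : ℝ)) ^ 2 * Real.exp x ^ 2) ≤ 4 * ((1 / (p : ℝ)) ^ 2 * 8) := by nlinarith
        _ ≤ _ := by nlinarith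
    linarith
  have hprod : ∏ p ∈ PY Y, (1 - f p)⁻¹ ≤
      ∏ p ∈ PY Y, Real.exp ((1 / (p : ℝ) + 2 / l * (Real.log p / p)) + 32 * (1 / (p * (p - 1)))) := by
    refine prod_le_prod (fun p hp => ?_) hfac
    have := hf34 (PY_prime hp)
    have h5 : f p ≤ 3 / 4 := this
    exact inv_nonneg.2 (by linarith)
  refine hprod.trans ?_
  rw [← Real.exp_sum, sum_add_distrib, sum_add_distrib, ← mul_sum, ← mul_sum]
  have e1 : ∑ p ∈ PY Y, 1 / (p : ℝ) ≤ Real.log (Real.log Y) + C1 := by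
    have := (abs_le.1 (hC1 Y hY3)).2
    unfold PY
    linarith
  have e2 : ∑ p ∈ PY Y, Real.log p / (p : ℝ) ≤ Real.log Y + |C2| := by
    have := (abs_le.1 (hC2 Y (by omega))).2
    have h2 := le_abs_self C2
    unfold PY
    linarith
  have e3 := telesc Y
  have hlogY : Real.log Y ≤ l := by
    rw [Real.log_le_iff_le_exp (by linarith)]
    exact hYle
  have hlogY0 : 0 < Real.log Y := Real.log_pos (by linarith)
  have e4 : Real.log (Real.log Y) ≤ Real.log l := Real.log_le_log hlogY0 hlogY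
  have e5 : 2 / l * ∑ p ∈ PY Y, Real.log p / (p : ℝ) ≤ 2 + |C2| := by
    have h6 : 2 / l * ∑ p ∈ PY Y, Real.log p / (p : ℝ) ≤ 2 / l * (l + |C2|) :=
      mul_le_mul_of_nonneg_left (by linarith) (by positivity)
    refine h6.trans ?_
    rw [mul_add]
    have h7 : 2 / l * l = 2 := by field_simp
    have h8 : 2 / l ≤ 1 := by rw [div_le_one hl0]; exact hl
    have h9 := abs_nonneg C2
    nlinarith
  calc Real.exp (∑ p ∈ PY Y, 1 / (p : ℝ) + 2 / l * ∑ p ∈ PY Y, Real.log p / (p : ℝ) + 32 * ∑ p ∈ PY Y, 1 / ((p : ℝ) * (p - 1)))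
      ≤ Real.exp (Real.log l + (C1 + 2 + |C2| + 32)) := Real.exp_le_exp.2 (by linarith)
    _ = Real.exp (C1 + 2 + |C2| + 32) * l := by rw [Real.exp_add, Real.exp_log hl0]; ring
    _ ≤ _ := mul_le_mul_of_nonneg_right (le_max_right _ _) hl0.le

theorem smooth_bound : ∃ C : ℝ, 1 ≤ C ∧ ∀ (h : ℕ) (U : ℝ), 1 ≤ U → U ≤ Real.log h / 2 →
    ((SS h ⌊Real.exp (Real.log h / U)⌋₊).card : ℝ) ≤ C * Real.exp (-U) * h := by
  obtain ⟨c, hc1, hc⟩ := W_bound
  obtain ⟨C, hC1, hC⟩ := F_bound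
  refine ⟨(2 + c) * C, by nlinarith, ?_⟩
  intro h U hU hUh
  have hU0 : 0 < U := by linarith
  have hlogh : 2 ≤ Real.log h := by linarith
  have hh1 : 1 ≤ h := by
    rcases Nat.eq_zero_or_pos h with rfl | h1
    · simp at hlogh
      linarith
    · exact h1
  have hh0 : (0 : ℝ) < h := by exact_mod_cast hh1
  set l : ℝ := Real.log h / U with hl
  have hl2 : 2 ≤ l := by
    rw [hl, le_div_iff₀ hU0]
    linarith
  have hl0 : 0 < l := by linarith
  set Y := ⌊Real.exp l⌋₊ with hY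
  set σ : ℝ := 1 - 1 / l with hσ
  have hσ1 : 1 / 2 ≤ σ := by
    have : 1 / l ≤ 1 / 2 := one_div_le_one_div_of_le (by norm_num) hl2
    rw [hσ]; linarith
  have hσ0 : 0 < σ := by linarith
  have hmul : ∀ n ∈ SS h Y, ((h : ℝ) / n) ^ σ = (h : ℝ) ^ σ * (n : ℝ) ^ (-σ) := by
    intro n hn
    have hn1 := (mem_Icc.1 (mem_filter.1 hn).1).1
    rw [Real.div_rpow hh0.le (by positivity), Real.rpow_neg (by positivity), div_eq_mul_inv]
  have hpt : ∀ n ∈ SS h Y, Real.log h ≤ 2 * ((h : ℝ) ^ σ * (n : ℝ) ^ (-σ)) + Real.log n := by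
    intro n hn
    have hn1 := (mem_Icc.1 (mem_filter.1 hn).1).1
    have hn0 : (0 : ℝ) < n := by exact_mod_cast hn1
    have h1 := Real.log_le_rpow_div (show 0 ≤ (h : ℝ) / n by positivity) hσ0
    rw [Real.log_div hh0.ne' hn0.ne', hmul n hn] at h1
    have h2 : (h : ℝ) ^ σ * (n : ℝ) ^ (-σ) / σ ≤ 2 * ((h : ℝ) ^ σ * (n : ℝ) ^ (-σ)) := by
      rw [div_le_iff₀ hσ0]
      have : 0 ≤ (h : ℝ) ^ σ * (n : ℝ) ^ (-σ) := by positivity
      nlinarith
    linarith
  have hW : ∀ m ∈ SS h Y, ((PY (min Y (h / m))).card : ℝ) * Real.log ((h / m : ℕ) : ℝ) ≤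
      c * ((h : ℝ) ^ σ * (m : ℝ) ^ (-σ)) := by
    intro m hm
    have hm1 := mem_Icc.1 (mem_filter.1 hm).1
    have hpos : 1 ≤ h / m := Nat.div_pos hm1.2 (by omega)
    refine (hc l (h / m) hl2 hpos).trans ?_
    rw [← hmul m hm]
    refine mul_le_mul_of_nonneg_left ?_ (by linarith)
    exact Real.rpow_le_rpow (by positivity) Nat.cast_div_le hσ0.le
  have hmain : ((SS h Y).card : ℝ) * Real.log h ≤ (2 + c) * ((h : ℝ) ^ σ * ∑ m ∈ SS h Y, (m : ℝ) ^ (-σ)) := by
    calc ((SS h Y).card : ℝ) * Real.log h = ∑ n ∈ SS h Y, Real.log h := by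
          rw [sum_const, nsmul_eq_mul]
      _ ≤ ∑ n ∈ SS h Y, (2 * ((h : ℝ) ^ σ * (n : ℝ) ^ (-σ)) + Real.log n) := sum_le_sum hpt
      _ = 2 * ((h : ℝ) ^ σ * ∑ m ∈ SS h Y, (m : ℝ) ^ (-σ)) + ∑ n ∈ SS h Y, Real.log n := by
          rw [sum_add_distrib, mul_sum, mul_sum]
      _ ≤ 2 * ((h : ℝ) ^ σ * ∑ m ∈ SS h Y, (m : ℝ) ^ (-σ)) + ∑ m ∈ SS h Y, c * ((h : ℝ) ^ σ * (m : ℝ) ^ (-σ)) := by
          have := (sum_log_le h Y).trans (sum_le_sum hW)
          linarith
      _ = _ := by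
          rw [← mul_sum, ← mul_sum]
          ring
  have hF := hC l h hl2
  rw [← hY] at hF
  have hhs : (h : ℝ) ^ σ = h * Real.exp (-U) := by
    rw [Real.rpow_def_of_pos hh0]
    have : Real.log h * σ = Real.log h + -U := by
      rw [hσ, hl]
      have : Real.log h ≠ 0 := by linarith
      field_simp
      ring
    rw [this, Real.exp_add, Real.exp_log hh0]
  have hlogpos : 0 < Real.log h := by linarith
  have hlU : l = Real.log h / U := hl
  have h5 : ((SS h Y).card : ℝ) * Real.log h ≤ (2 + c) * C * Real.exp (-U) * h * Real.log h := by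
    refine hmain.trans ?_
    rw [hhs]
    have h6 : ∑ m ∈ SS h Y, (m : ℝ) ^ (-σ) ≤ C * Real.log h := by
      refine hF.trans (mul_le_mul_of_nonneg_left ?_ (by linarith))
      rw [hlU]
      exact div_le_self hlogpos.le hU
    calc (2 + c) * (h * Real.exp (-U) * ∑ m ∈ SS h Y, (m : ℝ) ^ (-σ))
        ≤ (2 + c) * (h * Real.exp (-U) * (C * Real.log h)) := by gcongr
      _ = _ := by ring
  exact le_of_mul_le_mul_right h5 hlogpos

theorem card_mult (h q : ℕ) (hq : 0 < q) : (((Icc 1 h).filter (fun s => q ∣ s)).card : ℝ) ≤ h * (1 / q) := by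
  have h1 : ((Icc 1 h).filter (fun s => q ∣ s)) = ((Ioc 0 h).filter (fun s => q ∣ s)) := by
    congr 1
  rw [h1, Nat.Ioc_filter_dvd_card_eq_div]
  have := @Nat.cast_div_le ℝ _ _ _ h q
  rw [mul_one_div]
  exact this

theorem mediumFree : MediumFree := by
  classical
  obtain ⟨Cs, hCs1, hCs⟩ := smooth_bound
  obtain ⟨C, hC0, hC⟩ := Pool.Agent.H381R2.HR.M2
  refine ⟨Cs + 8 + C, by linarith, ?_⟩
  intro h U η hU hη hη2 hUh hCh
  have hU0 : 0 < U := by linarith
  have hlogh : 2 ≤ Real.log h := by linarith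
  have hh1 : 1 ≤ h := by
    rcases Nat.eq_zero_or_pos h with rfl | h1
    · simp at hlogh
      linarith
    · exact h1
  have hh0 : (0 : ℝ) < h := by exact_mod_cast hh1
  have hL16 : 16 ≤ Real.log h := by nlinarith
  have hLC : 2 * (1 + C) ≤ Real.log h := by nlinarith
  have hyU : (h : ℝ) ^ (1 / U) = Real.exp (Real.log h / U) := by
    rw [Real.rpow_def_of_pos hh0]
    congr 1
    ring
  set Y := ⌊Real.exp (Real.log h / U)⌋₊ with hY
  set w : ℝ := (h : ℝ) ^ (1 - η) with hw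
  have hw0 : 0 < w := Real.rpow_pos_of_pos hh0 _
  have hlogw : Real.log w = (1 - η) * Real.log h := Real.log_rpow hh0 _
  have hlogw8 : 8 ≤ Real.log w := by rw [hlogw]; nlinarith
  have hw4 : 4 ≤ w := by
    have h1 : Real.log w ≤ w - 1 := Real.log_le_sub_one_of_pos hw0
    linarith
  set z := ⌊w⌋₊ with hz
  have hzle : (z : ℝ) ≤ w := Nat.floor_le hw0.le
  have hzlt : w < z + 1 := Nat.lt_floor_add_one _
  have hz2 : 2 ≤ z := by
    have : (2 : ℝ) < (z : ℝ) + 1 := by linarith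
    have h2 : (2 : ℕ) < z + 1 := by exact_mod_cast this
    omega
  have hwh : w ≤ h := by
    rw [hw]
    calc (h : ℝ) ^ (1 - η) ≤ (h : ℝ) ^ (1 : ℝ) :=
          Real.rpow_le_rpow_of_exponent_le (by exact_mod_cast hh1) (by linarith)
      _ = h := Real.rpow_one _
  have hzh : z ≤ h := by exact_mod_cast hzle.trans hwh
  have hz0 : (0 : ℝ) < z := by
    have : (2 : ℝ) ≤ z := by exact_mod_cast hz2
    linarith
  have hzw : w / 2 ≤ z := by linarith
  have hM := hC z h hz2 hzh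
  have hl2 : Real.log 2 ≤ 1 := by
    have := Real.log_two_lt_d9
    linarith
  have hlogz : Real.log w - 1 ≤ Real.log z := by
    have h1 : Real.log (w / 2) ≤ Real.log z := Real.log_le_log (by positivity) hzw
    rw [Real.log_div (by positivity) (by norm_num)] at h1
    linarith
  have hlogz4 : Real.log h / 4 ≤ Real.log z := by
    rw [hlogw] at hlogz
    nlinarith
  have hlogz0 : 0 < Real.log z := by linarith
  have hloghz : Real.log (h / z) ≤ η * Real.log h + 1 := by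
    rw [Real.log_div hh0.ne' hz0.ne']
    rw [hlogw] at hlogz
    nlinarith
  have hsum : ∑ q ∈ (Icc 1 h).filter (fun q => q.Prime ∧ z < q), (1 : ℝ) / q ≤ 8 * η := by
    refine hM.trans ?_
    rw [div_le_iff₀ hlogz0]
    have h1 : 1 + C ≤ η * Real.log h := by linarith
    nlinarith
  -- the covering
  have hcov : ((Icc 1 h).filter (fun s => ∀ p : ℕ, p.Prime → (h : ℝ) ^ (1 / U) < p → (p : ℝ) ≤ (h : ℝ) ^ (1 - η) → ¬ p ∣ s)) ⊆
      SS h Y ∪ ((Icc 1 h).filter (fun q => q.Prime ∧ z < q)).biUnion (fun q => (Icc 1 h).filter (fun s => q ∣ s)) := by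
    intro s hs
    rw [mem_filter] at hs
    obtain ⟨hs1, hs2⟩ := hs
    rw [mem_union]
    by_cases hsm : s ∈ SS h Y
    · exact Or.inl hsm
    right
    have h3 : ∃ p ∈ s.primeFactors, Y < p := by
      by_contra h4
      push Not at h4
      exact hsm (mem_filter.2 ⟨hs1, h4⟩)
    obtain ⟨p, hp, hYp⟩ := h3
    have hpp := Nat.prime_of_mem_primeFactors hp
    have hps := Nat.dvd_of_mem_primeFactors hp
    have hs1' := mem_Icc.1 hs1
    have hple : p ≤ h := (Nat.le_of_dvd (by omega) hps).trans hs1'.2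
    have h4 : (h : ℝ) ^ (1 / U) < p := by
      rw [hyU]
      exact Nat.lt_of_floor_lt hYp
    have h5 : w < p := by
      by_contra h6
      push Not at h6
      exact hs2 p hpp h4 h6 hps
    have h6 : z < p := by
      have : (z : ℝ) < p := lt_of_le_of_lt hzle h5
      exact_mod_cast this
    rw [mem_biUnion]
    exact ⟨p, mem_filter.2 ⟨mem_Icc.2 ⟨hpp.one_lt.le, hple⟩, hpp, h6⟩, mem_filter.2 ⟨hs1, hps⟩⟩
  have hcard : ((((Icc 1 h).filter (fun q => q.Prime ∧ z < q)).biUnion (fun q => (Icc 1 h).filter (fun s => q ∣ s))).card : ℝ) ≤ 8 * η * h := by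
    have h1 : (((Icc 1 h).filter (fun q => q.Prime ∧ z < q)).biUnion (fun q => (Icc 1 h).filter (fun s => q ∣ s))).card ≤
        ∑ q ∈ (Icc 1 h).filter (fun q => q.Prime ∧ z < q), ((Icc 1 h).filter (fun s => q ∣ s)).card := card_biUnion_le
    have h2 : (((((Icc 1 h).filter (fun q => q.Prime ∧ z < q)).biUnion (fun q => (Icc 1 h).filter (fun s => q ∣ s))).card : ℕ) : ℝ) ≤
        ∑ q ∈ (Icc 1 h).filter (fun q => q.Prime ∧ z < q), (((Icc 1 h).filter (fun s => q ∣ s)).card : ℝ) := by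
      exact_mod_cast h1
    refine h2.trans ?_
    calc ∑ q ∈ (Icc 1 h).filter (fun q => q.Prime ∧ z < q), (((Icc 1 h).filter (fun s => q ∣ s)).card : ℝ)
        ≤ ∑ q ∈ (Icc 1 h).filter (fun q => q.Prime ∧ z < q), (h : ℝ) * (1 / q) := by
          refine sum_le_sum fun q hq => card_mult h q ?_
          have := (mem_filter.1 hq).2.1
          exact this.pos
      _ = h * ∑ q ∈ (Icc 1 h).filter (fun q => q.Prime ∧ z < q), (1 : ℝ) / q := by rw [mul_sum]
      _ ≤ h * (8 * η) := mul_le_mul_of_nonneg_left hsum hh0.le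
      _ = 8 * η * h := by ring
  have hfin : (((Icc 1 h).filter (fun s => ∀ p : ℕ, p.Prime → (h : ℝ) ^ (1 / U) < p → (p : ℝ) ≤ (h : ℝ) ^ (1 - η) → ¬ p ∣ s)).card : ℝ) ≤
      (SS h Y).card + 8 * η * h := by
    have h1 := (card_le_card hcov).trans (card_union_le _ _)
    have h2 : (((Icc 1 h).filter (fun s => ∀ p : ℕ, p.Prime → (h : ℝ) ^ (1 / U) < p → (p : ℝ) ≤ (h : ℝ) ^ (1 - η) → ¬ p ∣ s)).card : ℝ) ≤
        ((SS h Y).card : ℝ) + ((((Icc 1 h).filter (fun q => q.Prime ∧ z < q)).biUnion (fun q => (Icc 1 h).filter (fun s => q ∣ s))).card : ℝ) := by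
      exact_mod_cast h1
    linarith
  have hS := hCs h U hU hUh
  rw [← hY] at hS
  have he : 0 < Real.exp (-U) := Real.exp_pos _
  have h9 : Cs * Real.exp (-U) * h + 8 * η * h ≤ (Cs + 8 + C) * (Real.exp (-U) + η) * h := by
    have h10 : Cs * Real.exp (-U) + 8 * η ≤ (Cs + 8 + C) * (Real.exp (-U) + η) := by nlinarith [mul_pos (show (0:ℝ) < 8 + C by linarith) he]
    calc Cs * Real.exp (-U) * h + 8 * η * h = (Cs * Real.exp (-U) + 8 * η) * h := by ring
      _ ≤ _ := mul_le_mul_of_nonneg_right h10 hh0.le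
  refine le_trans ?_ h9
  refine le_trans hfin ?_
  linarith

end Pool.Agent.H312R2.PG.E1
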