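import Mathlib
import Pool.Agent.H312R2.PG.E2a
import Pool.Agent.H312R2.Diam

/-! Counting the gaps which contain windows of a progression. -/

open Finset Filter Topology

namespace Pool.Agent.H312R2.PG

open Pool.Agent.H318R2.Cr Pool.Agent.H312R2

open Classical in
/-- classes modulo the primes up to `w`: zero for the primes in `(u, w]`, averaged for the others -/
lemma class_exists {u w : ℕ} (huw : u ≤ w) (A : Finset ℕ) : ∃ b : ℕ, b < primorial w ∧
    (#{s ∈ A | (b + s).Coprime (primorial w)} : ℝ) ≤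
      V u * #{s ∈ A | ∀ p : ℕ, p.Prime → u < p → p ≤ w → ¬ p ∣ s} := by
  set A' : Finset ℕ := {s ∈ A | ∀ p : ℕ, p.Prime → u < p → p ≤ w → ¬ p ∣ s} with hA'
  obtain ⟨b0, _, hb0⟩ := avg_class u A'
  set Q1 : ℕ := ∏ p ∈ (Ioc u w).filter Nat.Prime, p with hQ1
  have hcop : (primorial u).Coprime Q1 := by
    rw [hQ1]
    apply Nat.Coprime.prod_right
    intro p hp
    rw [mem_filter, mem_Ioc] at hp
    rw [Nat.coprime_comm, hp.2.coprime_iff_not_dvd, dvd_primorial_iff hp.2]
    omega
  obtain ⟨b1, hb1, hb2⟩ := Nat.chineseRemainder hcop b0 0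
  refine ⟨b1 % primorial w, Nat.mod_lt _ (primorial_pos w), ?_⟩
  refine le_trans ?_ hb0
  have hsub : {s ∈ A | (b1 % primorial w + s).Coprime (primorial w)} ⊆
      {s ∈ A' | (b0 + s).Coprime (primorial u)} := by
    intro s hs
    rw [mem_filter] at hs
    have key : ∀ p : ℕ, p.Prime → p ≤ w → ¬ p ∣ b1 + s := by
      intro p hp hpw hd
      have h1 : p ∣ primorial w := (dvd_primorial_iff hp).2 hpw
      have h2 : p ∣ b1 % primorial w + s := by
        have h3 : b1 % primorial w + s ≡ b1 + s [MOD p] := by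
          apply Nat.ModEq.add_right
          exact (Nat.mod_modEq b1 (primorial w)).of_dvd h1
        exact (Nat.modEq_zero_iff_dvd.1 (h3.trans (Nat.modEq_zero_iff_dvd.2 hd)))
      have h3 := Nat.dvd_gcd h2 h1
      rw [hs.2] at h3
      exact hp.one_lt.ne' (Nat.dvd_one.1 h3)
    rw [mem_filter, hA', mem_filter]
    refine ⟨⟨hs.1, ?_⟩, ?_⟩
    · intro p hp hup hpw hd
      apply key p hp hpw
      have h1 : p ∣ Q1 := by
        rw [hQ1]
        exact dvd_prod_of_mem _ (mem_filter.2 ⟨mem_Ioc.2 ⟨hup, hpw⟩, hp⟩)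
      have h2 : p ∣ b1 := h1.trans (Nat.modEq_zero_iff_dvd.1 hb2)
      exact dvd_add h2 hd
    · by_contra hc
      obtain ⟨p, hp, hp1, hp2⟩ := Nat.Prime.not_coprime_iff_dvd.1 hc
      have hpu := (dvd_primorial_iff hp).1 hp2
      apply key p hp (hpu.trans huw)
      have h3 : b1 + s ≡ b0 + s [MOD p] := (hb1.of_dvd hp2).add_right s
      exact Nat.modEq_zero_iff_dvd.1 (h3.trans (Nat.modEq_zero_iff_dvd.2 hp1))
  exact_mod_cast card_le_card hsub

/-- the `i`-th prime after `n` -/
lemma P_count_gt (n : ℕ) : n < P (Nat.primeCounting n) := by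
  by_contra h
  push Not at h
  exact lt_irrefl _ ((P_le_iff n _).1 h)

lemma P_count_le {n q : ℕ} (hq : q.Prime) (h : n < q) : P (Nat.primeCounting n) ≤ q := by
  have e := P_count hq
  rw [← e]
  apply P_mono.monotone
  by_contra hcon
  push Not at hcon
  have h1 := (P_le_iff n (Nat.count Nat.Prime q)).2 hcon
  rw [e] at h1
  omega

open Classical in
/-- gaps containing windows -/
theorem gaps_ge {x w b h : ℕ} {L B c0 : ℝ} (hw : 2 ≤ w) (hb : b < primorial w)
    (hL0 : 0 ≤ L) (hL : L ≤ primorial w)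
    (hpos : c0 * x ≤ #{m ∈ Icc 1 x | ∃ q : ℕ, q.Prime ∧ m < q ∧ (q : ℝ) ≤ m + L})
    (hBT : ∀ a : ℕ, (#{k ∈ range (x / primorial w) | (a + k * primorial w).Prime} : ℝ) ≤ B) :
    c0 * x / primorial w - 3 - #{s ∈ Icc 1 h | (b + s).Coprime (primorial w)} * B ≤
      2 * #{i ∈ range (Nat.primeCounting x) | h < P (i + 1) - P i} := by
  set Q := primorial w with hQ
  have hQ0 : 0 < Q := primorial_pos w
  have hQ2 : 2 ≤ Q := Nat.le_of_dvd hQ0 ((dvd_primorial_iff Nat.prime_two).2 hw)
  set N := x / Q with hN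
  set M : Finset ℕ := {m ∈ Icc 1 x | ∃ q : ℕ, q.Prime ∧ m < q ∧ (q : ℝ) ≤ m + L} with hM
  set K1 : Finset ℕ := {k ∈ range N | ∃ m : ℕ, b + k * Q < m ∧ m ≤ b + (k + 1) * Q ∧
    ∃ q : ℕ, q.Prime ∧ m < q ∧ (q : ℝ) ≤ m + L} with hK1
  -- the good `m` lie in few blocks
  have hMc : #M ≤ Q * (#K1 + 2) := by
    have h1 : M ⊆ Icc 1 b ∪ ((insert N K1).biUnion (fun k => Ioc (b + k * Q) (b + (k + 1) * Q))) := by
      intro m hm
      rw [hM, mem_filter, mem_Icc] at hm
      rw [mem_union, mem_biUnion]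
      rcases le_or_gt m b with hmb | hmb
      · left; rw [mem_Icc]; exact ⟨hm.1.1, hmb⟩
      · right
        set k := (m - b - 1) / Q with hk
        have h2 := Nat.div_add_mod (m - b - 1) Q
        have h3 := Nat.mod_lt (m - b - 1) hQ0
        rw [← hk] at h2
        have h4 : Q * k = k * Q := mul_comm _ _
        have h5 : (k + 1) * Q = k * Q + Q := by ring
        have hm1 : b + k * Q < m := by omega
        have hm2 : m ≤ b + (k + 1) * Q := by omega
        refine ⟨k, ?_, mem_Ioc.2 ⟨hm1, hm2⟩⟩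
        rw [mem_insert]
        have hkN : k ≤ N := by
          rw [hN, Nat.le_div_iff_mul_le hQ0]
          omega
        rcases Nat.lt_or_ge k N with h6 | h6
        · right
          rw [hK1, mem_filter, mem_range]
          exact ⟨h6, m, hm1, hm2, hm.2⟩
        · left; omega
    have h2 := (card_le_card h1).trans (card_union_le _ _)
    have h3 : #((insert N K1).biUnion (fun k => Ioc (b + k * Q) (b + (k + 1) * Q))) ≤ (#K1 + 1) * Q := by
      refine (card_biUnion_le).trans ?_
      have h4 : ∀ k ∈ insert N K1, #(Ioc (b + k * Q) (b + (k + 1) * Q)) = Q := by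
        intro k _
        rw [Nat.card_Ioc]
        have : (k + 1) * Q = k * Q + Q := by ring
        omega
      rw [sum_congr rfl h4, sum_const, smul_eq_mul]
      exact Nat.mul_le_mul_right _ (card_insert_le _ _)
    have h4 : #(Icc 1 b) = b := by rw [Nat.card_Icc]; omega
    rw [h4] at h2
    calc #M ≤ b + (#K1 + 1) * Q := h2.trans (Nat.add_le_add_left h3 _)
      _ ≤ Q + (#K1 + 1) * Q := by omega
      _ = Q * (#K1 + 2) := by ring
  have hK1c : c0 * x / Q - 2 ≤ #K1 := by
    have h1 : c0 * x ≤ Q * ((#K1 : ℝ) + 2) := hpos.trans (by exact_mod_cast hMc)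
    have hQ' : (0 : ℝ) < Q := by exact_mod_cast hQ0
    have h2 : c0 * x / Q ≤ (#K1 : ℝ) + 2 := by
      rw [div_le_iff₀ hQ']
      linarith
    linarith
  -- windows with primes
  set S : Finset ℕ := {s ∈ Icc 1 h | (b + s).Coprime Q} with hS
  set K0 : Finset ℕ := S.biUnion (fun s => {k ∈ range N | (b + s + k * Q).Prime}) with hK0
  have hK0c : (#K0 : ℝ) ≤ #S * B := by
    have h1 : (#K0 : ℝ) ≤ ∑ s ∈ S, (#{k ∈ range N | (b + s + k * Q).Prime} : ℝ) := by
      exact_mod_cast card_biUnion_le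
    refine h1.trans ?_
    calc ∑ s ∈ S, (#{k ∈ range N | (b + s + k * Q).Prime} : ℝ) ≤ ∑ s ∈ S, B :=
          sum_le_sum fun s _ => hBT (b + s)
      _ = #S * B := by rw [sum_const, nsmul_eq_mul]
  set K2 : Finset ℕ := (K1 \ K0).erase 0 with hK2
  have hK2c : (#K1 : ℝ) - #K0 - 1 ≤ #K2 := by
    have h1 : #K1 ≤ #(K1 \ K0) + #K0 := by
      rw [← card_sdiff_add_card_inter K1 K0]
      exact Nat.add_le_add_left (card_le_card inter_subset_right) _
    have h2 : #(K1 \ K0) ≤ #K2 + 1 := by
      have := pred_card_le_card_erase (s := K1 \ K0) (a := 0)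
      rw [hK2]
      omega
    have h3 : (#K1 : ℝ) ≤ #K2 + 1 + #K0 := by exact_mod_cast (h1.trans (Nat.add_le_add_right h2 _))
    linarith
  -- the map to gaps
  set f : ℕ → ℕ := fun k => Nat.primeCounting (b + k * Q) - 1 with hf
  have hfac : ∀ k ∈ K2, k < N ∧ f k + 1 = Nat.primeCounting (b + k * Q) ∧ b + k * Q + h < P (f k + 1) ∧
      ((P (f k + 1) : ℕ) : ℝ) ≤ b + (k + 1) * Q + L := by
    intro k hk
    rw [hK2, mem_erase, Finset.mem_sdiff, hK1, mem_filter, mem_range] at hk
    obtain ⟨hk0, ⟨hkN, m, hm1, hm2, q, hq, hmq, hqL⟩, hkK0⟩ := hk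
    have hkQ : Q ≤ k * Q := Nat.le_mul_of_pos_left Q (by omega)
    have h1 : 0 < Nat.primeCounting (b + k * Q) := by
      rw [← P_le_iff]
      have : P 0 = 2 := Nat.nth_prime_zero_eq_two
      rw [this]; omega
    have h2 : f k + 1 = Nat.primeCounting (b + k * Q) := by
      rw [hf]; simp only; omega
    refine ⟨hkN, h2, ?_, ?_⟩
    · rw [h2]
      by_contra hcon
      push Not at hcon
      set r := P (Nat.primeCounting (b + k * Q)) with hr
      have hrp : r.Prime := P_prime _
      have hr1 := P_count_gt (b + k * Q)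
      apply hkK0
      rw [hK0, mem_biUnion]
      refine ⟨r - (b + k * Q), ?_, ?_⟩
      · rw [hS, mem_filter, mem_Icc]
        refine ⟨⟨by omega, by omega⟩, ?_⟩
        by_contra hc
        obtain ⟨p, hp, hp1, hp2⟩ := Nat.Prime.not_coprime_iff_dvd.1 hc
        have h3 : p ∣ r := by
          have h4 : r = b + (r - (b + k * Q)) + k * Q := by omega
          rw [h4]
          exact dvd_add hp1 (hp2.mul_left _)
        have h4 : p = r := (Nat.prime_dvd_prime_iff_eq hp hrp).1 h3
        have h5 : p ≤ Q := Nat.le_of_dvd hQ0 hp2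
        omega
      · rw [mem_filter, mem_range]
        refine ⟨hkN, ?_⟩
        have h4 : b + (r - (b + k * Q)) + k * Q = r := by omega
        rw [h4]; exact hrp
    · rw [h2]
      have h3 := P_count_le (n := b + k * Q) hq (by omega)
      have h4 : ((P (Nat.primeCounting (b + k * Q)) : ℕ) : ℝ) ≤ q := by exact_mod_cast h3
      have h5 : (m : ℝ) ≤ b + (k + 1) * Q := by exact_mod_cast hm2
      linarith
  have himg : #(K2.image f) ≤ #{i ∈ range (Nat.primeCounting x) | h < P (i + 1) - P i} := by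
    apply card_le_card
    intro i hi
    obtain ⟨k, hk, rfl⟩ := mem_image.1 hi
    obtain ⟨hkN, h2, h3, _⟩ := hfac k hk
    have h4 : P (f k) ≤ b + k * Q := by
      rw [P_le_iff]; omega
    have h5 : b + k * Q ≤ x := by
      have h6 : (k + 1) * Q ≤ x := (Nat.mul_le_mul_right Q (by omega : k + 1 ≤ N)).trans (Nat.div_mul_le_self x Q)
      have h7 : (k + 1) * Q = k * Q + Q := by ring
      omega
    rw [mem_filter, mem_range]
    refine ⟨?_, by omega⟩
    rw [← P_le_iff]
    exact h4.trans h5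
  have hfib : #K2 ≤ 2 * #(K2.image f) := by
    apply card_le_mul_card_image
    intro i _
    rcases (K2.filter (fun k => f k = i)).eq_empty_or_nonempty with he | hne
    · rw [he]; simp
    · set k0 := (K2.filter (fun k => f k = i)).min' hne with hk0
      have hk0m : k0 ∈ K2.filter (fun k => f k = i) := min'_mem _ _
      have h1 : K2.filter (fun k => f k = i) ⊆ Icc k0 (k0 + 1) := by
        intro k hk
        have h2 : k0 ≤ k := min'_le _ _ hk
        rw [mem_Icc]
        refine ⟨h2, ?_⟩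
        by_contra hcon
        push Not at hcon
        rw [mem_filter] at hk hk0m
        obtain ⟨_, _, _, h3⟩ := hfac k0 hk0m.1
        obtain ⟨_, _, h4, _⟩ := hfac k hk.1
        rw [hk0m.2] at h3
        rw [hk.2] at h4
        have h5 : (k0 + 2) * Q ≤ k * Q := Nat.mul_le_mul_right Q (by omega)
        have h6 : b + (k0 + 2) * Q < P (i + 1) := by omega
        have h7 : ((b : ℝ) + ((k0 : ℝ) + 2) * Q) < P (i + 1) := by exact_mod_cast h6
        nlinarith
      refine (card_le_card h1).trans ?_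
      rw [Nat.card_Icc]
      omega
  have hfin : (#K2 : ℝ) ≤ 2 * #{i ∈ range (Nat.primeCounting x) | h < P (i + 1) - P i} := by
    exact_mod_cast hfib.trans (Nat.mul_le_mul_left 2 himg)
  linarith

end Pool.Agent.H312R2.PG
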