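import Mathlib
import Pool.Agent.H312R2.PG.E2b

/-! Frequency of gaps `≥ lam log x` from the modules `MediumFree` and `PosProp`. -/

open Finset Filter Topology

namespace Pool.Agent.H312R2.PG

open Pool.Agent.H318R2.Cr Pool.Agent.H312R2

/-- the elementary inequalities between the parameters -/
lemma par_ineq {c2 c L lam : ℝ} (hc2 : 0 < c2) (hc : 0 < c) (hcc : 5 * c ≤ c2)
    (hL : 3 ≤ L) (hlam : 2 ≤ lam)
    (hr : lam * (Real.log lam) ^ 2 ≤ c * Real.log L) :
    (c2 / c) * Real.log lam ≤ c2 / (lam * Real.log lam) * Real.log L ∧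
    (lam * L) ^ (1 - c2 / (lam * Real.log lam)) ≤ L / 16 ∧
    16 * (lam * L) ^ (1 - c2 / (lam * Real.log lam)) ≤ (lam * L) ^ (1 - c / (lam * Real.log lam)) := by
  have hll : 0.69 < Real.log lam :=
    lt_of_lt_of_le (by have := Real.log_two_gt_d9; linarith) (Real.log_le_log (by norm_num) hlam)
  have hll2 : Real.log 2 ≤ Real.log lam := Real.log_le_log (by norm_num) hlam
  have hl2 : 0.69 < Real.log 2 := by have := Real.log_two_gt_d9; linarith
  have hlamp : 0 < lam := by linarith
  have hd : 0 < lam * Real.log lam := by positivity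
  have hLp : 0 < L := by linarith
  have hLL : 0 < Real.log L := Real.log_pos (by linarith)
  set ℓ := Real.log lam with hℓ
  set η := c2 / (lam * ℓ) with hη
  have hη0 : 0 < η := by positivity
  have h1 : (c2 / c) * ℓ ≤ η * Real.log L := by
    rw [hη, div_mul_eq_mul_div, div_mul_eq_mul_div, div_le_div_iff₀ hc hd]
    have : c2 * (lam * ℓ ^ 2) ≤ c2 * (c * Real.log L) := mul_le_mul_of_nonneg_left hr hc2.le
    nlinarith
  have h5 : 5 ≤ c2 / c := by rw [le_div_iff₀ hc]; linarith
  set Lam := lam * L with hLam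
  have hLamp : 0 < Lam := by positivity
  have hlogLam : Real.log Lam = ℓ + Real.log L := by
    rw [hLam, Real.log_mul hlamp.ne' hLp.ne']
  have h2 : 5 * ℓ ≤ η * Real.log Lam := by
    have : η * Real.log L ≤ η * Real.log Lam := by
      apply mul_le_mul_of_nonneg_left _ hη0.le
      rw [hlogLam]; linarith
    have h6 : 5 * ℓ ≤ (c2 / c) * ℓ := by
      apply mul_le_mul_of_nonneg_right h5; linarith
    linarith
  refine ⟨h1, ?_, ?_⟩
  · rw [← Real.log_le_log_iff (by positivity) (by positivity), Real.log_rpow hLamp,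
      Real.log_div hLp.ne' (by norm_num)]
    have h16 : Real.log 16 = 4 * Real.log 2 := by
      rw [show (16 : ℝ) = 2 ^ 4 by norm_num, Real.log_pow]; norm_num
    rw [h16]
    nlinarith
  · rw [← Real.log_le_log_iff (by positivity) (by positivity),
      Real.log_mul (by norm_num) (by positivity), Real.log_rpow hLamp, Real.log_rpow hLamp]
    have h16 : Real.log 16 = 4 * Real.log 2 := by
      rw [show (16 : ℝ) = 2 ^ 4 by norm_num, Real.log_pow]; norm_num
    rw [h16]
    have h7 : c / (lam * ℓ) = (c / c2) * η := by rw [hη]; field_simp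
    rw [h7]
    have h8 : c / c2 ≤ 1 / 5 := by rw [div_le_iff₀ hc2]; linarith
    have h9 : (c / c2) * (η * Real.log Lam) ≤ (1 / 5) * (η * Real.log Lam) := by
      apply mul_le_mul_of_nonneg_right h8; linarith
    have h10 : (4 / 5) * (5 * ℓ) ≤ (4 / 5) * (η * Real.log Lam) := by
      apply mul_le_mul_of_nonneg_left h2; norm_num
    nlinarith

/-- optimisation of the parameters of the sieve -/
lemma par_opt {C3 c0 A c2 lam : ℝ} (hC3 : 0 < C3) (hc0 : 0 < c0) (hA2 : 2 ≤ A)
    (hA : 16 * C3 ≤ A * c0) (hlam : 2 ≤ lam) (hc2 : 0 < c2)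
    (hc2' : c2 * (C3 * (1 + 2 * Real.log A)) ≤ c0 / 16) :
    C3 * (lam * (2 * Real.log (A * lam)) *
      (Real.exp (-(2 * Real.log (A * lam))) + c2 / (lam * Real.log lam))) ≤ c0 / 4 := by
  have hll : 0.69 < Real.log lam :=
    lt_of_lt_of_le (by have := Real.log_two_gt_d9; linarith) (Real.log_le_log (by norm_num) hlam)
  have hlamp : 0 < lam := by linarith
  have hAp : 0 < A := by linarith
  have hAl : 0 < A * lam := by positivity
  have h1 : Real.exp (-(2 * Real.log (A * lam))) = 1 / (A * lam) ^ 2 := by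
    rw [Real.exp_neg, two_mul, Real.exp_add, Real.exp_log hAl]
    rw [one_div]; ring_nf
  have h2 : Real.log (A * lam) ≤ A * lam := (Real.log_le_sub_one_of_pos hAl).trans (by linarith)
  have h3 : lam * (2 * Real.log (A * lam)) * (1 / (A * lam) ^ 2) ≤ 2 / A := by
    have h4 : lam * (2 * Real.log (A * lam)) * (1 / (A * lam) ^ 2) ≤
        lam * (2 * (A * lam)) * (1 / (A * lam) ^ 2) := by gcongr
    refine h4.trans (le_of_eq ?_)
    field_simp
  have hlA : 0 ≤ Real.log A := Real.log_nonneg (by linarith)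
  have h4 : lam * (2 * Real.log (A * lam)) * (c2 / (lam * Real.log lam)) ≤ 2 * (c2 * (1 + 2 * Real.log A)) := by
    rw [Real.log_mul hAp.ne' hlamp.ne']
    have h5 : lam * (2 * (Real.log A + Real.log lam)) * (c2 / (lam * Real.log lam)) =
        2 * (c2 * (1 + Real.log A / Real.log lam)) := by field_simp; ring
    rw [h5]
    have h6 : Real.log A / Real.log lam ≤ 2 * Real.log A := by
      rw [div_le_iff₀ (by linarith)]
      nlinarith
    gcongr
  have h5 : C3 * (2 / A) ≤ c0 / 8 := by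
    rw [mul_div_assoc', div_le_iff₀ hAp]
    linarith
  calc C3 * (lam * (2 * Real.log (A * lam)) *
      (Real.exp (-(2 * Real.log (A * lam))) + c2 / (lam * Real.log lam)))
      = C3 * (lam * (2 * Real.log (A * lam)) * (1 / (A * lam) ^ 2)) +
        C3 * (lam * (2 * Real.log (A * lam)) * (c2 / (lam * Real.log lam))) := by rw [h1]; ring
    _ ≤ C3 * (2 / A) + C3 * (2 * (c2 * (1 + 2 * Real.log A))) := by gcongr
    _ = C3 * (2 / A) + 2 * (c2 * (C3 * (1 + 2 * Real.log A))) := by ring
    _ ≤ c0 / 8 + 2 * (c0 / 16) := by gcongr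
    _ = c0 / 4 := by ring

/-- the sieve bound for the number of windows with primes -/
lemma surv_bound {CE CB c₂ c0 C3 A c2 lam L h' lh lN lw N S V0 Vu : ℝ}
    (hCE : 0 < CE) (hCB : 0 < CB) (hc₂ : 0 < c₂) (hc0 : 0 < c0) (hC3 : C3 = 8 * c₂ * CE * CB)
    (hA2 : 2 ≤ A) (hA : 16 * C3 ≤ A * c0) (hlam : 2 ≤ lam) (hc2 : 0 < c2)
    (hc2' : c2 * (C3 * (1 + 2 * Real.log A)) ≤ c0 / 16)
    (hL : 0 < L) (hN : 0 ≤ N) (hh0 : 0 ≤ h') (hh : h' ≤ 2 * (lam * L)) (hlh : 0 < lh) (hlN : L / 2 ≤ lN)
    (hlw0 : 0 ≤ lw) (hlw : lw ≤ lh) (hS : S ≤ Vu * V0) (hVu0 : 0 ≤ Vu)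
    (hVu : Vu ≤ 2 * c₂ * (2 * Real.log (A * lam)) / lh)
    (hV0 : V0 ≤ CE * (Real.exp (-(2 * Real.log (A * lam))) + c2 / (lam * Real.log lam)) * h') :
    S * (CB * N * (lw / lN)) ≤ (c0 / 4) * N := by
  have hopt := par_opt (C3 := C3) (by rw [hC3]; positivity) hc0 hA2 hA hlam hc2 hc2'
  have hll : 0.69 < Real.log lam :=
    lt_of_lt_of_le (by have := Real.log_two_gt_d9; linarith) (Real.log_le_log (by norm_num) hlam)
  set W := Real.exp (-(2 * Real.log (A * lam))) + c2 / (lam * Real.log lam) with hW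
  have hW0 : 0 < W := by
    have : 0 < c2 / (lam * Real.log lam) := by positivity
    have := Real.exp_pos (-(2 * Real.log (A * lam)))
    linarith
  set U := 2 * Real.log (A * lam) with hU
  have hU0 : 0 < U := by
    have : 0 < Real.log (A * lam) := Real.log_pos (by nlinarith)
    linarith
  have h1 : S ≤ (2 * c₂ * U / lh) * (CE * W * h') :=
    hS.trans ((mul_le_mul_of_nonneg_left hV0 hVu0).trans (mul_le_mul_of_nonneg_right hVu (by positivity)))
  have hlNp : 0 < lN := by linarith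
  have h2 : lw / lN ≤ lh / (L / 2) := by
    apply div_le_div₀ hlh.le hlw (by positivity) hlN
  have h3 : CB * N * (lw / lN) ≤ CB * N * (lh / (L / 2)) :=
    mul_le_mul_of_nonneg_left h2 (by positivity)
  calc S * (CB * N * (lw / lN)) ≤ (2 * c₂ * U / lh) * (CE * W * h') * (CB * N * (lw / lN)) :=
        mul_le_mul_of_nonneg_right h1 (by positivity)
    _ ≤ (2 * c₂ * U / lh) * (CE * W * h') * (CB * N * (lh / (L / 2))) :=
        mul_le_mul_of_nonneg_left h3 (by positivity)
    _ ≤ (2 * c₂ * U / lh) * (CE * W * (2 * (lam * L))) * (CB * N * (lh / (L / 2))) := by gcongr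
    _ = C3 * (lam * U * W) * N := by rw [hC3]; field_simp; ring
    _ ≤ (c0 / 4) * N := mul_le_mul_of_nonneg_right hopt hN

end Pool.Agent.H312R2.PG
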