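import Mathlib
import Pool.Agent.H312R2.PG.E2c

/-! Frequency of gaps `≥ lam log x` from the modules `MediumFree` and `PosProp`. -/

open Finset Filter Topology

namespace Pool.Agent.H312R2.PG

open Pool.Agent.H318R2.Cr Pool.Agent.H312R2

theorem T2_of (hMF : MediumFree) (hPP : PosProp) : ∃ c : ℝ, 0 < c ∧ ∃ x₀ : ℕ, ∀ x : ℕ, x₀ ≤ x →
    ∀ lam : ℝ, 2 ≤ lam → lam * (Real.log lam) ^ 2 ≤ c * Real.log (Real.log x) →
    x * Real.exp (-((lam * Real.log x) ^ (1 - c / (lam * Real.log lam)))) ≤
      #{i ∈ range (Nat.primeCounting x) | lam * Real.log x ≤ ((P (i + 1) - P i : ℕ) : ℝ)} := by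
  classical
  obtain ⟨CE, hCE, hE⟩ := hMF
  obtain ⟨c0, x1, hc0, hP⟩ := hPP
  obtain ⟨CB, hCB, UB, hUB, hB⟩ := bt_prim
  obtain ⟨c₁, c₂, hc1, hc12, hcz⟩ := cz_bounds
  obtain ⟨w0, hw0⟩ := theta_lower
  have hc₂ : 0 < c₂ := hc1.trans_le hc12
  set C3 := 8 * c₂ * CE * CB with hC3
  have hC3p : 0 < C3 := by positivity
  set A := max 2 (16 * C3 / c0) with hAdef
  have hA2 : 2 ≤ A := le_max_left _ _
  have hA : 16 * C3 ≤ A * c0 := by
    have : 16 * C3 / c0 ≤ A := le_max_right _ _
    rwa [div_le_iff₀ hc0] at this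
  have hlA : 0 ≤ Real.log A := Real.log_nonneg (by linarith)
  set c2 := min (1 / 2) (c0 / (16 * (C3 * (1 + 2 * Real.log A)))) with hc2def
  have hc2 : 0 < c2 := by positivity
  have hc2h : c2 ≤ 1 / 2 := min_le_left _ _
  have hc2' : c2 * (C3 * (1 + 2 * Real.log A)) ≤ c0 / 16 := by
    have h1 : c2 ≤ c0 / (16 * (C3 * (1 + 2 * Real.log A))) := min_le_right _ _
    have h2 : 0 < C3 * (1 + 2 * Real.log A) := by positivity
    calc c2 * (C3 * (1 + 2 * Real.log A)) ≤ c0 / (16 * (C3 * (1 + 2 * Real.log A))) * (C3 * (1 + 2 * Real.log A)) := by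
          gcongr
      _ = c0 / 16 := by field_simp
  set c := min (c2 / 5) (min (c2 / (2 * CE)) (1 / 10)) with hcdef
  have hc : 0 < c := by positivity
  have hc5 : 5 * c ≤ c2 := by
    have : c ≤ c2 / 5 := min_le_left _ _
    linarith
  have hcCE : 2 * CE * c ≤ c2 := by
    have h1 : c ≤ c2 / (2 * CE) := (min_le_right _ _).trans (min_le_left _ _)
    rw [le_div_iff₀ (by positivity)] at h1
    linarith
  have hc10 : c ≤ 1 / 10 := (min_le_right _ _).trans (min_le_right _ _)
  -- asymptotic conditions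
  have tL : Tendsto (fun x : ℕ => Real.log (x : ℝ)) atTop atTop :=
    Real.tendsto_log_atTop.comp tendsto_natCast_atTop_atTop
  have tLL : Tendsto (fun x : ℕ => Real.log (Real.log (x : ℝ))) atTop atTop :=
    Real.tendsto_log_atTop.comp tL
  have tS : Tendsto (fun x : ℕ => Real.sqrt (Real.log (x : ℝ))) atTop atTop :=
    Real.tendsto_sqrt_atTop.comp tL
  have tR : Tendsto (fun x : ℕ => Real.log (Real.log (x : ℝ)) / Real.sqrt (Real.log (x : ℝ))) atTop (𝓝 0) := by
    have h1 : Tendsto (fun y : ℝ => Real.log y / y ^ (1 / 2 : ℝ)) atTop (𝓝 0) :=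
      (isLittleO_log_rpow_atTop (by norm_num : (0 : ℝ) < 1 / 2)).tendsto_div_nhds_zero
    have h2 := h1.comp tL
    refine h2.congr fun x => ?_
    simp only [Function.comp, Real.sqrt_eq_rpow]
  have e1 := tLL.eventually_ge_atTop (16 * Real.log A + 16)
  have e2 := tS.eventually_ge_atTop (4 + 2 * w0 + |Real.log (4 / c0)|)
  have e3 := tR.eventually (gt_mem_nhds (show (0 : ℝ) < 1 / (8 * UB) by positivity))
  have e4 := tL.eventually_ge_atTop (4 + 4 * Real.log (12 / c0))
  obtain ⟨x2, h2⟩ := eventually_atTop.1 ((e1.and e2).and (e3.and e4))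
  refine ⟨c, hc, max x1 (max x2 3), fun x hx lam hlam hr => ?_⟩
  have hxa : x1 ≤ x := (le_max_left _ _).trans hx
  have hxb : x2 ≤ x := (le_max_left _ _).trans ((le_max_right _ _).trans hx)
  have hxc : 3 ≤ x := (le_max_right _ _).trans ((le_max_right _ _).trans hx)
  obtain ⟨⟨f1, f2⟩, f3, f4⟩ := h2 x hxb
  have hxpos : (0 : ℝ) < x := by exact_mod_cast (by omega : 0 < x)
  set L := Real.log x with hL
  set LL := Real.log L with hLL
  have hLL16 : 16 ≤ LL := by linarith
  have hLpos : 0 < L := by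
    by_contra hcon
    push Not at hcon
    have h5 : Real.sqrt L = 0 := Real.sqrt_eq_zero_of_nonpos hcon
    have h6 : LL ≤ 16 := by
      rcases eq_or_lt_of_le hcon with h | h
      · rw [hLL, h, Real.log_zero]; norm_num
      · -- log x is nonnegative
        have : 0 ≤ L := Real.log_nonneg (by exact_mod_cast (by omega : 1 ≤ x))
        linarith
    have h7 : 4 + 2 * (w0 : ℝ) + |Real.log (4 / c0)| ≤ 0 := by rw [← h5]; exact f2
    have h8 : 0 ≤ L := Real.log_nonneg (by exact_mod_cast (by omega : 1 ≤ x))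
    have h9 : L = 0 := le_antisymm hcon h8
    have h10 : LL = 0 := by rw [hLL, h9, Real.log_zero]
    linarith
  have hL1 : 16 ≤ L := by
    have := Real.log_le_sub_one_of_pos hLpos
    linarith
  have hs0 : 0 < Real.sqrt L := Real.sqrt_pos.2 hLpos
  have hss : Real.sqrt L * Real.sqrt L = L := Real.mul_self_sqrt hLpos.le
  have hLLs : 8 * UB * LL ≤ Real.sqrt L := by
    rw [div_lt_iff₀ hs0, div_mul_eq_mul_div, lt_div_iff₀ (by positivity)] at f3
    linarith
  have hs4 : 4 ≤ Real.sqrt L := Real.le_sqrt_of_sq_le (by linarith)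
  -- lam
  have hll : 0.69 < Real.log lam :=
    lt_of_lt_of_le (by have := Real.log_two_gt_d9; linarith) (Real.log_le_log (by norm_num) hlam)
  have hl2 : 0.69 < Real.log 2 := by have := Real.log_two_gt_d9; linarith
  have hl2u : Real.log 2 < 0.7 := by have := Real.log_two_lt_d9; linarith
  have hlamp : 0 < lam := by linarith
  have hloglam : Real.log lam ≤ LL / 10 := by
    have h5 : Real.log lam ≤ lam * (Real.log lam) ^ 2 := by
      have h6 : 1 ≤ lam * Real.log lam := by
        calc (1 : ℝ) ≤ 2 * 0.69 := by norm_num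
          _ ≤ lam * Real.log lam := mul_le_mul hlam hll.le (by norm_num) hlamp.le
      calc Real.log lam = 1 * Real.log lam := (one_mul _).symm
        _ ≤ (lam * Real.log lam) * Real.log lam := mul_le_mul_of_nonneg_right h6 (by linarith)
        _ = lam * (Real.log lam) ^ 2 := by ring
    have h6 : c * LL ≤ (1 / 10) * LL := mul_le_mul_of_nonneg_right hc10 (by linarith)
    linarith
  obtain ⟨g1, g2, g3⟩ := par_ineq hc2 hc hc5 (by linarith : 3 ≤ L) hlam hr
  set η := c2 / (lam * Real.log lam) with hη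
  have hdpos : 1 ≤ lam * Real.log lam := by
    calc (1 : ℝ) ≤ 2 * 0.69 := by norm_num
      _ ≤ lam * Real.log lam := mul_le_mul hlam hll.le (by norm_num) hlamp.le
  have hη0 : 0 < η := by positivity
  have hη1 : η ≤ 1 / 2 := by
    rw [hη, div_le_iff₀ (by linarith)]
    linarith
  set Lam := lam * L with hLam
  have hLamp : 0 < Lam := by positivity
  have hLam32 : 32 ≤ Lam := by
    calc (32 : ℝ) = 2 * 16 := by norm_num
      _ ≤ lam * L := mul_le_mul hlam hL1 (by norm_num) hlamp.le
  have hLLam : L ≤ Lam := le_mul_of_one_le_left hLpos.le (by linarith)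
  set h := ⌈Lam⌉₊ with hh
  have hh1 : Lam ≤ h := Nat.le_ceil _
  have hh2 : (h : ℝ) ≤ 2 * Lam := by
    have := Nat.ceil_lt_add_one hLamp.le
    linarith
  have hhpos : (0 : ℝ) < h := by linarith
  have hh1' : (1 : ℝ) ≤ h := by linarith
  have hlogh1 : LL ≤ Real.log h := Real.log_le_log hLpos (hLLam.trans hh1)
  have hlogh2 : Real.log h ≤ 2 * LL := by
    have h5 : Real.log h ≤ Real.log (2 * Lam) := Real.log_le_log hhpos hh2
    have h6 : Real.log (2 * Lam) = Real.log 2 + (Real.log lam + LL) := by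
      rw [Real.log_mul (by norm_num) hLamp.ne', hLam, Real.log_mul hlamp.ne' hLpos.ne']
    linarith
  set U := 2 * Real.log (A * lam) with hU
  have hU2 : U = 2 * (Real.log A + Real.log lam) := by
    rw [hU, Real.log_mul (by linarith) hlamp.ne']
  have hlA2 : 0.69 < Real.log A := hl2.trans_le (Real.log_le_log (by norm_num) hA2)
  have hU1 : 2 ≤ U := by rw [hU2]; linarith
  have hUh : U ≤ Real.log h / 2 := by rw [hU2]; linarith
  have hηh : CE ≤ η * Real.log h := by
    have h5 : η * LL ≤ η * Real.log h := mul_le_mul_of_nonneg_left hlogh1 hη0.le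
    have h6 : CE ≤ (c2 / c) * Real.log lam := by
      rw [div_mul_eq_mul_div, le_div_iff₀ hc]
      have h7 : 2 * CE * c * Real.log lam ≤ c2 * Real.log lam := mul_le_mul_of_nonneg_right hcCE (by linarith)
      have h8 : CE * c * 1 ≤ CE * c * (2 * Real.log lam) :=
        mul_le_mul_of_nonneg_left (by linarith) (mul_pos hCE hc).le
      linarith only [h7, h8]
    linarith
  have hV0 := hE h U η (by linarith) hη0 hη1 hUh hηh
  -- u and w
  set tu := (h : ℝ) ^ (1 / U) with htu
  set tw := (h : ℝ) ^ (1 - η) with htw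
  have hlogtu : Real.log tu = Real.log h / U := by rw [htu, Real.log_rpow hhpos]; ring
  have htu2 : 2 ≤ tu := by
    rw [← Real.log_le_log_iff (by norm_num) (by positivity), hlogtu, le_div_iff₀ (by linarith)]
    have h5 : Real.log 2 * U ≤ 1 * U := mul_le_mul_of_nonneg_right (by linarith) (by linarith)
    linarith
  have htutw : tu ≤ tw := by
    apply Real.rpow_le_rpow_of_exponent_le hh1'
    have : 1 / U ≤ 1 / 2 := one_div_le_one_div_of_le (by norm_num) hU1
    linarith
  set u := ⌊tu⌋₊ with hu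
  set w := ⌊tw⌋₊ with hw
  have huw : u ≤ w := Nat.floor_le_floor htutw
  have hu2 : 2 ≤ u := Nat.le_floor (by exact_mod_cast htu2)
  have hw2 : 2 ≤ w := hu2.trans huw
  have hlogu : Real.log h / (2 * U) ≤ Real.log u := by
    have := log_floor_ge htu2
    rw [hlogtu] at this
    calc Real.log h / (2 * U) = Real.log h / U / 2 := by field_simp
      _ ≤ _ := this
  have hwtw : (w : ℝ) ≤ tw := Nat.floor_le (by positivity)
  have hwh : (w : ℝ) ≤ h := by
    refine hwtw.trans ?_
    calc tw ≤ (h : ℝ) ^ (1 : ℝ) := Real.rpow_le_rpow_of_exponent_le hh1' (by linarith)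
      _ = h := Real.rpow_one _
  have hw2' : (2 : ℝ) ≤ w := by exact_mod_cast hw2
  have hlogw : Real.log w ≤ Real.log h := Real.log_le_log (by linarith) hwh
  have hlogw0 : 0 ≤ Real.log w := Real.log_nonneg (by linarith)
  obtain ⟨b, hb, hS⟩ := class_exists huw (Icc 1 h)
  set Q := primorial w with hQ
  have hQ0 : 0 < Q := primorial_pos w
  have hQ0' : (0 : ℝ) < Q := by exact_mod_cast hQ0
  set E := Lam ^ (1 - η) with hEdef
  have hEp : 0 < E := by positivity
  have htwE : tw ≤ 2 * E := by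
    calc tw ≤ (2 * Lam) ^ (1 - η) := Real.rpow_le_rpow hhpos.le hh2 (by linarith)
      _ = 2 ^ (1 - η) * E := by rw [Real.mul_rpow (by norm_num) hLamp.le]
      _ ≤ 2 ^ (1 : ℝ) * E := by
        apply mul_le_mul_of_nonneg_right _ hEp.le
        exact Real.rpow_le_rpow_of_exponent_le (by norm_num) (by linarith)
      _ = 2 * E := by rw [Real.rpow_one]
  have hlogQ : Real.log Q ≤ 3 * E := by
    have h5 : Real.log (Q : ℝ) ≤ Real.log ((4 : ℝ) ^ w) := by
      apply Real.log_le_log hQ0'
      exact_mod_cast primorial_le_four_pow w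
    rw [Real.log_pow] at h5
    have h6 : Real.log 4 < 1.4 := by
      rw [show (4 : ℝ) = 2 ^ 2 by norm_num, Real.log_pow]; push_cast; linarith
    have h7 : (w : ℝ) * Real.log 4 ≤ 2 * E * 1.4 := by
      apply mul_le_mul (hwtw.trans htwE) h6.le (Real.log_nonneg (by norm_num)) (by positivity)
    linarith
  have hE16 : E ≤ L / 16 := g2
  have hEs : Real.sqrt L ≤ E := by
    have h5 : Real.sqrt L ≤ Real.sqrt Lam := Real.sqrt_le_sqrt hLLam
    refine h5.trans ?_
    rw [Real.sqrt_eq_rpow]
    apply Real.rpow_le_rpow_of_exponent_le (by linarith) (by linarith)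
  -- sizes
  have hxexp : Real.exp L = x := Real.exp_log hxpos
  have hQexp : (Q : ℝ) ≤ Real.exp (L / 4) := by
    rw [← Real.log_le_iff_le_exp hQ0']
    linarith
  have hxQ : Real.exp (3 * L / 4) ≤ x / Q := by
    rw [le_div_iff₀ hQ0', ← hxexp]
    calc Real.exp (3 * L / 4) * Q ≤ Real.exp (3 * L / 4) * Real.exp (L / 4) := by gcongr
      _ = Real.exp L := by rw [← Real.exp_add]; congr 1; ring
  set N := x / Q with hN
  have hNle : (N : ℝ) ≤ x / Q := by rw [hN]; exact Nat.cast_div_le
  have hNge : (x : ℝ) / Q < N + 1 := by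
    rw [div_lt_iff₀ hQ0']
    have h5 : x < (N + 1) * Q := by
      exact (Nat.div_lt_iff_lt_mul hQ0).1 (Nat.lt_succ_self _)
    exact_mod_cast h5
  have hNexp : Real.exp (L / 2) ≤ N := by
    have h5 : Real.exp (L / 2) + 1 ≤ Real.exp (3 * L / 4) := by
      have h6 : Real.exp (3 * L / 4) = Real.exp (L / 2) * Real.exp (L / 4) := by
        rw [← Real.exp_add]; congr 1; ring
      have h7 : 2 ≤ Real.exp (L / 4) := by
        have := Real.add_one_le_exp (L / 4)
        linarith
      have h8 : 1 ≤ Real.exp (L / 2) := Real.one_le_exp (by linarith)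
      rw [h6]
      calc Real.exp (L / 2) + 1 ≤ Real.exp (L / 2) + Real.exp (L / 2) := by linarith only [h8]
        _ = Real.exp (L / 2) * 2 := by ring
        _ ≤ Real.exp (L / 2) * Real.exp (L / 4) := mul_le_mul_of_nonneg_left h7 (Real.exp_pos _).le
    linarith only [h5, hxQ, hNge]
  have hNp : (0 : ℝ) < N := (Real.exp_pos _).trans_le hNexp
  have hN2 : 2 ≤ N := by
    have h5 : (2 : ℝ) ≤ N := by
      refine le_trans ?_ hNexp
      have := Real.add_one_le_exp (L / 2)
      linarith
    exact_mod_cast h5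
  have hlogN : L / 2 ≤ Real.log N := by
    rw [Real.le_log_iff_exp_le hNp]; exact hNexp
  have hUBw : UB * Real.log w ≤ Real.log N := by
    have h5 : UB * Real.log w ≤ UB * (2 * LL) := mul_le_mul_of_nonneg_left (hlogw.trans hlogh2) (by linarith)
    have h6 : Real.sqrt L ≤ L := by
      calc Real.sqrt L = 1 * Real.sqrt L := (one_mul _).symm
        _ ≤ Real.sqrt L * Real.sqrt L := mul_le_mul_of_nonneg_right (by linarith only [hs4]) hs0.le
        _ = L := hss
    have h7 : UB * (2 * LL) = (8 * UB * LL) / 4 := by ring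
    linarith only [h5, h6, h7, hLLs, hlogN, hLpos]
  have hBT : ∀ a : ℕ, (#{k ∈ range (x / primorial w) | (a + k * primorial w).Prime} : ℝ) ≤
      CB * N * (Real.log w / Real.log N) := fun a => hB w N a hw2 hN2 hUBw
  -- the modulus is larger than L
  have hLQ : L ≤ Q := by
    have h5 : (w : ℝ) ≥ Real.sqrt L - 1 := by
      have h6 : tw < w + 1 := Nat.lt_floor_add_one _
      have h7 : Real.sqrt L ≤ tw := by
        have h8 : Real.sqrt L ≤ Real.sqrt h := Real.sqrt_le_sqrt (hLLam.trans hh1)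
        refine h8.trans ?_
        rw [Real.sqrt_eq_rpow]
        apply Real.rpow_le_rpow_of_exponent_le hh1' (by linarith)
      linarith
    have h6 : w0 ≤ w := by
      have h7 : (w0 : ℝ) ≤ w := by
        have h8 := abs_nonneg (Real.log (4 / c0))
        have h9 : (0 : ℝ) ≤ w0 := Nat.cast_nonneg _
        linarith only [h5, h8, h9, f2]
      exact_mod_cast h7
    have h7 := hw0 w h6
    rw [Chebyshev.theta_eq_log_primorial, Nat.floor_natCast] at h7
    rw [← Real.log_le_log_iff hLpos hQ0']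
    have h8 : LL ≤ Real.sqrt L / 8 := by
      have h9 : 1 * (8 * LL) ≤ UB * (8 * LL) := mul_le_mul_of_nonneg_right hUB (by linarith only [hLL16])
      linarith only [h9, hLLs]
    linarith
  have hG := gaps_ge (x := x) (w := w) (b := b) (h := h) (c0 := c0) hw2 hb hLpos.le hLQ (hP x hxa) hBT
  have hVu : V u ≤ 2 * c₂ * U / Real.log h := by
    have hlh0 : 0 < Real.log h := by linarith only [hlogh1, hLL16]
    have hU0 : 0 < U := by linarith only [hU1]
    have hlu : 0 < Real.log u := lt_of_lt_of_le (by positivity) hlogu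
    have h5 : V u ≤ c₂ / Real.log u := by
      rw [le_div_iff₀ hlu]; exact (hcz u hu2).2
    refine h5.trans ?_
    have h6 : c₂ / Real.log u ≤ c₂ / (Real.log h / (2 * U)) :=
      div_le_div_of_nonneg_left hc₂.le (by positivity) hlogu
    refine h6.trans (le_of_eq ?_)
    field_simp
  have hS2 : (#{s ∈ Icc 1 h | ∀ p : ℕ, p.Prime → u < p → p ≤ w → ¬ p ∣ s} : ℝ) ≤
      CE * (Real.exp (-U) + η) * h := by
    refine le_trans ?_ hV0
    have : {s ∈ Icc 1 h | ∀ p : ℕ, p.Prime → u < p → p ≤ w → ¬ p ∣ s} ⊆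
        (Icc 1 h).filter (fun s => ∀ p : ℕ, p.Prime → (h : ℝ) ^ (1 / U) < p → (p : ℝ) ≤ (h : ℝ) ^ (1 - η) → ¬ p ∣ s) := by
      intro s hs
      rw [mem_filter] at hs ⊢
      refine ⟨hs.1, fun p hp hp1 hp2 => hs.2 p hp ?_ (Nat.le_floor hp2)⟩
      rw [hu, Nat.floor_lt (by positivity)]
      exact hp1
    exact_mod_cast card_le_card this
  have hkey := surv_bound (N := (N : ℝ)) (lw := Real.log w) (lN := Real.log N) (lh := Real.log h) (h' := (h : ℝ))
    hCE (by linarith : 0 < CB) hc₂ hc0 hC3 hA2 hA hlam hc2 hc2' hLpos hNp.le hhpos.le hh2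
    (by linarith) hlogN hlogw0 hlogw hS (V_pos u).le hVu hS2
  have h12 : 12 / c0 ≤ x / Q := by
    refine le_trans ?_ hxQ
    rcases le_or_gt (12 / c0) 1 with h5 | h5
    · exact h5.trans (Real.one_le_exp (by linarith))
    · rw [← Real.log_le_iff_le_exp (by positivity)]
      linarith
  have hfin1 : c0 / 4 * (x / Q) ≤ #{i ∈ range (Nat.primeCounting x) | h < P (i + 1) - P i} := by
    have h5 : (c0 / 4) * N ≤ (c0 / 4) * (x / Q) := by gcongr
    have h6 : 3 ≤ (c0 / 4) * (x / Q) := by
      calc (3 : ℝ) = (c0 / 4) * (12 / c0) := by field_simp; norm_num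
        _ ≤ _ := by gcongr
    have h7 : c0 * x / Q = c0 * (x / Q) := by ring
    rw [h7] at hG
    linarith
  have hfin2 : (#{i ∈ range (Nat.primeCounting x) | h < P (i + 1) - P i} : ℝ) ≤
      #{i ∈ range (Nat.primeCounting x) | lam * Real.log x ≤ ((P (i + 1) - P i : ℕ) : ℝ)} := by
    have : {i ∈ range (Nat.primeCounting x) | h < P (i + 1) - P i} ⊆
        {i ∈ range (Nat.primeCounting x) | lam * Real.log x ≤ ((P (i + 1) - P i : ℕ) : ℝ)} := by
      intro i hi
      rw [mem_filter] at hi ⊢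
      refine ⟨hi.1, ?_⟩
      have h5 : (h : ℝ) ≤ ((P (i + 1) - P i : ℕ) : ℝ) := by exact_mod_cast hi.2.le
      exact hh1.trans h5
    exact_mod_cast card_le_card this
  refine le_trans ?_ (hfin1.trans hfin2)
  -- final comparison
  set F := Lam ^ (1 - c / (lam * Real.log lam)) with hF
  have h5 : Real.log Q + Real.log (4 / c0) ≤ F := by
    have : 16 * E ≤ F := g3
    have hw0' : (0 : ℝ) ≤ w0 := Nat.cast_nonneg _
    have h8 := le_abs_self (Real.log (4 / c0))
    linarith only [this, hw0', h8, f2, hEs, hlogQ, hEp]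
  have h6 : Q * (4 / c0) ≤ Real.exp F := by
    rw [← Real.log_le_iff_le_exp (by positivity), Real.log_mul hQ0'.ne' (by positivity)]
    exact h5
  rw [Real.exp_neg]
  have h7 : (Real.exp F)⁻¹ ≤ (Q * (4 / c0))⁻¹ := inv_anti₀ (by positivity) h6
  calc (x : ℝ) * (Real.exp F)⁻¹ ≤ x * (Q * (4 / c0))⁻¹ := by gcongr
    _ = c0 / 4 * (x / Q) := by field_simp

end Pool.Agent.H312R2.PG
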