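import Mathlib
import Pool.Agent.H312R2.PG.Iface
import Pool.Agent.H312R2.Diam

/-! A positive proportion of the intervals of length `log x` contain a prime. -/

open Finset Filter Topology

namespace Pool.Agent.H312R2.PG

open Pool.Agent.H312R2

/-- few small gaps -/
lemma small_gaps : ∃ C : ℝ, 0 < C ∧ ∃ x₀ : ℕ, ∀ x : ℕ, x₀ ≤ x → ∀ D : ℕ,
    (#{m ∈ range (Nat.primeCounting x) | P (m + 1) - P m ≤ D} : ℝ) ≤
      C * (D + 1) * (x / (Real.log x) ^ 2) := by
  classical
  obtain ⟨C, hC, A, x0, h1⟩ := cnt_upper 2 (by norm_num)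
  obtain ⟨C', hC', h2⟩ := Fac_sum 2 le_rfl A
  refine ⟨C * C', by positivity, x0, fun x hx D => ?_⟩
  have h3 : {m ∈ range (Nat.primeCounting x) | P (m + 1) - P m ≤ D} ⊆
      (base 2 D).biUnion (fun H => {m ∈ range (Nat.primeCounting x) | pat 2 m = H}) := by
    intro m hm
    rw [mem_filter] at hm
    rw [mem_biUnion]
    refine ⟨pat 2 m, ?_, mem_filter.2 ⟨hm.1, rfl⟩⟩
    rw [mem_base]
    refine ⟨⟨?_, pat_card 2 m⟩, zero_mem_pat (by omega) m⟩
    intro h hh
    have := mem_pat_le hh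
    have h4 : P (m + (2 - 1)) = P (m + 1) := rfl
    rw [h4] at this
    rw [mem_range]
    omega
  have h4 : (#{m ∈ range (Nat.primeCounting x) | P (m + 1) - P m ≤ D} : ℝ) ≤
      ∑ H ∈ base 2 D, (#{n ∈ Icc 1 x | ∀ h ∈ H, (n + h).Prime} : ℝ) := by
    have h5 := (card_le_card h3).trans card_biUnion_le
    have h6 : ∑ H ∈ base 2 D, #{m ∈ range (Nat.primeCounting x) | pat 2 m = H} ≤
        ∑ H ∈ base 2 D, #{n ∈ Icc 1 x | ∀ h ∈ H, (n + h).Prime} := by
      apply sum_le_sum
      intro H _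
      refine (count_pat_le 2 x H).trans (card_le_card ?_)
      intro n hn
      rw [mem_filter] at hn ⊢
      exact ⟨hn.1, hn.2.1⟩
    exact_mod_cast h5.trans h6
  refine h4.trans ?_
  calc ∑ H ∈ base 2 D, (#{n ∈ Icc 1 x | ∀ h ∈ H, (n + h).Prime} : ℝ)
      ≤ ∑ H ∈ base 2 D, C * x / (Real.log x) ^ 2 * Fac 2 A H := by
        apply sum_le_sum
        intro H hH
        exact h1 x hx H (mem_base.1 hH).1.2
    _ = C * x / (Real.log x) ^ 2 * ∑ H ∈ base 2 D, Fac 2 A H := by rw [mul_sum]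
    _ ≤ C * x / (Real.log x) ^ 2 * (C' * ((D + 1) ^ (2 - 1) : ℕ)) := by
        apply mul_le_mul_of_nonneg_left (h2 D)
        positivity
    _ = C * C' * (D + 1) * (x / (Real.log x) ^ 2) := by push_cast; ring

theorem posProp : PosProp := by
  classical
  obtain ⟨C, hC, x1, h1⟩ := small_gaps
  obtain ⟨x2, h2⟩ := pi_lower
  set δ : ℝ := min (1 / 2) (1 / (8 * C)) with hδ
  have hδ0 : 0 < δ := by positivity
  have hδ1 : δ ≤ 1 / 2 := min_le_left _ _
  have hδ2 : δ * C ≤ 1 / 8 := by
    have h3 : δ ≤ 1 / (8 * C) := min_le_right _ _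
    calc δ * C ≤ 1 / (8 * C) * C := mul_le_mul_of_nonneg_right h3 hC.le
      _ = 1 / 8 := by field_simp
  have hl : Tendsto (fun x : ℕ => Real.log (x : ℝ)) atTop atTop :=
    Real.tendsto_log_atTop.comp tendsto_natCast_atTop_atTop
  have hl2 : Tendsto (fun x : ℕ => (x : ℝ) / Real.log x) atTop atTop := by
    have h3 : Tendsto (fun x : ℝ => x / Real.log x) atTop atTop := by
      have h4 : Tendsto (fun x : ℝ => Real.log x / x) atTop (𝓝[>] 0) := by
        rw [tendsto_nhdsWithin_iff]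
        refine ⟨by simpa using Real.isLittleO_log_id_atTop.tendsto_div_nhds_zero, ?_⟩
        filter_upwards [eventually_gt_atTop 1] with x hx
        exact div_pos (Real.log_pos hx) (by linarith)
      have h5 := h4.inv_tendsto_nhdsGT_zero
      refine h5.congr fun x => ?_
      simp [inv_div]
    exact h3.comp tendsto_natCast_atTop_atTop
  have e1 := hl.eventually_ge_atTop (4 / δ)
  have e2 := hl2.eventually_ge_atTop 16
  obtain ⟨x3, h3⟩ := eventually_atTop.1 (e1.and e2)
  refine ⟨δ / 32, max x1 (max x2 (max x3 2)), by positivity, fun x hx => ?_⟩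
  have hxa : x1 ≤ x := (le_max_left _ _).trans hx
  have hxb : x2 ≤ x := (le_max_left _ _).trans ((le_max_right _ _).trans hx)
  have hxc : x3 ≤ x := (le_max_left _ _).trans ((le_max_right _ _).trans ((le_max_right _ _).trans hx))
  have hxd : 2 ≤ x := (le_max_right _ _).trans ((le_max_right _ _).trans ((le_max_right _ _).trans hx))
  obtain ⟨hlog1, hpi⟩ := h2 x hxb
  obtain ⟨g1, g2⟩ := h3 x hxc
  set L := Real.log x with hL
  have hLpos : 0 < L := by linarith
  have hxpos : (0 : ℝ) < x := by exact_mod_cast (by omega : 0 < x)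
  have hδL : 4 ≤ δ * L := by
    rw [div_le_iff₀ hδ0] at g1; linarith
  set D := ⌊δ * L⌋₊ with hD
  have hD1 : (D : ℝ) ≤ δ * L := Nat.floor_le (by positivity)
  have hD2 : δ * L < D + 1 := Nat.lt_floor_add_one _
  set N := Nat.primeCounting x with hN
  have hB := h1 x hxa D
  have hBle : (#{m ∈ range N | P (m + 1) - P m ≤ D} : ℝ) ≤ (1 / 4) * (x / L) := by
    refine hB.trans ?_
    have h4 : (D : ℝ) + 1 ≤ 2 * (δ * L) := by linarith
    calc C * (D + 1) * (x / L ^ 2) ≤ C * (2 * (δ * L)) * (x / L ^ 2) := by gcongr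
      _ = 2 * (δ * C) * (x / L) := by field_simp
      _ ≤ 2 * (1 / 8) * (x / L) := by gcongr
      _ = _ := by ring
  set G : Finset ℕ := {m ∈ range (N - 1) | D < P (m + 1) - P m} with hG
  have hGc : N ≤ #G + #{m ∈ range N | P (m + 1) - P m ≤ D} + 1 := by
    have h4 : range (N - 1) ⊆ G ∪ {m ∈ range N | P (m + 1) - P m ≤ D} := by
      intro m hm
      rw [mem_range] at hm
      rw [mem_union, hG, mem_filter, mem_filter, mem_range, mem_range]
      by_cases h5 : D < P (m + 1) - P m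
      · left; exact ⟨hm, h5⟩
      · right; exact ⟨by omega, by omega⟩
    have h5 := (card_le_card h4).trans (card_union_le _ _)
    rw [card_range] at h5
    omega
  have hGc2 : (1 / 8) * (x / L) ≤ (#G : ℝ) := by
    have h4 : (N : ℝ) ≤ #G + #{m ∈ range N | P (m + 1) - P m ≤ D} + 1 := by exact_mod_cast hGc
    linarith
  -- the integers just before the larger prime
  have hinj : #(G ×ˢ Icc 1 D) ≤ #((Icc 1 x).filter (fun m => ∃ q : ℕ, q.Prime ∧ m < q ∧ (q : ℝ) ≤ m + Real.log x)) := by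
    apply card_le_card_of_injOn (fun q => P (q.1 + 1) - q.2)
    · intro q hq
      rw [mem_coe, mem_product, hG, mem_filter, mem_range, mem_Icc] at hq
      obtain ⟨⟨q1, q2⟩, q3, q4⟩ := hq
      rw [mem_coe, mem_filter, mem_Icc]
      have h5 : P (q.1 + 1) ≤ x := (P_le_iff x _).2 (by omega)
      refine ⟨⟨?_, ?_⟩, P (q.1 + 1), P_prime _, ?_, ?_⟩
      · show 1 ≤ P (q.1 + 1) - q.2
        omega
      · show P (q.1 + 1) - q.2 ≤ x
        omega
      · show P (q.1 + 1) - q.2 < P (q.1 + 1)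
        omega
      show ((P (q.1 + 1) : ℕ) : ℝ) ≤ ((P (q.1 + 1) - q.2 : ℕ) : ℝ) + Real.log x
      have h6 : P (q.1 + 1) ≤ (P (q.1 + 1) - q.2) + D := by omega
      have h7 : ((P (q.1 + 1) : ℕ) : ℝ) ≤ ((P (q.1 + 1) - q.2 : ℕ) : ℝ) + D := by exact_mod_cast h6
      have h8 : δ * L ≤ L := by nlinarith
      linarith
    · intro a ha b hb hab
      rw [mem_coe, mem_product, hG, mem_filter, mem_range, mem_Icc] at ha hb
      obtain ⟨⟨a1, a2⟩, a3, a4⟩ := ha
      obtain ⟨⟨b1, b2⟩, b3, b4⟩ := hb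
      simp only at hab
      have h5 : a.1 = b.1 := by
        rcases lt_trichotomy a.1 b.1 with h | h | h
        · have h6 : P (a.1 + 1) ≤ P b.1 := P_mono.monotone (by omega)
          omega
        · exact h
        · have h6 : P (b.1 + 1) ≤ P a.1 := P_mono.monotone (by omega)
          omega
      have h6 : a.2 = b.2 := by
        rw [h5] at hab a2
        omega
      exact Prod.ext h5 h6
  rw [card_product, Nat.card_Icc, Nat.add_sub_cancel] at hinj
  have h9 : (#G : ℝ) * D ≤ #((Icc 1 x).filter (fun m => ∃ q : ℕ, q.Prime ∧ m < q ∧ (q : ℝ) ≤ m + Real.log x)) := by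
    exact_mod_cast hinj
  refine le_trans ?_ h9
  have h10 : δ * L / 2 ≤ D := by linarith
  calc δ / 32 * x ≤ (1 / 8) * (x / L) * (δ * L / 2) := by
        have : (1 / 8) * (x / L) * (δ * L / 2) = δ / 16 * x := by field_simp; norm_num
        rw [this]
        have : 0 ≤ δ * x := by positivity
        linarith
    _ ≤ #G * D := by gcongr

end Pool.Agent.H312R2.PG
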